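import Pool.Agent.Helper81.PC.Snd2c
import Pool.Agent.Helper55.Q2.Cls

set_option autoImplicit false
set_option linter.all false

open Helper11.CT Helper55.Q2

namespace Helper55.Q2.T_TA_m1_m1_m1_1_Q1_0

noncomputable def M : Cx := mQ (-1) (-1) 0 1 1 0 0 0

noncomputable def base : List Con :=
  [(false,[0,-1,0,1,0,0,0,1]),
  (false,[0,1,0,1,0,0,0,1]),
  (false,[0,1,0,1,0,0,0,-1]),
  (false,[0,0,0,0,0,0,0,1]),
  (false,[0,2,0,0,0,0,0,-1]),
  (false,[0,0,1,0,0,0,0,1]),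
  (false,[0,0,1,0,0,0,0,-1]),
  (false,[0,0,0,0,0,0,-1,2]),
  (false,[0,0,0,0,0,0,1,-1]),
  (false,[0,0,0,0,0,1,-1,1]),
  (false,[0,0,0,0,0,0,1,-1]),
  (false,[0,0,0,0,1,0,0,-2]),
  (false,[0,0,0,0,0,-1,0,1]),
  (true,[0,0,0,0,0,1]),
  (true,[1,-2,1]),
  (true,[0,1,0,1]),
  (true,[0,0,0,-1]),
  (true,[0,0,-2,0,1]),
  (true,[0,-2,0,0,1]),
  (true,[-1,0,1]),
  (true,[-1,1])]

noncomputable def t0 : Tr2 :=
  (.C [(0,0),(1,0),(13,1)])

theorem ok0 : chk2 M t0 base = true := by decide +kernel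

theorem closed : Closed false (-1) (-1) 0 1 1 0 0 0 0 :=
  ⟨t0, base, chkQ_of (by decide +kernel) ok0⟩

end Helper55.Q2.T_TA_m1_m1_m1_1_Q1_0

namespace Helper55.Q2.T_TA_m1_m1_m1_1_Q2_1

noncomputable def M : Cx := mQ (-1) (-1) 0 1 2 1 0 0

noncomputable def base : List Con :=
  [(false,[0,1,0,1,0,0,0,-2]),
  (false,[0,1,0,1,1,0,0,-2]),
  (false,[0,1,0,1,-1,0,0,2]),
  (false,[0,2,0,0,0,0,0,-2]),
  (false,[0,0,0,0,0,0,0,2]),
  (false,[0,0,1,0,1,0,0,-2]),
  (false,[0,0,1,0,-1,0,0,2]),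
  (false,[0,0,0,0,0,0,1,-1]),
  (false,[0,0,0,0,0,0,-1,2]),
  (false,[0,0,0,0,0,1,-1,1]),
  (false,[0,0,0,0,0,0,1,-1]),
  (false,[0,0,0,0,1,0,0,-2]),
  (false,[0,0,0,0,0,-1,0,1]),
  (true,[0,0,0,0,0,1]),
  (true,[1,-2,1]),
  (true,[0,1,0,1]),
  (true,[0,0,0,-1]),
  (true,[0,0,-2,0,1]),
  (true,[0,-2,0,0,1]),
  (true,[-1,0,1]),
  (true,[-1,1])]

noncomputable def t0 : Tr2 :=
  (.C [(0,1),(5,1),(9,1),(0,0),(0,0)])

theorem ok0 : chk2 M t0 base = true := by decide +kernel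

theorem closed : Closed false (-1) (-1) 0 1 2 1 0 0 0 :=
  ⟨t0, base, chkQ_of (by decide +kernel) ok0⟩

end Helper55.Q2.T_TA_m1_m1_m1_1_Q2_1

namespace Helper55.Q2.T_TA_m1_m1_m1_1_Q3_m1

noncomputable def M : Cx := mQ (-1) (-1) 0 1 3 1 (-1) 0

noncomputable def base : List Con :=
  [(false,[0,1,0,2,-1,0,0,-1]),
  (false,[0,1,-1,1,1,0,0,-1]),
  (false,[0,1,1,1,-1,0,0,1]),
  (false,[0,2,0,1,-1,0,0,-1]),
  (false,[0,0,0,-1,1,0,0,1]),
  (false,[0,0,0,0,1,0,0,-1]),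
  (false,[0,0,2,0,-1,0,0,1]),
  (true,[0,0,0,0,0,-1,1]),
  (false,[0,0,0,0,0,1,-1,1]),
  (false,[0,0,0,0,0,1,-1,1]),
  (false,[0,0,0,0,0,0,1,-1]),
  (false,[0,0,0,0,1,0,0,-2]),
  (false,[0,0,0,0,0,-1,0,1]),
  (true,[0,0,0,0,0,1]),
  (true,[1,-2,1]),
  (true,[0,1,0,1]),
  (true,[0,0,0,-1]),
  (true,[0,0,-2,0,1]),
  (true,[0,-2,0,0,1]),
  (true,[-1,0,1]),
  (true,[-1,1])]

noncomputable def t0 : Tr2 :=
  (.C [(0,0),(11,0),(0,0),(2,1),(1,0),(1,0)])

theorem ok0 : chk2 M t0 base = true := by decide +kernel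

theorem closed : Closed false (-1) (-1) 0 1 3 1 (-1) 0 0 :=
  ⟨t0, base, chkQ_of (by decide +kernel) ok0⟩

end Helper55.Q2.T_TA_m1_m1_m1_1_Q3_m1

namespace Helper55.Q2.T_TA_m1_m1_m1_1_Q3_0

noncomputable def M : Cx := mQ (-1) (-1) 0 1 3 1 0 0

noncomputable def base : List Con :=
  [(false,[0,1,0,2,0,0,0,-1]),
  (false,[0,1,-1,1,1,0,0,-1]),
  (false,[0,1,1,1,-1,0,0,1]),
  (false,[0,2,0,1,0,0,0,-1]),
  (false,[0,0,0,-1,0,0,0,1]),
  (false,[0,0,0,0,1,0,0,-1]),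
  (false,[0,0,2,0,-1,0,0,1]),
  (true,[0,0,0,0,0,-1,1]),
  (false,[0,0,0,0,0,1,-1,1]),
  (false,[0,0,0,0,0,1,-1,1]),
  (false,[0,0,0,0,0,0,1,-1]),
  (false,[0,0,0,0,1,0,0,-2]),
  (false,[0,0,0,0,0,-1,0,1]),
  (true,[0,0,0,0,0,1]),
  (true,[1,-2,1]),
  (true,[0,1,0,1]),
  (true,[0,0,0,-1]),
  (true,[0,0,-2,0,1]),
  (true,[0,-2,0,0,1]),
  (true,[-1,0,1]),
  (true,[-1,1])]

noncomputable def t0 : Tr2 :=
  (.C [(0,0),(1,0),(11,0),(1,2),(0,0)])

theorem ok0 : chk2 M t0 base = true := by decide +kernel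

theorem closed : Closed false (-1) (-1) 0 1 3 1 0 0 0 :=
  ⟨t0, base, chkQ_of (by decide +kernel) ok0⟩

end Helper55.Q2.T_TA_m1_m1_m1_1_Q3_0

namespace Helper55.Q2.T_TA_m1_m1_m1_1_Q3_1

noncomputable def M : Cx := mQ (-1) (-1) 0 1 3 1 1 0

noncomputable def base : List Con :=
  [(false,[0,1,0,2,1,0,0,-1]),
  (false,[0,1,-1,1,1,0,0,-1]),
  (false,[0,1,1,1,-1,0,0,1]),
  (false,[0,2,0,1,1,0,0,-1]),
  (false,[0,0,0,-1,-1,0,0,1]),
  (false,[0,0,0,0,1,0,0,-1]),
  (false,[0,0,2,0,-1,0,0,1]),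
  (true,[0,0,0,0,0,-1,1]),
  (false,[0,0,0,0,0,1,-1,1]),
  (false,[0,0,0,0,0,1,-1,1]),
  (false,[0,0,0,0,0,0,1,-1]),
  (false,[0,0,0,0,1,0,0,-2]),
  (false,[0,0,0,0,0,-1,0,1]),
  (true,[0,0,0,0,0,1]),
  (true,[1,-2,1]),
  (true,[0,1,0,1]),
  (true,[0,0,0,-1]),
  (true,[0,0,-2,0,1]),
  (true,[0,-2,0,0,1]),
  (true,[-1,0,1]),
  (true,[-1,1])]

noncomputable def t0 : Tr2 :=
  (.C [(4,1),(6,0),(3,1),(2,0)])

theorem ok0 : chk2 M t0 base = true := by decide +kernel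

theorem closed : Closed false (-1) (-1) 0 1 3 1 1 0 0 :=
  ⟨t0, base, chkQ_of (by decide +kernel) ok0⟩

end Helper55.Q2.T_TA_m1_m1_m1_1_Q3_1

namespace Helper55.Q2.T_TA_m1_m1_1_m1_G

noncomputable def M : Cx := mQ 1 (-1) 1 1 0 0 0 0

noncomputable def base : List Con :=
  [(false,[0,0,0,1,0,0,0,-1,-1,0,-1]),
  (false,[0,1,0,1,0,0,0,1,0,0,1]),
  (false,[0,1,0,1,0,0,0,-1,0,0,-1]),
  (false,[0,1,0,0,0,0,0,1,1,0,1]),
  (false,[0,1,0,0,0,0,0,-1,-1,0,-1]),
  (false,[0,0,1,0,0,0,0,1,0,0,1]),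
  (false,[0,0,1,0,0,0,0,-1,0,0,-1]),
  (false,[0,0,0,0,0,0,0,0,0,1,-1]),
  (false,[0,0,0,0,0,0,0,0,0,0,1]),
  (false,[0,0,0,0,0,1,-1,0,0,1]),
  (false,[0,0,0,0,0,0,1,0,0,-1]),
  (false,[0,0,0,0,1,0,0,0,0,-2]),
  (false,[0,0,0,0,0,-1,0,0,0,1]),
  (true,[0,0,0,0,0,1]),
  (true,[1,-2,1]),
  (true,[0,1,0,1]),
  (true,[0,0,0,-1]),
  (true,[0,0,-2,0,1]),
  (true,[0,-2,0,0,1]),
  (true,[-1,0,1]),
  (true,[-1,1])]

open Helper81.PC in
noncomputable def t0n : Helper81.PC.Ten2 :=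
  (ni 2658131512635090869859335027921387561 (ni 590223796750502199301 (nq
  49993806243744258886704175598827364333750714378 (nr
  121314996717147168683636412662752804428729962658000561539487154898516920738943071579115334910529990927478748960877767322416031150328227286982018916373099861694913682843504034341491857152056007524390541073164509394517650597264605156705144346213927094380944483916164156252502033553732535556253989687086387129622401917331671839590553766748831137028807363538431173761031415540544985870898588010199058875567764446585799505122714595159021082504693886715638893593395230589059072)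
  (nq 47231301426959365961906775006331917904818077706 (nr
  786425133758327128953466365797779742096787273011269555197095067297316322203670698776279257986857254927288481984159801056862419808734466257554987669637253020801895864421904649378230342844912437026275133387363740086760485265940323427508373788586496823915237168983942989636639084287497973047382570747429609762276949270970860969382202343325385113167469840301433702661748349929445671679364815217178004299855167488)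
  (nr
  37704654156094111520292112604390821866825058697540096879145614668428476034865860747069109544045950795617763489141911416475823121616155219998986087977734352419717764767129914787589864662275373985828062878506223140864)))
  (nq 113082094391302711926010031727088454126942593062130877669893272872880570379 (nq
  113082525750449587203502278773114289186294913901766953594427210971935014923 (nq
  113082957109596462480994525819140124245647883778510346372414697790844829707 (nr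
  3996645965853256597340512816017835811501074906061600872412933973942947744443937150034003667204781417551886916423229368869070888141405384235287114950528181454520777201361462120557000429525568109088760235054455503610819466435458380125715950359875522493071895088114276936268590027782219566547628089426647281702581871473475754926758782637806219491208239307663016589506590424252504957299720192)
  (nr
  115672317773724768657633607414302512104623436809312731233112075798434101838063841978885575787799703994489150503235043789815274822108475118649158115542609613670939043670078062727100504646920765077032122599969783223745893105664))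
  (nr
  115671964771979436992705718615680932126400445922175493221362118047693096358418518773023106303268068285841738743226161640279736896372599564212222273643361680373511711210250520830986323473005701565012674619220588662072375508992))
  (nr
  695528105582062944616180722998455004155657544794870309480025921987574572637720483279957212613566138893480140552368911616687350719472862024835245357681192444745413393852916888731892404433991838624884459752539706711201912020792548261888)))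
  (nr
  93352609049831530970469443177634230774262682202565962503747181847268442872378227415868226373014713775830924550506610005822290383888852533329623948974193138668181788636254909480155069459474982393715710093724882686832780373110613618923948474368))

noncomputable def t0 : Tr2 := Helper81.PC.toT2 t0n

theorem ok0 : chk2 M t0 base = true :=
  Helper81.PC.chk2N_sound M t0n base (by decide +kernel)

theorem closed : Closed false 1 (-1) 1 1 0 0 0 0 0 :=
  ⟨t0, base, chkQ_of (by decide +kernel) ok0⟩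

end Helper55.Q2.T_TA_m1_m1_1_m1_G

namespace Helper55.Q2.T_TA_m1_m1_1_m1_Q1_0

noncomputable def M : Cx := mQ 1 (-1) 1 1 1 0 1 0

noncomputable def base : List Con :=
  [(false,[0,1,0,1,-1,0,0,1]),
  (false,[0,1,0,1,0,0,0,-1]),
  (false,[0,1,0,1,0,0,0,1]),
  (false,[0,0,0,0,1,0,0,-1]),
  (false,[0,2,0,0,-1,0,0,1]),
  (false,[0,0,1,0,0,0,0,-1]),
  (false,[0,0,1,0,0,0,0,1]),
  (false,[0,0,0,0,0,0,-1,2]),
  (false,[0,0,0,0,0,0,1,-1]),
  (false,[0,0,0,0,0,1,-1,1]),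
  (false,[0,0,0,0,0,0,1,-1]),
  (false,[0,0,0,0,1,0,0,-2]),
  (false,[0,0,0,0,0,-1,0,1]),
  (true,[0,0,0,0,0,1]),
  (true,[1,-2,1]),
  (true,[0,1,0,1]),
  (true,[0,0,0,-1]),
  (true,[0,0,-2,0,1]),
  (true,[0,-2,0,0,1]),
  (true,[-1,0,1]),
  (true,[-1,1])]

noncomputable def t0 : Tr2 :=
  (.C [(0,1),(4,1),(10,1),(0,0),(0,0)])

theorem ok0 : chk2 M t0 base = true := by decide +kernel

theorem closed : Closed false 1 (-1) 1 1 1 0 1 0 0 :=
  ⟨t0, base, chkQ_of (by decide +kernel) ok0⟩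

end Helper55.Q2.T_TA_m1_m1_1_m1_Q1_0

namespace Helper55.Q2.T_TA_m1_m1_1_m1_Q2_m1

noncomputable def M : Cx := mQ 1 (-1) 1 1 2 (-1) (-1) 0

noncomputable def base : List Con :=
  [(false,[0,-1,0,1,1,0,0,-2]),
  (false,[0,1,0,1,-1,0,0,2]),
  (false,[0,1,0,1,1,0,0,-2]),
  (false,[0,2,0,0,-1,0,0,2]),
  (false,[0,0,0,0,1,0,0,-2]),
  (false,[0,0,1,0,-1,0,0,2]),
  (false,[0,0,1,0,1,0,0,-2]),
  (false,[0,0,0,0,0,0,1,-1]),
  (false,[0,0,0,0,0,0,-1,2]),
  (false,[0,0,0,0,0,1,-1,1]),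
  (false,[0,0,0,0,0,0,1,-1]),
  (false,[0,0,0,0,1,0,0,-2]),
  (false,[0,0,0,0,0,-1,0,1]),
  (true,[0,0,0,0,0,1]),
  (true,[1,-2,1]),
  (true,[0,1,0,1]),
  (true,[0,0,0,-1]),
  (true,[0,0,-2,0,1]),
  (true,[0,-2,0,0,1]),
  (true,[-1,0,1]),
  (true,[-1,1])]

noncomputable def t0 : Tr2 :=
  (.C [(0,0),(0,0),(14,1)])

theorem ok0 : chk2 M t0 base = true := by decide +kernel

theorem closed : Closed false 1 (-1) 1 1 2 (-1) (-1) 0 0 :=
  ⟨t0, base, chkQ_of (by decide +kernel) ok0⟩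

end Helper55.Q2.T_TA_m1_m1_1_m1_Q2_m1

namespace Helper55.Q2.T_TA_m1_m1_1_m1_Q2_0

noncomputable def M : Cx := mQ 1 (-1) 1 1 2 0 (-1) 0

noncomputable def base : List Con :=
  [(false,[0,-1,0,1,1,0,0,-2]),
  (false,[0,1,0,1,0,0,0,2]),
  (false,[0,1,0,1,0,0,0,-2]),
  (false,[0,2,0,0,-1,0,0,2]),
  (false,[0,0,0,0,1,0,0,-2]),
  (false,[0,0,1,0,0,0,0,2]),
  (false,[0,0,1,0,0,0,0,-2]),
  (false,[0,0,0,0,0,0,1,-1]),
  (false,[0,0,0,0,0,0,-1,2]),
  (false,[0,0,0,0,0,1,-1,1]),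
  (false,[0,0,0,0,0,0,1,-1]),
  (false,[0,0,0,0,1,0,0,-2]),
  (false,[0,0,0,0,0,-1,0,1]),
  (true,[0,0,0,0,0,1]),
  (true,[1,-2,1]),
  (true,[0,1,0,1]),
  (true,[0,0,0,-1]),
  (true,[0,0,-2,0,1]),
  (true,[0,-2,0,0,1]),
  (true,[-1,0,1]),
  (true,[-1,1])]

noncomputable def t0 : Tr2 :=
  (.C [(2,0),(0,0),(10,1),(1,0),(0,0),(2,0)])

theorem ok0 : chk2 M t0 base = true := by decide +kernel

theorem closed : Closed false 1 (-1) 1 1 2 0 (-1) 0 0 :=
  ⟨t0, base, chkQ_of (by decide +kernel) ok0⟩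

end Helper55.Q2.T_TA_m1_m1_1_m1_Q2_0

namespace Helper55.Q2.T_TA_m1_m1_1_m1_Q3_m1

noncomputable def M : Cx := mQ 1 (-1) 1 1 3 0 (-1) 0

noncomputable def base : List Con :=
  [(false,[0,-1,0,0,1,0,0,-1]),
  (false,[0,1,-1,1,0,0,0,1]),
  (false,[0,1,1,1,0,0,0,-1]),
  (false,[0,2,0,1,-1,0,0,1]),
  (false,[0,0,0,-1,1,0,0,-1]),
  (false,[0,0,0,0,0,0,0,1]),
  (false,[0,0,2,0,0,0,0,-1]),
  (true,[0,0,0,0,0,-1,1]),
  (false,[0,0,0,0,0,1,-1,1]),
  (false,[0,0,0,0,0,1,-1,1]),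
  (false,[0,0,0,0,0,0,1,-1]),
  (false,[0,0,0,0,1,0,0,-2]),
  (false,[0,0,0,0,0,-1,0,1]),
  (true,[0,0,0,0,0,1]),
  (true,[1,-2,1]),
  (true,[0,1,0,1]),
  (true,[0,0,0,-1]),
  (true,[0,0,-2,0,1]),
  (true,[0,-2,0,0,1]),
  (true,[-1,0,1]),
  (true,[-1,1])]

noncomputable def t0 : Tr2 :=
  (.C [(3,1),(7,0),(2,1),(1,1),(0,0)])

theorem ok0 : chk2 M t0 base = true := by decide +kernel

theorem closed : Closed false 1 (-1) 1 1 3 0 (-1) 0 0 :=
  ⟨t0, base, chkQ_of (by decide +kernel) ok0⟩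

end Helper55.Q2.T_TA_m1_m1_1_m1_Q3_m1

namespace Helper55.Q2.T_TA_m1_m1_1_m1_Q3_0

noncomputable def M : Cx := mQ 1 (-1) 1 1 3 0 0 0

noncomputable def base : List Con :=
  [(false,[0,-1,0,0,0,0,0,-1]),
  (false,[0,1,-1,1,0,0,0,1]),
  (false,[0,1,1,1,0,0,0,-1]),
  (false,[0,2,0,1,0,0,0,1]),
  (false,[0,0,0,-1,0,0,0,-1]),
  (false,[0,0,0,0,0,0,0,1]),
  (false,[0,0,2,0,0,0,0,-1]),
  (true,[0,0,0,0,0,-1,1]),
  (false,[0,0,0,0,0,1,-1,1]),
  (false,[0,0,0,0,0,1,-1,1]),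
  (false,[0,0,0,0,0,0,1,-1]),
  (false,[0,0,0,0,1,0,0,-2]),
  (false,[0,0,0,0,0,-1,0,1]),
  (true,[0,0,0,0,0,1]),
  (true,[1,-2,1]),
  (true,[0,1,0,1]),
  (true,[0,0,0,-1]),
  (true,[0,0,-2,0,1]),
  (true,[0,-2,0,0,1]),
  (true,[-1,0,1]),
  (true,[-1,1])]

noncomputable def t0 : Tr2 :=
  (.C [(0,0),(4,0),(14,0)])

theorem ok0 : chk2 M t0 base = true := by decide +kernel

theorem closed : Closed false 1 (-1) 1 1 3 0 0 0 0 :=
  ⟨t0, base, chkQ_of (by decide +kernel) ok0⟩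

end Helper55.Q2.T_TA_m1_m1_1_m1_Q3_0

namespace Helper55.Q2.T_TA_m1_m1_1_m1_Q3_1

noncomputable def M : Cx := mQ 1 (-1) 1 1 3 0 1 0

noncomputable def base : List Con :=
  [(false,[0,-1,0,0,-1,0,0,-1]),
  (false,[0,1,-1,1,0,0,0,1]),
  (false,[0,1,1,1,0,0,0,-1]),
  (false,[0,2,0,1,1,0,0,1]),
  (false,[0,0,0,-1,-1,0,0,-1]),
  (false,[0,0,0,0,0,0,0,1]),
  (false,[0,0,2,0,0,0,0,-1]),
  (true,[0,0,0,0,0,-1,1]),
  (false,[0,0,0,0,0,1,-1,1]),
  (false,[0,0,0,0,0,1,-1,1]),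
  (false,[0,0,0,0,0,0,1,-1]),
  (false,[0,0,0,0,1,0,0,-2]),
  (false,[0,0,0,0,0,-1,0,1]),
  (true,[0,0,0,0,0,1]),
  (true,[1,-2,1]),
  (true,[0,1,0,1]),
  (true,[0,0,0,-1]),
  (true,[0,0,-2,0,1]),
  (true,[0,-2,0,0,1]),
  (true,[-1,0,1]),
  (true,[-1,1])]

noncomputable def t0 : Tr2 :=
  (.C [(0,0),(4,0),(12,0),(1,2)])

theorem ok0 : chk2 M t0 base = true := by decide +kernel

theorem closed : Closed false 1 (-1) 1 1 3 0 1 0 0 :=
  ⟨t0, base, chkQ_of (by decide +kernel) ok0⟩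

end Helper55.Q2.T_TA_m1_m1_1_m1_Q3_1

namespace Helper55.Q2.T_TA_m1_m1_1_1_G

noncomputable def M : Cx := mQ 1 (-1) 0 1 0 0 0 0

noncomputable def base : List Con :=
  [(false,[0,0,0,1,0,0,0,1,1,0,1]),
  (false,[0,1,0,1,0,0,0,1,0,0,1]),
  (false,[0,1,0,1,0,0,0,-1,0,0,-1]),
  (false,[0,1,0,0,0,0,0,1,1,0,1]),
  (false,[0,1,0,0,0,0,0,-1,-1,0,-1]),
  (false,[0,0,1,0,0,0,0,1,0,0,1]),
  (false,[0,0,1,0,0,0,0,-1,0,0,-1]),
  (false,[0,0,0,0,0,0,0,0,0,1,-1]),
  (false,[0,0,0,0,0,0,0,0,0,0,1]),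
  (false,[0,0,0,0,0,1,-1,0,0,1]),
  (false,[0,0,0,0,0,0,1,0,0,-1]),
  (false,[0,0,0,0,1,0,0,0,0,-2]),
  (false,[0,0,0,0,0,-1,0,0,0,1]),
  (true,[0,0,0,0,0,1]),
  (true,[1,-2,1]),
  (true,[0,1,0,1]),
  (true,[0,0,0,-1]),
  (true,[0,0,-2,0,1]),
  (true,[0,-2,0,0,1]),
  (true,[-1,0,1]),
  (true,[-1,1])]

open Helper81.PC in
noncomputable def t0n : Helper81.PC.Ten2 :=
  (nq 94360224761383588135006228587060868167956289702807127515200546275339 (nr
  363871798054729225977412262991226336200208920782337391891007089687297401108789959094819478789081673822204688772027446949355451665300521680949265402768574293133605043894992344968069926711190569901872596256710807048962712498440503296)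
  (nq 113081663032155836648517784682489953861948989093084049237604267830058024971 (nq
  47231301426959365961906775006331917904818077706 (nq
  47231301426959365961906775006187820313223495690 (nr
  19326593998414656803653923888136398621711083475977916214233538897848603030556093634113878610966749822768861218132611477327436200186493935627239286935391287286344680909524382106448893609546173639631772578806085809619064482787856341372574822331296969358445463329299671835753471612498348704928530308883844958888329129255167379406916259299781272334398866189854129901583324441113016420885025877134929203445164639518720)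
  (nq 47231301426959365961906775006331935494856900618 (ni 2658131512635090869859317435735605257
  (nr
  473886706036691474361786968785166071247190857357040457898017018491432889706291921993618693700240936875722715288848041038737190097372162041890974019511210884311631530323962655321652867642722436932622893978280223797116401148364090273278062589829007513506697682854136558913031394523576306733292035483192575233510711489553910113172233976551981700121117971857399703678200919538266951108459156033641972920630872679743011077105714752126027088797020404305487323186998814965760)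
  (nq 49993806243744258886694503011822941768870133770 (ni 2659429586849724576766450057670426633
  (nr
  245300972935083585872672521238503461828279617319883745261675724918047065435065334756351950786890830414092615928341604008534690867351059098649906962049462070912823729608699270667479841073157859322598060145835202023563522647404167131869978974588405359124445329434233996408414709738202026231418077349760435423963152618424959256349651201368514244243985419960826723716173737726617837382941833340692345643139654866536701553045972966212500204347265669714790453355886114474122334026843754864142864761312737211327883267752359876528765638792385618831436130792052257740784263984335382144098809463704320637185634079676858427203050757828589713316311964584439746229334074486156755394397496382916451528534210379776)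
  (ni 324478934740876236527060977319944 (nr
  16856954503911599029852045007890481485223118025898527555546117357667608274789752040744230873487135674045522171910761192258131439021616958287198734763860204061492896868153655471713856552642657044910152471297226583135795975691067348712931654535616558163116177389204764636035350171841609639678908970833668198810876291334671412600296961566492631990882043126837379188152194302293301758318541139651444758826389519037262664690808819944289118730720552362127613567977202247699824941548347481215272044186542922902176213796058238767786775950706151364460016085526672764992317340306558896532816297937161094304085380121977306576262298481884836834818572309999925438296774863361464684289976865814792315998230317702536117616640)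
  (nq 215679984820055382829487923353171311657229544666014356229062957858827 (nr
  14016336579174605459043728853257911958869149507504619993613386554091999028641544033197850838554437871512903706513121716427892951894716313132518649448715739391622754700482901169659255057615299811382791075663568904794151311840254358659815161977908187035140722649847389429666308610206673489127606394157125225370656839368310815337423901842695097462474539725054359550673037330646341101702678255708714850558114686541836625488199917877896506707938571833207287057612219457945045065317369554965641007306732167595180713190672143656036061680186030699811703830547415471871637976970338139580453129045150827282432)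
  (nr
  6185770855619411144155512681497516776620434708613830431961361153669245185802014002184915949845185492972315064784231848305694261182504373562397423862142119396884905260876165712735348249615818705383048301778365570855804006831622403553829527421383408455738633270562118480802306865782815400422420417991235338218165054415770888472827710822465567523011395741136793114329241144431206281324815742281948371080153476697766218014753000339152387534479923396825019457487523437473676066871345382596922880107790332673024301864036173841441749295591539458582757505804040126158286070280680539753772854603431553016614960791260067445968029356222835367208604767027775829704704))))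
  (nr
  1972970132597501095768587333033933859467681813933220372771438344855894390473955770735257026056220132563563439113652987437999474696070137293209833999622526354850921987285891215796167285784326399407726952489152003867563316735068144816793033621994499406639479196315998923965952712444069457535034549790132059202084630768739333658694089687535237034086579062558682464821816965725122822224922210919338979292132768262027545694635855920816277453496840520717793857020617452515744032108134247907936392251278661406906327333787816418328094244021177080242207825094600699771361525358776303272847049514929800680343713280577601537)))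
  (nr
  786413122328238520795628087446489953590729715084574696582586712877793726312558662432670395188002842931690774313535699162823316612426523456890161132963784516779622378357263521367772733760789177414501846751395725688968071802060223361321645687825486907144432300189893605116067095598300241825909127415417223399307327610978162814307460368481717086562900074111783356272826947682968107756249174292794802100527693824)))
  (nr
  161940256502028308914645929531193191723567490749857146507203543691809037101513398059410479670718471368918748447578996010282227680757964562991620234084343346644533343683176221721486608311705839233137610122402850724888560271360))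
  (nr
  2237866696570446928985637829946012988808989147068896121203627702666262999887205328141921457414318655569570177828025325815584821003066322133306055788342614182500203322721365333233569350537894848076125608745699607768991256323922532481243038058780043247015814990056899187182771145689562585311673435324229054534719770168527228191754568625360737513409955180885634689121105938849020945646325053947394925151483550128650469867876462413948498847337092783525419613222412433742513996361517025053376512)))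

noncomputable def t0 : Tr2 := Helper81.PC.toT2 t0n

theorem ok0 : chk2 M t0 base = true :=
  Helper81.PC.chk2N_sound M t0n base (by decide +kernel)

theorem closed : Closed false 1 (-1) 0 1 0 0 0 0 0 :=
  ⟨t0, base, chkQ_of (by decide +kernel) ok0⟩

end Helper55.Q2.T_TA_m1_m1_1_1_G

namespace Helper55.Q2.T_TA_m1_m1_1_1_Q1_0

noncomputable def M : Cx := mQ 1 (-1) 0 1 1 0 1 0

noncomputable def base : List Con :=
  [(false,[0,-1,0,1,1,0,0,-1]),
  (false,[0,1,0,1,0,0,0,-1]),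
  (false,[0,1,0,1,0,0,0,1]),
  (false,[0,0,0,0,1,0,0,-1]),
  (false,[0,2,0,0,-1,0,0,1]),
  (false,[0,0,1,0,0,0,0,-1]),
  (false,[0,0,1,0,0,0,0,1]),
  (false,[0,0,0,0,0,0,-1,2]),
  (false,[0,0,0,0,0,0,1,-1]),
  (false,[0,0,0,0,0,1,-1,1]),
  (false,[0,0,0,0,0,0,1,-1]),
  (false,[0,0,0,0,1,0,0,-2]),
  (false,[0,0,0,0,0,-1,0,1]),
  (true,[0,0,0,0,0,1]),
  (true,[1,-2,1]),
  (true,[0,1,0,1]),
  (true,[0,0,0,-1]),
  (true,[0,0,-2,0,1]),
  (true,[0,-2,0,0,1]),
  (true,[-1,0,1]),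
  (true,[-1,1])]

noncomputable def t0 : Tr2 :=
  (.C [(1,0),(2,0),(9,1),(1,0),(0,0),(2,0)])

theorem ok0 : chk2 M t0 base = true := by decide +kernel

theorem closed : Closed false 1 (-1) 0 1 1 0 1 0 0 :=
  ⟨t0, base, chkQ_of (by decide +kernel) ok0⟩

end Helper55.Q2.T_TA_m1_m1_1_1_Q1_0

namespace Helper55.Q2.T_TA_m1_m1_1_1_Q2_m1

noncomputable def M : Cx := mQ 1 (-1) 0 1 2 (-1) (-1) 0

noncomputable def base : List Con :=
  [(false,[0,1,0,1,-1,0,0,2]),
  (false,[0,1,0,1,-1,0,0,2]),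
  (false,[0,1,0,1,1,0,0,-2]),
  (false,[0,2,0,0,-1,0,0,2]),
  (false,[0,0,0,0,1,0,0,-2]),
  (false,[0,0,1,0,-1,0,0,2]),
  (false,[0,0,1,0,1,0,0,-2]),
  (false,[0,0,0,0,0,0,1,-1]),
  (false,[0,0,0,0,0,0,-1,2]),
  (false,[0,0,0,0,0,1,-1,1]),
  (false,[0,0,0,0,0,0,1,-1]),
  (false,[0,0,0,0,1,0,0,-2]),
  (false,[0,0,0,0,0,-1,0,1]),
  (true,[0,0,0,0,0,1]),
  (true,[1,-2,1]),
  (true,[0,1,0,1]),
  (true,[0,0,0,-1]),
  (true,[0,0,-2,0,1]),
  (true,[0,-2,0,0,1]),
  (true,[-1,0,1]),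
  (true,[-1,1])]

open Helper81.PC in
noncomputable def t0n : Helper81.PC.Ten2 :=
  (nq 703801235958328335909502261878002417672 (nr
  121314996698316602848315711765252998050512239795628245039444537355979815693998249670830427878494522050306761365901793035474750060714453625467219126256116010590101173718352759741765342385025588329457274712318284294269572953406268810732530137105196981642240494435543066944672458401876269025096305547393769060133744896517351902810959855014496957150942074750877713103347535443163366259758355139394719803524930496300344879548426419778987467891160376803630573234977462200303616)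
  (nq 746337829659985462593830860585013739528 (nr
  50178853650407465790484813331976116808072447629288052641089715412422863329289606224668124797524383405443822823496063735703230134097985928237386566709772719791417550702474616552616737527416469423020814132790104006123837486572798674257778092645498568208694170596198959809784082136277413119242015756600483548152660829145093416061652006360199642932838709720176865019993871088458448022418204961726641998253290285069657173965062277893222995580045164545)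
  (nr
  1841362102386845927371102036612178390900654020312315463510473311001727721071866073749631949483120383541667157164210124429205842004119550184019714271438749206242614188942006790124798320342377601904104895690912196852899037159017823125497786955208312501420494593832843004436121478741984403824380333178289854786549069591685459788616515676141882304772858535101006554762028585367006099906192915878969876825839597652515527112233048602324752912890182091442710400729263662728072745738097228498919957760053938615555433786044528380930957633991181949819096437620736)))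

noncomputable def t0 : Tr2 := Helper81.PC.toT2 t0n

theorem ok0 : chk2 M t0 base = true :=
  Helper81.PC.chk2N_sound M t0n base (by decide +kernel)

theorem closed : Closed false 1 (-1) 0 1 2 (-1) (-1) 0 0 :=
  ⟨t0, base, chkQ_of (by decide +kernel) ok0⟩

end Helper55.Q2.T_TA_m1_m1_1_1_Q2_m1

namespace Helper55.Q2.T_TA_m1_m1_1_1_Q2_0

noncomputable def M : Cx := mQ 1 (-1) 0 1 2 0 (-1) 0

noncomputable def base : List Con :=
  [(false,[0,1,0,1,-1,0,0,2]),
  (false,[0,1,0,1,0,0,0,2]),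
  (false,[0,1,0,1,0,0,0,-2]),
  (false,[0,2,0,0,-1,0,0,2]),
  (false,[0,0,0,0,1,0,0,-2]),
  (false,[0,0,1,0,0,0,0,2]),
  (false,[0,0,1,0,0,0,0,-2]),
  (false,[0,0,0,0,0,0,1,-1]),
  (false,[0,0,0,0,0,0,-1,2]),
  (false,[0,0,0,0,0,1,-1,1]),
  (false,[0,0,0,0,0,0,1,-1]),
  (false,[0,0,0,0,1,0,0,-2]),
  (false,[0,0,0,0,0,-1,0,1]),
  (true,[0,0,0,0,0,1]),
  (true,[1,-2,1]),
  (true,[0,1,0,1]),
  (true,[0,0,0,-1]),
  (true,[0,0,-2,0,1]),
  (true,[0,-2,0,0,1]),
  (true,[-1,0,1]),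
  (true,[-1,1])]

noncomputable def t0 : Tr2 :=
  (.C [(0,1),(5,1),(9,1),(0,0),(0,0)])

theorem ok0 : chk2 M t0 base = true := by decide +kernel

theorem closed : Closed false 1 (-1) 0 1 2 0 (-1) 0 0 :=
  ⟨t0, base, chkQ_of (by decide +kernel) ok0⟩

end Helper55.Q2.T_TA_m1_m1_1_1_Q2_0

namespace Helper55.Q2.T_TA_m1_m1_1_1_Q3_m1

noncomputable def M : Cx := mQ 1 (-1) 0 1 3 0 (-1) 0

noncomputable def base : List Con :=
  [(false,[0,1,0,2,-1,0,0,1]),
  (false,[0,1,-1,1,0,0,0,1]),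
  (false,[0,1,1,1,0,0,0,-1]),
  (false,[0,2,0,1,-1,0,0,1]),
  (false,[0,0,0,-1,1,0,0,-1]),
  (false,[0,0,0,0,0,0,0,1]),
  (false,[0,0,2,0,0,0,0,-1]),
  (true,[0,0,0,0,0,-1,1]),
  (false,[0,0,0,0,0,1,-1,1]),
  (false,[0,0,0,0,0,1,-1,1]),
  (false,[0,0,0,0,0,0,1,-1]),
  (false,[0,0,0,0,1,0,0,-2]),
  (false,[0,0,0,0,0,-1,0,1]),
  (true,[0,0,0,0,0,1]),
  (true,[1,-2,1]),
  (true,[0,1,0,1]),
  (true,[0,0,0,-1]),
  (true,[0,0,-2,0,1]),
  (true,[0,-2,0,0,1]),
  (true,[-1,0,1]),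
  (true,[-1,1])]

noncomputable def t0 : Tr2 :=
  (.C [(0,1),(10,0),(4,3),(1,0)])

theorem ok0 : chk2 M t0 base = true := by decide +kernel

theorem closed : Closed false 1 (-1) 0 1 3 0 (-1) 0 0 :=
  ⟨t0, base, chkQ_of (by decide +kernel) ok0⟩

end Helper55.Q2.T_TA_m1_m1_1_1_Q3_m1

namespace Helper55.Q2.T_TA_m1_m1_1_1_Q3_0

noncomputable def M : Cx := mQ 1 (-1) 0 1 3 0 0 0

noncomputable def base : List Con :=
  [(false,[0,1,0,2,0,0,0,1]),
  (false,[0,1,-1,1,0,0,0,1]),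
  (false,[0,1,1,1,0,0,0,-1]),
  (false,[0,2,0,1,0,0,0,1]),
  (false,[0,0,0,-1,0,0,0,-1]),
  (false,[0,0,0,0,0,0,0,1]),
  (false,[0,0,2,0,0,0,0,-1]),
  (true,[0,0,0,0,0,-1,1]),
  (false,[0,0,0,0,0,1,-1,1]),
  (false,[0,0,0,0,0,1,-1,1]),
  (false,[0,0,0,0,0,0,1,-1]),
  (false,[0,0,0,0,1,0,0,-2]),
  (false,[0,0,0,0,0,-1,0,1]),
  (true,[0,0,0,0,0,1]),
  (true,[1,-2,1]),
  (true,[0,1,0,1]),
  (true,[0,0,0,-1]),
  (true,[0,0,-2,0,1]),
  (true,[0,-2,0,0,1]),
  (true,[-1,0,1]),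
  (true,[-1,1])]

noncomputable def t0 : Tr2 :=
  (.C [(1,0),(2,0),(9,0),(5,0)])

theorem ok0 : chk2 M t0 base = true := by decide +kernel

theorem closed : Closed false 1 (-1) 0 1 3 0 0 0 0 :=
  ⟨t0, base, chkQ_of (by decide +kernel) ok0⟩

end Helper55.Q2.T_TA_m1_m1_1_1_Q3_0

namespace Helper55.Q2.T_TA_m1_m1_1_1_Q3_1

noncomputable def M : Cx := mQ 1 (-1) 0 1 3 0 1 0

noncomputable def base : List Con :=
  [(false,[0,1,0,2,1,0,0,1]),
  (false,[0,1,-1,1,0,0,0,1]),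
  (false,[0,1,1,1,0,0,0,-1]),
  (false,[0,2,0,1,1,0,0,1]),
  (false,[0,0,0,-1,-1,0,0,-1]),
  (false,[0,0,0,0,0,0,0,1]),
  (false,[0,0,2,0,0,0,0,-1]),
  (true,[0,0,0,0,0,-1,1]),
  (false,[0,0,0,0,0,1,-1,1]),
  (false,[0,0,0,0,0,1,-1,1]),
  (false,[0,0,0,0,0,0,1,-1]),
  (false,[0,0,0,0,1,0,0,-2]),
  (false,[0,0,0,0,0,-1,0,1]),
  (true,[0,0,0,0,0,1]),
  (true,[1,-2,1]),
  (true,[0,1,0,1]),
  (true,[0,0,0,-1]),
  (true,[0,0,-2,0,1]),
  (true,[0,-2,0,0,1]),
  (true,[-1,0,1]),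
  (true,[-1,1])]

noncomputable def t0 : Tr2 :=
  (.C [(1,0),(2,0),(13,0),(0,0),(0,0)])

theorem ok0 : chk2 M t0 base = true := by decide +kernel

theorem closed : Closed false 1 (-1) 0 1 3 0 1 0 0 :=
  ⟨t0, base, chkQ_of (by decide +kernel) ok0⟩

end Helper55.Q2.T_TA_m1_m1_1_1_Q3_1

namespace Helper55.Q2.T_TA_m1_1_m1_m1_G

noncomputable def M : Cx := mQ (-1) 1 1 1 0 0 0 0

noncomputable def base : List Con :=
  [(false,[0,0,0,1,0,0,0,-1,-1,0,1]),
  (false,[0,1,0,1,0,0,0,1,0,0,-1]),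
  (false,[0,1,0,1,0,0,0,-1,0,0,1]),
  (false,[0,1,0,0,0,0,0,1,1,0,-1]),
  (false,[0,1,0,0,0,0,0,-1,-1,0,1]),
  (false,[0,0,1,0,0,0,0,1,0,0,-1]),
  (false,[0,0,1,0,0,0,0,-1,0,0,1]),
  (false,[0,0,0,0,0,0,0,0,0,1,-1]),
  (false,[0,0,0,0,0,0,0,0,0,0,1]),
  (false,[0,0,0,0,0,1,-1,0,0,1]),
  (false,[0,0,0,0,0,0,1,0,0,-1]),
  (false,[0,0,0,0,1,0,0,0,0,-2]),
  (false,[0,0,0,0,0,-1,0,0,0,1]),
  (true,[0,0,0,0,0,1]),
  (true,[1,-2,1]),
  (true,[0,1,0,1]),
  (true,[0,0,0,-1]),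
  (true,[0,0,-2,0,1]),
  (true,[0,-2,0,0,1]),
  (true,[-1,0,1]),
  (true,[-1,1])]

open Helper81.PC in
noncomputable def t0n : Helper81.PC.Ten2 :=
  (ni 2659429586849724576766467654150914057 (nq
  107840198101236009767724989559601481036341223397586420202547341033483 (ni
  2659429586849724576766485246336958505 (nq 13084494286465934034929450628686658132648091067744267
  (nq 47231301426959365961906775006331953089190428682 (nr
  230865588072445090722282598215266914129513750824363032938379344390550974062052022068956052904433812593549393827261024298790069780568519544163699705802423927560016783663519692801104741669088271462791407495525707016041706102647524308459126062060369826459156222036924645848536636857994962786327027621685836413475009136226180409958090331365403216492117622542513472763128569349144728400586231553287333935196060357103439306173866630014206067687841852697315897995094023432988164010842383852381457133338564676283693388529664)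
  (nr
  55940480250858245019668126542266762380420467196327683343001542642846438002267187312908349663595117642865452470488871571857516914322992446564536783298042950980875085366978692709301364575398339665171700456144928870809352319110774297050636692897136640))
  (ni 2658131512635090869859317433588121641 (nn 288239172450644356) (nq
  25631909629132613370309537529472040456094238641127965339234477977719660567112046666121449371205643
  (nq 47231301426959365961906775006331935494856900618 (nq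
  49993806243744258886704175598827381923789537290 (nr
  4831648501103605306628306872698492264370522737985395429904977928297052833094930691242939229113678152246744927870332264418732556888428020045408289780540099282237928890379294393722401251582915108696049735774162561561928149625363308137721724919752500760629151723576719114888722519469723229091815422205063506687542672981782738091434442891740439670333747545770489406392214904193626087190831963482427064400439444242432)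
  (nr
  14808959565945261629875264270813271693418773339690795606540385409293342084420578628623478227815942592553104013290298241042064767183312038793665959710928814395586954300876801120732838305954496203540595535122337070597686019909342225992968641646724654846312195478819334389776043282807830051909259954967305920331893184244714308731795789890157276902139984723358935915975444575930079350649076508265551562198404562415587978553728149810435699401501783312858040462956912705536))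
  (nq 47231301426959365961906775006331953089190428682 (nr
  6770581624753786334901996938296279996891603860090827628452887879785759947869712493316164339254549858204006413320884916018015551752133212037359813264280672705305871413030128742984869351337774418904984166417744267650477923725526282818712456804016718405051056669690931487509316342491408890806430544485611908874413442722004487160221381421943375430805547177625522014257152)
  (nr
  46272880720415963502677902762355690225048037439418503768875227137415669938920380382608588262226248198790731097646068232993478147454148787339254805414628246566019818319998614468409652356625610989304472642941396550568814575616)))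
  (nr
  63603997013648614325809296970351909994084714200720326696096363967775149083826540112189191247789464203667264363172048254156771280076406520561235258224529780723429593629158044393864667374294718677598449610530414707355033981968381898997183686200244028029275517021715078263325148685380006828311899377101434446966925598950853729692835592385622799160809570042057332496400942339051431121701334981420330750973684120246320482895166667194033420513912721356389161854052211689591792467968))))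
  (nr
  3022940933965420107157198514853800528716205335823470107533854168170538123137730444096360669907247865147347554681027259547346252167396245679935868659647175825891346003600800155396591472531528679449937604220495106842029777582114139836761170467047207507932956153872384))
  (nr
  1807379967402655771815118352120616200464831429359298973190863236191456082764547649521675763737603709127246884899793139744554072418486909612360643503844961595292526885931945799516997794896630470584011020040200352116036861952))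
  (nr
  406986408534948750100926695195525147346869030438659339551040937807697005070445100303461418985231191061528979335470932293618135143798027345289740319255152118935148732324402282108662886920322278245820616480171475643475888125913481894428672))

noncomputable def t0 : Tr2 := Helper81.PC.toT2 t0n

theorem ok0 : chk2 M t0 base = true :=
  Helper81.PC.chk2N_sound M t0n base (by decide +kernel)

theorem closed : Closed false (-1) 1 1 1 0 0 0 0 0 :=
  ⟨t0, base, chkQ_of (by decide +kernel) ok0⟩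

end Helper55.Q2.T_TA_m1_1_m1_m1_G

namespace Helper55.Q2.T_TA_m1_1_m1_m1_Q1_0

noncomputable def M : Cx := mQ (-1) 1 1 1 1 0 (-1) 0

noncomputable def base : List Con :=
  [(false,[0,-1,0,1,1,0,0,-1]),
  (false,[0,1,0,1,0,0,0,1]),
  (false,[0,1,0,1,0,0,0,-1]),
  (false,[0,2,0,0,-1,0,0,1]),
  (false,[0,0,0,0,1,0,0,-1]),
  (false,[0,0,1,0,0,0,0,1]),
  (false,[0,0,1,0,0,0,0,-1]),
  (false,[0,0,0,0,0,0,-1,2]),
  (false,[0,0,0,0,0,0,1,-1]),
  (false,[0,0,0,0,0,1,-1,1]),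
  (false,[0,0,0,0,0,0,1,-1]),
  (false,[0,0,0,0,1,0,0,-2]),
  (false,[0,0,0,0,0,-1,0,1]),
  (true,[0,0,0,0,0,1]),
  (true,[1,-2,1]),
  (true,[0,1,0,1]),
  (true,[0,0,0,-1]),
  (true,[0,0,-2,0,1]),
  (true,[0,-2,0,0,1]),
  (true,[-1,0,1]),
  (true,[-1,1])]

noncomputable def t0 : Tr2 :=
  (.C [(2,0),(0,0),(10,1),(1,0),(0,0),(2,0)])

theorem ok0 : chk2 M t0 base = true := by decide +kernel

theorem closed : Closed false (-1) 1 1 1 1 0 (-1) 0 0 :=
  ⟨t0, base, chkQ_of (by decide +kernel) ok0⟩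

end Helper55.Q2.T_TA_m1_1_m1_m1_Q1_0

namespace Helper55.Q2.T_TA_m1_1_m1_m1_Q2_0

noncomputable def M : Cx := mQ (-1) 1 1 1 2 0 1 0

noncomputable def base : List Con :=
  [(false,[0,1,0,1,-1,0,0,2]),
  (false,[0,1,0,1,0,0,0,-2]),
  (false,[0,1,0,1,0,0,0,2]),
  (false,[0,0,0,0,1,0,0,-2]),
  (false,[0,2,0,0,-1,0,0,2]),
  (false,[0,0,1,0,0,0,0,-2]),
  (false,[0,0,1,0,0,0,0,2]),
  (false,[0,0,0,0,0,0,1,-1]),
  (false,[0,0,0,0,0,0,-1,2]),
  (false,[0,0,0,0,0,1,-1,1]),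
  (false,[0,0,0,0,0,0,1,-1]),
  (false,[0,0,0,0,1,0,0,-2]),
  (false,[0,0,0,0,0,-1,0,1]),
  (true,[0,0,0,0,0,1]),
  (true,[1,-2,1]),
  (true,[0,1,0,1]),
  (true,[0,0,0,-1]),
  (true,[0,0,-2,0,1]),
  (true,[0,-2,0,0,1]),
  (true,[-1,0,1]),
  (true,[-1,1])]

noncomputable def t0 : Tr2 :=
  (.C [(0,1),(4,1),(10,1),(0,0),(0,0)])

theorem ok0 : chk2 M t0 base = true := by decide +kernel

theorem closed : Closed false (-1) 1 1 1 2 0 1 0 0 :=
  ⟨t0, base, chkQ_of (by decide +kernel) ok0⟩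

end Helper55.Q2.T_TA_m1_1_m1_m1_Q2_0

namespace Helper55.Q2.T_TA_m1_1_m1_m1_Q2_1

noncomputable def M : Cx := mQ (-1) 1 1 1 2 1 1 0

noncomputable def base : List Con :=
  [(false,[0,1,0,1,-1,0,0,2]),
  (false,[0,1,0,1,1,0,0,-2]),
  (false,[0,1,0,1,-1,0,0,2]),
  (false,[0,0,0,0,1,0,0,-2]),
  (false,[0,2,0,0,-1,0,0,2]),
  (false,[0,0,1,0,1,0,0,-2]),
  (false,[0,0,1,0,-1,0,0,2]),
  (false,[0,0,0,0,0,0,1,-1]),
  (false,[0,0,0,0,0,0,-1,2]),
  (false,[0,0,0,0,0,1,-1,1]),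
  (false,[0,0,0,0,0,0,1,-1]),
  (false,[0,0,0,0,1,0,0,-2]),
  (false,[0,0,0,0,0,-1,0,1]),
  (true,[0,0,0,0,0,1]),
  (true,[1,-2,1]),
  (true,[0,1,0,1]),
  (true,[0,0,0,-1]),
  (true,[0,0,-2,0,1]),
  (true,[0,-2,0,0,1]),
  (true,[-1,0,1]),
  (true,[-1,1])]

open Helper81.PC in
noncomputable def t0n : Helper81.PC.Ten2 :=
  (nq 703801235958328335909646377059635822600 (nr
  261924189936847054168218170313783010485593323966976101553299437403660434692783200627309750508622149181695791618407701603782057540262925454740005707017414241614885097942226932225958928014703078528260424060855983232323060353429767268295109083383255450649668323781200920228526204957902422558196213724133784846089800816914354074484262500431106186839605781581440320071977264483884710936402204819456)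
  (nr
  2303909539450983225357184049337663640649948497871640845526845186961491999438162953347993222921615383328816822386932972216918445957066687942975759494873316732797117809844414951606351866723667817808308905929119550544515628476447600753004348415342841484307619875306613717563762381931759307434008596264930218688377034412599322310031013606111189885772924287320868811015361895238872629479866189135308797457203200))

noncomputable def t0 : Tr2 := Helper81.PC.toT2 t0n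

theorem ok0 : chk2 M t0 base = true :=
  Helper81.PC.chk2N_sound M t0n base (by decide +kernel)

theorem closed : Closed false (-1) 1 1 1 2 1 1 0 0 :=
  ⟨t0, base, chkQ_of (by decide +kernel) ok0⟩

end Helper55.Q2.T_TA_m1_1_m1_m1_Q2_1

namespace Helper55.Q2.T_TA_m1_1_m1_m1_Q3_m1

noncomputable def M : Cx := mQ (-1) 1 1 1 3 1 (-1) 0

noncomputable def base : List Con :=
  [(false,[0,1,0,0,1,0,0,1]),
  (false,[0,1,-1,1,1,0,0,-1]),
  (false,[0,1,1,1,-1,0,0,1]),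
  (false,[0,0,0,1,-1,0,0,-1]),
  (false,[0,2,0,-1,1,0,0,1]),
  (false,[0,0,0,0,1,0,0,-1]),
  (false,[0,0,2,0,-1,0,0,1]),
  (true,[0,0,0,0,0,-1,1]),
  (false,[0,0,0,0,0,1,-1,1]),
  (false,[0,0,0,0,0,1,-1,1]),
  (false,[0,0,0,0,0,0,1,-1]),
  (false,[0,0,0,0,1,0,0,-2]),
  (false,[0,0,0,0,0,-1,0,1]),
  (true,[0,0,0,0,0,1]),
  (true,[1,-2,1]),
  (true,[0,1,0,1]),
  (true,[0,0,0,-1]),
  (true,[0,0,-2,0,1]),
  (true,[0,-2,0,0,1]),
  (true,[-1,0,1]),
  (true,[-1,1])]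

noncomputable def t0 : Tr2 :=
  (.C [(3,0),(8,0),(0,0),(2,0),(1,0),(1,1)])

theorem ok0 : chk2 M t0 base = true := by decide +kernel

theorem closed : Closed false (-1) 1 1 1 3 1 (-1) 0 0 :=
  ⟨t0, base, chkQ_of (by decide +kernel) ok0⟩

end Helper55.Q2.T_TA_m1_1_m1_m1_Q3_m1

namespace Helper55.Q2.T_TA_m1_1_m1_m1_Q3_0

noncomputable def M : Cx := mQ (-1) 1 1 1 3 1 0 0

noncomputable def base : List Con :=
  [(false,[0,1,0,0,0,0,0,1]),
  (false,[0,1,-1,1,1,0,0,-1]),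
  (false,[0,1,1,1,-1,0,0,1]),
  (false,[0,0,0,1,0,0,0,-1]),
  (false,[0,2,0,-1,0,0,0,1]),
  (false,[0,0,0,0,1,0,0,-1]),
  (false,[0,0,2,0,-1,0,0,1]),
  (true,[0,0,0,0,0,-1,1]),
  (false,[0,0,0,0,0,1,-1,1]),
  (false,[0,0,0,0,0,1,-1,1]),
  (false,[0,0,0,0,0,0,1,-1]),
  (false,[0,0,0,0,1,0,0,-2]),
  (false,[0,0,0,0,0,-1,0,1]),
  (true,[0,0,0,0,0,1]),
  (true,[1,-2,1]),
  (true,[0,1,0,1]),
  (true,[0,0,0,-1]),
  (true,[0,0,-2,0,1]),
  (true,[0,-2,0,0,1]),
  (true,[-1,0,1]),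
  (true,[-1,1])]

noncomputable def t0 : Tr2 :=
  (.C [(3,0),(4,0),(1,0),(1,0),(3,0)])

theorem ok0 : chk2 M t0 base = true := by decide +kernel

theorem closed : Closed false (-1) 1 1 1 3 1 0 0 0 :=
  ⟨t0, base, chkQ_of (by decide +kernel) ok0⟩

end Helper55.Q2.T_TA_m1_1_m1_m1_Q3_0

namespace Helper55.Q2.T_TA_m1_1_m1_m1_Q3_1

noncomputable def M : Cx := mQ (-1) 1 1 1 3 1 1 0

noncomputable def base : List Con :=
  [(false,[0,1,0,0,-1,0,0,1]),
  (false,[0,1,-1,1,1,0,0,-1]),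
  (false,[0,1,1,1,-1,0,0,1]),
  (false,[0,0,0,1,1,0,0,-1]),
  (false,[0,2,0,-1,-1,0,0,1]),
  (false,[0,0,0,0,1,0,0,-1]),
  (false,[0,0,2,0,-1,0,0,1]),
  (true,[0,0,0,0,0,-1,1]),
  (false,[0,0,0,0,0,1,-1,1]),
  (false,[0,0,0,0,0,1,-1,1]),
  (false,[0,0,0,0,0,0,1,-1]),
  (false,[0,0,0,0,1,0,0,-2]),
  (false,[0,0,0,0,0,-1,0,1]),
  (true,[0,0,0,0,0,1]),
  (true,[1,-2,1]),
  (true,[0,1,0,1]),
  (true,[0,0,0,-1]),
  (true,[0,0,-2,0,1]),
  (true,[0,-2,0,0,1]),
  (true,[-1,0,1]),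
  (true,[-1,1])]

noncomputable def t0 : Tr2 :=
  (.C [(0,1),(10,0),(6,0)])

theorem ok0 : chk2 M t0 base = true := by decide +kernel

theorem closed : Closed false (-1) 1 1 1 3 1 1 0 0 :=
  ⟨t0, base, chkQ_of (by decide +kernel) ok0⟩

end Helper55.Q2.T_TA_m1_1_m1_m1_Q3_1

namespace Helper55.Q2.T_TA_m1_1_m1_1_G

noncomputable def M : Cx := mQ (-1) 1 0 1 0 0 0 0

noncomputable def base : List Con :=
  [(false,[0,0,0,1,0,0,0,1,1,0,-1]),
  (false,[0,1,0,1,0,0,0,1,0,0,-1]),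
  (false,[0,1,0,1,0,0,0,-1,0,0,1]),
  (false,[0,1,0,0,0,0,0,1,1,0,-1]),
  (false,[0,1,0,0,0,0,0,-1,-1,0,1]),
  (false,[0,0,1,0,0,0,0,1,0,0,-1]),
  (false,[0,0,1,0,0,0,0,-1,0,0,1]),
  (false,[0,0,0,0,0,0,0,0,0,1,-1]),
  (false,[0,0,0,0,0,0,0,0,0,0,1]),
  (false,[0,0,0,0,0,1,-1,0,0,1]),
  (false,[0,0,0,0,0,0,1,0,0,-1]),
  (false,[0,0,0,0,1,0,0,0,0,-2]),
  (false,[0,0,0,0,0,-1,0,0,0,1]),
  (true,[0,0,0,0,0,1]),
  (true,[1,-2,1]),
  (true,[0,1,0,1]),
  (true,[0,0,0,-1]),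
  (true,[0,0,-2,0,1]),
  (true,[0,-2,0,0,1]),
  (true,[-1,0,1]),
  (true,[-1,1])]

noncomputable def t0 : Tr2 :=
  (.Q [0,0,0,0,0,0,0,1,0,0,-1] (.p false [0,0,0,1] [] (⟨0,[(8,0)]⟩,⟨0,[(7,0)]⟩) .k 0 (⟨0,[]⟩,⟨0,
  []⟩) .k .k .k) (.R ⟨⟨4,true,false,false,[1,1,-1],[1,0,0,-1],[0,1,1],(⟨0,[]⟩,⟨0,[]⟩),(⟨0,[(8,0)]⟩,
  ⟨0,[(9,0)]⟩),⟨0,[]⟩,.k,.k,.k,.k,.k,.k,⟨false,0,⟨0,[(1,0),(1,0),(13,1)]⟩,⟨0,[(0,0),(4,0),(9,0),(2,
  0)]⟩⟩,⟨true,0,⟨0,[(7,0)]⟩,⟨0,[(0,0)]⟩⟩,⟨false,0,⟨0,[(17,0),(3,0)]⟩,⟨1,[(15,1),(0,1),(1,0),(0,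
  0)]⟩⟩,⟨true,0,⟨0,[(5,0),(11,0)]⟩,⟨0,[(1,0)]⟩⟩,⟨true,0,⟨0,[(21,0)]⟩,⟨0,[]⟩⟩,⟨false,1,⟨0,[(5,0),(13,
  0)]⟩,⟨0,[(1,0),(15,0)]⟩⟩,[]⟩,⟨0,[]⟩,.k,.k,.k⟩) (.R ⟨⟨4,true,false,true,[1,1,-1],[1,0,0,-1],[0,-1,
  1],(⟨0,[]⟩,⟨0,[]⟩),(⟨0,[(8,0)]⟩,⟨0,[(9,0)]⟩),⟨0,[]⟩,.k,.k,.k,.k,.k,.k,⟨true,0,⟨0,[(0,0),(0,0),(13,
  0),(1,0)]⟩,⟨0,[(2,0),(2,0),(11,0)]⟩⟩,⟨false,0,⟨0,[(0,0)]⟩,⟨0,[(6,0),(11,0)]⟩⟩,⟨true,0,⟨0,[(17,
  0)]⟩,⟨0,[(16,0)]⟩⟩,⟨false,0,⟨0,[(5,0),(11,0)]⟩,⟨0,[(1,0),(17,0)]⟩⟩,⟨false,1,⟨0,[(19,0)]⟩,⟨0,[(21,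
  0)]⟩⟩,⟨true,0,⟨0,[(5,0)]⟩,⟨0,[(1,0),(15,0)]⟩⟩,[]⟩,⟨0,[]⟩,.k,.k,.k⟩))

theorem ok0 : chk2 M t0 base = true := by decide +kernel

theorem closed : Closed false (-1) 1 0 1 0 0 0 0 0 :=
  ⟨t0, base, chkQ_of (by decide +kernel) ok0⟩

end Helper55.Q2.T_TA_m1_1_m1_1_G

namespace Helper55.Q2.T_TA_m1_1_m1_1_Q1_0

noncomputable def M : Cx := mQ (-1) 1 0 1 1 0 (-1) 0

noncomputable def base : List Con :=
  [(false,[0,1,0,1,-1,0,0,1]),
  (false,[0,1,0,1,0,0,0,1]),
  (false,[0,1,0,1,0,0,0,-1]),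
  (false,[0,2,0,0,-1,0,0,1]),
  (false,[0,0,0,0,1,0,0,-1]),
  (false,[0,0,1,0,0,0,0,1]),
  (false,[0,0,1,0,0,0,0,-1]),
  (false,[0,0,0,0,0,0,-1,2]),
  (false,[0,0,0,0,0,0,1,-1]),
  (false,[0,0,0,0,0,1,-1,1]),
  (false,[0,0,0,0,0,0,1,-1]),
  (false,[0,0,0,0,1,0,0,-2]),
  (false,[0,0,0,0,0,-1,0,1]),
  (true,[0,0,0,0,0,1]),
  (true,[1,-2,1]),
  (true,[0,1,0,1]),
  (true,[0,0,0,-1]),
  (true,[0,0,-2,0,1]),
  (true,[0,-2,0,0,1]),
  (true,[-1,0,1]),
  (true,[-1,1])]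

noncomputable def t0 : Tr2 :=
  (.C [(0,1),(10,0),(4,1),(1,0)])

theorem ok0 : chk2 M t0 base = true := by decide +kernel

theorem closed : Closed false (-1) 1 0 1 1 0 (-1) 0 0 :=
  ⟨t0, base, chkQ_of (by decide +kernel) ok0⟩

end Helper55.Q2.T_TA_m1_1_m1_1_Q1_0

namespace Helper55.Q2.T_TA_m1_1_m1_1_Q2_0

noncomputable def M : Cx := mQ (-1) 1 0 1 2 0 1 0

noncomputable def base : List Con :=
  [(false,[0,-1,0,1,1,0,0,-2]),
  (false,[0,1,0,1,0,0,0,-2]),
  (false,[0,1,0,1,0,0,0,2]),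
  (false,[0,0,0,0,1,0,0,-2]),
  (false,[0,2,0,0,-1,0,0,2]),
  (false,[0,0,1,0,0,0,0,-2]),
  (false,[0,0,1,0,0,0,0,2]),
  (false,[0,0,0,0,0,0,1,-1]),
  (false,[0,0,0,0,0,0,-1,2]),
  (false,[0,0,0,0,0,1,-1,1]),
  (false,[0,0,0,0,0,0,1,-1]),
  (false,[0,0,0,0,1,0,0,-2]),
  (false,[0,0,0,0,0,-1,0,1]),
  (true,[0,0,0,0,0,1]),
  (true,[1,-2,1]),
  (true,[0,1,0,1]),
  (true,[0,0,0,-1]),
  (true,[0,0,-2,0,1]),
  (true,[0,-2,0,0,1]),
  (true,[-1,0,1]),
  (true,[-1,1])]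

noncomputable def t0 : Tr2 :=
  (.C [(1,0),(2,0),(9,1),(1,0),(0,0),(2,0)])

theorem ok0 : chk2 M t0 base = true := by decide +kernel

theorem closed : Closed false (-1) 1 0 1 2 0 1 0 0 :=
  ⟨t0, base, chkQ_of (by decide +kernel) ok0⟩

end Helper55.Q2.T_TA_m1_1_m1_1_Q2_0

namespace Helper55.Q2.T_TA_m1_1_m1_1_Q2_1

noncomputable def M : Cx := mQ (-1) 1 0 1 2 1 1 0

noncomputable def base : List Con :=
  [(false,[0,-1,0,1,1,0,0,-2]),
  (false,[0,1,0,1,1,0,0,-2]),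
  (false,[0,1,0,1,-1,0,0,2]),
  (false,[0,0,0,0,1,0,0,-2]),
  (false,[0,2,0,0,-1,0,0,2]),
  (false,[0,0,1,0,1,0,0,-2]),
  (false,[0,0,1,0,-1,0,0,2]),
  (false,[0,0,0,0,0,0,1,-1]),
  (false,[0,0,0,0,0,0,-1,2]),
  (false,[0,0,0,0,0,1,-1,1]),
  (false,[0,0,0,0,0,0,1,-1]),
  (false,[0,0,0,0,1,0,0,-2]),
  (false,[0,0,0,0,0,-1,0,1]),
  (true,[0,0,0,0,0,1]),
  (true,[1,-2,1]),
  (true,[0,1,0,1]),
  (true,[0,0,0,-1]),
  (true,[0,0,-2,0,1]),
  (true,[0,-2,0,0,1]),
  (true,[-1,0,1]),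
  (true,[-1,1])]

noncomputable def t0 : Tr2 :=
  (.C [(0,0),(1,0),(13,1)])

theorem ok0 : chk2 M t0 base = true := by decide +kernel

theorem closed : Closed false (-1) 1 0 1 2 1 1 0 0 :=
  ⟨t0, base, chkQ_of (by decide +kernel) ok0⟩

end Helper55.Q2.T_TA_m1_1_m1_1_Q2_1

namespace Helper55.Q2.T_TA_m1_1_m1_1_Q3_m1

noncomputable def M : Cx := mQ (-1) 1 0 1 3 1 (-1) 0

noncomputable def base : List Con :=
  [(false,[0,-1,0,2,-1,0,0,-1]),
  (false,[0,1,-1,1,1,0,0,-1]),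
  (false,[0,1,1,1,-1,0,0,1]),
  (false,[0,0,0,1,-1,0,0,-1]),
  (false,[0,2,0,-1,1,0,0,1]),
  (false,[0,0,0,0,1,0,0,-1]),
  (false,[0,0,2,0,-1,0,0,1]),
  (true,[0,0,0,0,0,-1,1]),
  (false,[0,0,0,0,0,1,-1,1]),
  (false,[0,0,0,0,0,1,-1,1]),
  (false,[0,0,0,0,0,0,1,-1]),
  (false,[0,0,0,0,1,0,0,-2]),
  (false,[0,0,0,0,0,-1,0,1]),
  (true,[0,0,0,0,0,1]),
  (true,[1,-2,1]),
  (true,[0,1,0,1]),
  (true,[0,0,0,-1]),
  (true,[0,0,-2,0,1]),
  (true,[0,-2,0,0,1]),
  (true,[-1,0,1]),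
  (true,[-1,1])]

noncomputable def t0 : Tr2 :=
  (.C [(0,0),(11,0),(0,0),(2,1),(1,0),(1,2)])

theorem ok0 : chk2 M t0 base = true := by decide +kernel

theorem closed : Closed false (-1) 1 0 1 3 1 (-1) 0 0 :=
  ⟨t0, base, chkQ_of (by decide +kernel) ok0⟩

end Helper55.Q2.T_TA_m1_1_m1_1_Q3_m1

namespace Helper55.Q2.T_TA_m1_1_m1_1_Q3_0

noncomputable def M : Cx := mQ (-1) 1 0 1 3 1 0 0

noncomputable def base : List Con :=
  [(false,[0,-1,0,2,0,0,0,-1]),
  (false,[0,1,-1,1,1,0,0,-1]),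
  (false,[0,1,1,1,-1,0,0,1]),
  (false,[0,0,0,1,0,0,0,-1]),
  (false,[0,2,0,-1,0,0,0,1]),
  (false,[0,0,0,0,1,0,0,-1]),
  (false,[0,0,2,0,-1,0,0,1]),
  (true,[0,0,0,0,0,-1,1]),
  (false,[0,0,0,0,0,1,-1,1]),
  (false,[0,0,0,0,0,1,-1,1]),
  (false,[0,0,0,0,0,0,1,-1]),
  (false,[0,0,0,0,1,0,0,-2]),
  (false,[0,0,0,0,0,-1,0,1]),
  (true,[0,0,0,0,0,1]),
  (true,[1,-2,1]),
  (true,[0,1,0,1]),
  (true,[0,0,0,-1]),
  (true,[0,0,-2,0,1]),
  (true,[0,-2,0,0,1]),
  (true,[-1,0,1]),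
  (true,[-1,1])]

noncomputable def t0 : Tr2 :=
  (.C [(0,0),(11,0),(0,0),(2,1),(3,0)])

theorem ok0 : chk2 M t0 base = true := by decide +kernel

theorem closed : Closed false (-1) 1 0 1 3 1 0 0 0 :=
  ⟨t0, base, chkQ_of (by decide +kernel) ok0⟩

end Helper55.Q2.T_TA_m1_1_m1_1_Q3_0

namespace Helper55.Q2.T_TA_m1_1_m1_1_Q3_1

noncomputable def M : Cx := mQ (-1) 1 0 1 3 1 1 0

noncomputable def base : List Con :=
  [(false,[0,-1,0,2,1,0,0,-1]),
  (false,[0,1,-1,1,1,0,0,-1]),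
  (false,[0,1,1,1,-1,0,0,1]),
  (false,[0,0,0,1,1,0,0,-1]),
  (false,[0,2,0,-1,-1,0,0,1]),
  (false,[0,0,0,0,1,0,0,-1]),
  (false,[0,0,2,0,-1,0,0,1]),
  (true,[0,0,0,0,0,-1,1]),
  (false,[0,0,0,0,0,1,-1,1]),
  (false,[0,0,0,0,0,1,-1,1]),
  (false,[0,0,0,0,0,0,1,-1]),
  (false,[0,0,0,0,1,0,0,-2]),
  (false,[0,0,0,0,0,-1,0,1]),
  (true,[0,0,0,0,0,1]),
  (true,[1,-2,1]),
  (true,[0,1,0,1]),
  (true,[0,0,0,-1]),
  (true,[0,0,-2,0,1]),
  (true,[0,-2,0,0,1]),
  (true,[-1,0,1]),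
  (true,[-1,1])]

noncomputable def t0 : Tr2 :=
  (.R ⟨⟨2,true,false,false,[0,1],[1,1,-1],[0,0,1],(⟨0,[]⟩,⟨0,[]⟩),(⟨0,[(9,0)]⟩,⟨0,[(7,0)]⟩),⟨0,[]⟩,
  .k,.k,.k,.k,.k,.k,⟨true,0,⟨1,[(4,0),(0,0),(10,0)]⟩,⟨4,[(0,1),(1,0),(3,0),(7,1)]⟩⟩,⟨false,1,⟨1,
  [(11,0),(5,0)]⟩,⟨0,[(12,0),(0,0)]⟩⟩,⟨true,0,⟨0,[(16,0)]⟩,⟨0,[(15,0)]⟩⟩,⟨false,1,⟨1,[(11,0),(2,1),
  (2,0)]⟩,⟨0,[(4,0),(10,0),(2,0)]⟩⟩,⟨false,1,⟨0,[(18,0),(1,0)]⟩,⟨0,[]⟩⟩,⟨true,1,⟨3,[(0,1),(10,0),(6,
  0)]⟩,⟨0,[(4,0)]⟩⟩,[]⟩,⟨0,[]⟩,.k,.k,.k⟩)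

theorem ok0 : chk2 M t0 base = true := by decide +kernel

theorem closed : Closed false (-1) 1 0 1 3 1 1 0 0 :=
  ⟨t0, base, chkQ_of (by decide +kernel) ok0⟩

end Helper55.Q2.T_TA_m1_1_m1_1_Q3_1

namespace Helper55.Q2.T_TA_m1_1_1_m1_G

noncomputable def M : Cx := mQ 1 1 1 1 0 0 0 0

noncomputable def base : List Con :=
  [(false,[0,0,0,1,0,0,0,-1,-1,0,-1]),
  (false,[0,1,0,1,0,0,0,1,0,0,1]),
  (false,[0,1,0,1,0,0,0,-1,0,0,-1]),
  (false,[0,1,0,0,0,0,0,1,1,0,1]),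
  (false,[0,1,0,0,0,0,0,-1,-1,0,-1]),
  (false,[0,0,1,0,0,0,0,1,0,0,1]),
  (false,[0,0,1,0,0,0,0,-1,0,0,-1]),
  (false,[0,0,0,0,0,0,0,0,0,1,-1]),
  (false,[0,0,0,0,0,0,0,0,0,0,1]),
  (false,[0,0,0,0,0,1,-1,0,0,1]),
  (false,[0,0,0,0,0,0,1,0,0,-1]),
  (false,[0,0,0,0,1,0,0,0,0,-2]),
  (false,[0,0,0,0,0,-1,0,0,0,1]),
  (true,[0,0,0,0,0,1]),
  (true,[1,-2,1]),
  (true,[0,1,0,1]),
  (true,[0,0,0,-1]),
  (true,[0,0,-2,0,1]),
  (true,[0,-2,0,0,1]),
  (true,[-1,0,1]),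
  (true,[-1,1])]

open Helper81.PC in
noncomputable def t0n : Helper81.PC.Ten2 :=
  (nq 113081231673008961371025537635036784008237951382858725820681334267548925963 (nq
  47231301426959365961906775006331917904818077706 (nr
  1266587664083502667676009895481023767913717637623546361699246417304751053670658530161882670624892521940650439151589260504349780834413425749582019207108605130377556177250266691319465292926074688349226684656884077196112273706057647279643312231193993780794748165687796543734565296925396467497094832728106653995622207226294586087763278152129925815288653134205930845354316529490070347428686565849440248151626311987965722624)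
  (nr
  10612916649763925511314906460926708765419032608960358126558845132746315517008693044591767525989847783301576407120639541231243609422517190243147245663648972310961604734996173266555445543783239073542999037210114972303590795394416640))
  (nq 107840198101236009767726416894406472927982528330179769200216385912843 (nq
  47231301426959365961906775006331917904818077706 (nr
  382802632508691163815742795724558103773244879649232870908629112087028024111288201784768166303406616851620824436264194010217201648261087413239115695365164418654441758718920039152119898900478930796601369821218602951664613827162462782818599462451269591991701555310818883101891092698654713227568778618588901955659621544668539599146043400733763254669687277965472641272033453261295840921266099603907152548136723320778555171011303383328289449836544)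
  (nr
  10612916650116927256317812894968734079295416966696843135715443689360572267822487458016281857334269635709506261229396758552250194378026546675074104944138211535513258052447606566814541954413822047457820685288918584123591417403539456))
  (nr
  508732234231968733822423654775354741775678241980474389313359018681802346948190584197976199036875863653117771271707621011929418918012539320789810865806220449845803201695166430352559226792088821949826408879896266018348023541851121128570880)))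

noncomputable def t0 : Tr2 := Helper81.PC.toT2 t0n

theorem ok0 : chk2 M t0 base = true :=
  Helper81.PC.chk2N_sound M t0n base (by decide +kernel)

theorem closed : Closed false 1 1 1 1 0 0 0 0 0 :=
  ⟨t0, base, chkQ_of (by decide +kernel) ok0⟩

end Helper55.Q2.T_TA_m1_1_1_m1_G

namespace Helper55.Q2.T_TA_m1_1_1_m1_Q1_0

noncomputable def M : Cx := mQ 1 1 1 1 1 0 0 0

noncomputable def base : List Con :=
  [(false,[0,-1,0,1,0,0,0,1]),
  (false,[0,1,0,1,0,0,0,-1]),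
  (false,[0,1,0,1,0,0,0,1]),
  (false,[0,2,0,0,0,0,0,-1]),
  (false,[0,0,0,0,0,0,0,1]),
  (false,[0,0,1,0,0,0,0,-1]),
  (false,[0,0,1,0,0,0,0,1]),
  (false,[0,0,0,0,0,0,-1,2]),
  (false,[0,0,0,0,0,0,1,-1]),
  (false,[0,0,0,0,0,1,-1,1]),
  (false,[0,0,0,0,0,0,1,-1]),
  (false,[0,0,0,0,1,0,0,-2]),
  (false,[0,0,0,0,0,-1,0,1]),
  (true,[0,0,0,0,0,1]),
  (true,[1,-2,1]),
  (true,[0,1,0,1]),
  (true,[0,0,0,-1]),
  (true,[0,0,-2,0,1]),
  (true,[0,-2,0,0,1]),
  (true,[-1,0,1]),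
  (true,[-1,1])]

noncomputable def t0 : Tr2 :=
  (.C [(0,0),(0,0),(14,1)])

theorem ok0 : chk2 M t0 base = true := by decide +kernel

theorem closed : Closed false 1 1 1 1 1 0 0 0 0 :=
  ⟨t0, base, chkQ_of (by decide +kernel) ok0⟩

end Helper55.Q2.T_TA_m1_1_1_m1_Q1_0

namespace Helper55.Q2.T_TA_m1_1_1_m1_Q2_m1

noncomputable def M : Cx := mQ 1 1 1 1 2 (-1) 0 0

noncomputable def base : List Con :=
  [(false,[0,1,0,1,0,0,0,-2]),
  (false,[0,1,0,1,-1,0,0,2]),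
  (false,[0,1,0,1,1,0,0,-2]),
  (false,[0,0,0,0,0,0,0,2]),
  (false,[0,2,0,0,0,0,0,-2]),
  (false,[0,0,1,0,-1,0,0,2]),
  (false,[0,0,1,0,1,0,0,-2]),
  (false,[0,0,0,0,0,0,1,-1]),
  (false,[0,0,0,0,0,0,-1,2]),
  (false,[0,0,0,0,0,1,-1,1]),
  (false,[0,0,0,0,0,0,1,-1]),
  (false,[0,0,0,0,1,0,0,-2]),
  (false,[0,0,0,0,0,-1,0,1]),
  (true,[0,0,0,0,0,1]),
  (true,[1,-2,1]),
  (true,[0,1,0,1]),
  (true,[0,0,0,-1]),
  (true,[0,0,-2,0,1]),
  (true,[0,-2,0,0,1]),
  (true,[-1,0,1]),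
  (true,[-1,1])]

noncomputable def t0 : Tr2 :=
  (.C [(0,1),(4,1),(10,1),(0,0),(0,0)])

theorem ok0 : chk2 M t0 base = true := by decide +kernel

theorem closed : Closed false 1 1 1 1 2 (-1) 0 0 0 :=
  ⟨t0, base, chkQ_of (by decide +kernel) ok0⟩

end Helper55.Q2.T_TA_m1_1_1_m1_Q2_m1

namespace Helper55.Q2.T_TA_m1_1_1_m1_Q2_0

noncomputable def M : Cx := mQ 1 1 1 1 2 0 0 0

noncomputable def base : List Con :=
  [(false,[0,1,0,1,0,0,0,-2]),
  (false,[0,1,0,1,0,0,0,2]),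
  (false,[0,1,0,1,0,0,0,-2]),
  (false,[0,0,0,0,0,0,0,2]),
  (false,[0,2,0,0,0,0,0,-2]),
  (false,[0,0,1,0,0,0,0,2]),
  (false,[0,0,1,0,0,0,0,-2]),
  (false,[0,0,0,0,0,0,1,-1]),
  (false,[0,0,0,0,0,0,-1,2]),
  (false,[0,0,0,0,0,1,-1,1]),
  (false,[0,0,0,0,0,0,1,-1]),
  (false,[0,0,0,0,1,0,0,-2]),
  (false,[0,0,0,0,0,-1,0,1]),
  (true,[0,0,0,0,0,1]),
  (true,[1,-2,1]),
  (true,[0,1,0,1]),
  (true,[0,0,0,-1]),
  (true,[0,0,-2,0,1]),
  (true,[0,-2,0,0,1]),
  (true,[-1,0,1]),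
  (true,[-1,1])]

noncomputable def t0 : Tr2 :=
  (.R ⟨⟨4,true,false,true,[1,1,-1],[2,0,-1],[0,-1,1],(⟨0,[]⟩,⟨0,[]⟩),(⟨0,[(8,0)]⟩,⟨0,[(10,0)]⟩),⟨0,
  []⟩,.k,.k,.k,.k,.k,.k,⟨true,0,⟨3,[(5,0),(0,0),(7,1)]⟩,⟨0,[(20,0)]⟩⟩,⟨false,0,⟨1,[(3,0)]⟩,⟨1,[(11,
  0),(5,0)]⟩⟩,⟨true,0,⟨0,[(16,0)]⟩,⟨0,[(15,0)]⟩⟩,⟨false,0,⟨1,[(3,0),(12,1)]⟩,⟨1,[(0,0),(14,0),(2,
  1)]⟩⟩,⟨false,1,⟨0,[(18,0)]⟩,⟨0,[(20,0)]⟩⟩,⟨true,0,⟨1,[(3,0)]⟩,⟨1,[(4,0)]⟩⟩,[]⟩,⟨0,[]⟩,.k,.k,.k⟩)

theorem ok0 : chk2 M t0 base = true := by decide +kernel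

theorem closed : Closed false 1 1 1 1 2 0 0 0 0 :=
  ⟨t0, base, chkQ_of (by decide +kernel) ok0⟩

end Helper55.Q2.T_TA_m1_1_1_m1_Q2_0

namespace Helper55.Q2.T_TA_m1_1_1_m1_Q3_m1

noncomputable def M : Cx := mQ 1 1 1 1 3 0 (-1) 0

noncomputable def base : List Con :=
  [(false,[0,1,0,0,1,0,0,-1]),
  (false,[0,1,-1,1,0,0,0,1]),
  (false,[0,1,1,1,0,0,0,-1]),
  (false,[0,0,0,1,-1,0,0,1]),
  (false,[0,2,0,-1,1,0,0,-1]),
  (false,[0,0,0,0,0,0,0,1]),
  (false,[0,0,2,0,0,0,0,-1]),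
  (true,[0,0,0,0,0,-1,1]),
  (false,[0,0,0,0,0,1,-1,1]),
  (false,[0,0,0,0,0,1,-1,1]),
  (false,[0,0,0,0,0,0,1,-1]),
  (false,[0,0,0,0,1,0,0,-2]),
  (false,[0,0,0,0,0,-1,0,1]),
  (true,[0,0,0,0,0,1]),
  (true,[1,-2,1]),
  (true,[0,1,0,1]),
  (true,[0,0,0,-1]),
  (true,[0,0,-2,0,1]),
  (true,[0,-2,0,0,1]),
  (true,[-1,0,1]),
  (true,[-1,1])]

noncomputable def t0 : Tr2 :=
  (.C [(3,1),(7,0),(4,1),(1,0),(1,1)])

theorem ok0 : chk2 M t0 base = true := by decide +kernel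

theorem closed : Closed false 1 1 1 1 3 0 (-1) 0 0 :=
  ⟨t0, base, chkQ_of (by decide +kernel) ok0⟩

end Helper55.Q2.T_TA_m1_1_1_m1_Q3_m1

namespace Helper55.Q2.T_TA_m1_1_1_m1_Q3_0

noncomputable def M : Cx := mQ 1 1 1 1 3 0 0 0

noncomputable def base : List Con :=
  [(false,[0,1,0,0,0,0,0,-1]),
  (false,[0,1,-1,1,0,0,0,1]),
  (false,[0,1,1,1,0,0,0,-1]),
  (false,[0,0,0,1,0,0,0,1]),
  (false,[0,2,0,-1,0,0,0,-1]),
  (false,[0,0,0,0,0,0,0,1]),
  (false,[0,0,2,0,0,0,0,-1]),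
  (true,[0,0,0,0,0,-1,1]),
  (false,[0,0,0,0,0,1,-1,1]),
  (false,[0,0,0,0,0,1,-1,1]),
  (false,[0,0,0,0,0,0,1,-1]),
  (false,[0,0,0,0,1,0,0,-2]),
  (false,[0,0,0,0,0,-1,0,1]),
  (true,[0,0,0,0,0,1]),
  (true,[1,-2,1]),
  (true,[0,1,0,1]),
  (true,[0,0,0,-1]),
  (true,[0,0,-2,0,1]),
  (true,[0,-2,0,0,1]),
  (true,[-1,0,1]),
  (true,[-1,1])]

noncomputable def t0 : Tr2 :=
  (.C [(0,0),(0,0),(12,0),(1,0)])

theorem ok0 : chk2 M t0 base = true := by decide +kernel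

theorem closed : Closed false 1 1 1 1 3 0 0 0 0 :=
  ⟨t0, base, chkQ_of (by decide +kernel) ok0⟩

end Helper55.Q2.T_TA_m1_1_1_m1_Q3_0

namespace Helper55.Q2.T_TA_m1_1_1_m1_Q3_1

noncomputable def M : Cx := mQ 1 1 1 1 3 0 1 0

noncomputable def base : List Con :=
  [(false,[0,1,0,0,-1,0,0,-1]),
  (false,[0,1,-1,1,0,0,0,1]),
  (false,[0,1,1,1,0,0,0,-1]),
  (false,[0,0,0,1,1,0,0,1]),
  (false,[0,2,0,-1,-1,0,0,-1]),
  (false,[0,0,0,0,0,0,0,1]),
  (false,[0,0,2,0,0,0,0,-1]),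
  (true,[0,0,0,0,0,-1,1]),
  (false,[0,0,0,0,0,1,-1,1]),
  (false,[0,0,0,0,0,1,-1,1]),
  (false,[0,0,0,0,0,0,1,-1]),
  (false,[0,0,0,0,1,0,0,-2]),
  (false,[0,0,0,0,0,-1,0,1]),
  (true,[0,0,0,0,0,1]),
  (true,[1,-2,1]),
  (true,[0,1,0,1]),
  (true,[0,0,0,-1]),
  (true,[0,0,-2,0,1]),
  (true,[0,-2,0,0,1]),
  (true,[-1,0,1]),
  (true,[-1,1])]

noncomputable def t0 : Tr2 :=
  (.C [(0,0),(4,0),(12,0),(1,0)])

theorem ok0 : chk2 M t0 base = true := by decide +kernel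

theorem closed : Closed false 1 1 1 1 3 0 1 0 0 :=
  ⟨t0, base, chkQ_of (by decide +kernel) ok0⟩

end Helper55.Q2.T_TA_m1_1_1_m1_Q3_1

namespace Helper55.Q2.T_TA_m1_1_1_1_G

noncomputable def M : Cx := mQ 1 1 0 1 0 0 0 0

noncomputable def base : List Con :=
  [(false,[0,0,0,1,0,0,0,1,1,0,1]),
  (false,[0,1,0,1,0,0,0,1,0,0,1]),
  (false,[0,1,0,1,0,0,0,-1,0,0,-1]),
  (false,[0,1,0,0,0,0,0,1,1,0,1]),
  (false,[0,1,0,0,0,0,0,-1,-1,0,-1]),
  (false,[0,0,1,0,0,0,0,1,0,0,1]),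
  (false,[0,0,1,0,0,0,0,-1,0,0,-1]),
  (false,[0,0,0,0,0,0,0,0,0,1,-1]),
  (false,[0,0,0,0,0,0,0,0,0,0,1]),
  (false,[0,0,0,0,0,1,-1,0,0,1]),
  (false,[0,0,0,0,0,0,1,0,0,-1]),
  (false,[0,0,0,0,1,0,0,0,0,-2]),
  (false,[0,0,0,0,0,-1,0,0,0,1]),
  (true,[0,0,0,0,0,1]),
  (true,[1,-2,1]),
  (true,[0,1,0,1]),
  (true,[0,0,0,-1]),
  (true,[0,0,-2,0,1]),
  (true,[0,-2,0,0,1]),
  (true,[-1,0,1]),
  (true,[-1,1])]

noncomputable def t0 : Tr2 :=
  (.Q [0,0,0,0,0,0,0,1,0,0,1] (.p true [0,0,0,1] [] (⟨0,[(8,0)]⟩,⟨0,[(7,0)]⟩) .k 0 (⟨0,[]⟩,⟨0,[]⟩)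
  .k .k .k) (.R ⟨⟨4,true,false,false,[1,1,-1],[1,0,0,-1],[0,1,1],(⟨0,[]⟩,⟨0,[]⟩),(⟨0,[(8,0)]⟩,⟨0,
  [(9,0)]⟩),⟨0,[]⟩,.k,.k,.k,.k,.k,.k,⟨false,0,⟨0,[(1,0),(1,0),(13,1)]⟩,⟨0,[(0,0),(4,0),(9,0),(2,
  0)]⟩⟩,⟨true,0,⟨0,[(7,0)]⟩,⟨0,[(0,0)]⟩⟩,⟨false,0,⟨0,[(17,0),(3,0)]⟩,⟨1,[(15,1),(0,1),(1,0),(0,
  0)]⟩⟩,⟨true,0,⟨0,[(5,0),(11,0)]⟩,⟨0,[(1,0)]⟩⟩,⟨true,0,⟨0,[(21,0)]⟩,⟨0,[]⟩⟩,⟨false,1,⟨0,[(5,0),(13,
  0)]⟩,⟨0,[(1,0),(15,0)]⟩⟩,[]⟩,⟨0,[]⟩,.k,.k,.k⟩) (.R ⟨⟨4,true,false,true,[1,1,-1],[1,0,0,-1],[0,-1,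
  1],(⟨0,[]⟩,⟨0,[]⟩),(⟨0,[(8,0)]⟩,⟨0,[(9,0)]⟩),⟨0,[]⟩,.k,.k,.k,.k,.k,.k,⟨true,0,⟨0,[(0,0),(0,0),(13,
  0),(1,0)]⟩,⟨0,[(2,0),(2,0),(11,0)]⟩⟩,⟨false,0,⟨0,[(0,0)]⟩,⟨0,[(6,0),(11,0)]⟩⟩,⟨true,0,⟨0,[(17,
  0)]⟩,⟨0,[(16,0)]⟩⟩,⟨false,0,⟨0,[(5,0),(11,0)]⟩,⟨0,[(1,0),(17,0)]⟩⟩,⟨false,1,⟨0,[(19,0)]⟩,⟨0,[(21,
  0)]⟩⟩,⟨true,0,⟨0,[(5,0)]⟩,⟨0,[(1,0),(15,0)]⟩⟩,[]⟩,⟨0,[]⟩,.k,.k,.k⟩))

theorem ok0 : chk2 M t0 base = true := by decide +kernel

theorem closed : Closed false 1 1 0 1 0 0 0 0 0 :=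
  ⟨t0, base, chkQ_of (by decide +kernel) ok0⟩

end Helper55.Q2.T_TA_m1_1_1_1_G

namespace Helper55.Q2.T_TA_m1_1_1_1_Q1_0

noncomputable def M : Cx := mQ 1 1 0 1 1 0 0 0

noncomputable def base : List Con :=
  [(false,[0,1,0,1,0,0,0,-1]),
  (false,[0,1,0,1,0,0,0,-1]),
  (false,[0,1,0,1,0,0,0,1]),
  (false,[0,2,0,0,0,0,0,-1]),
  (false,[0,0,0,0,0,0,0,1]),
  (false,[0,0,1,0,0,0,0,-1]),
  (false,[0,0,1,0,0,0,0,1]),
  (false,[0,0,0,0,0,0,-1,2]),
  (false,[0,0,0,0,0,0,1,-1]),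
  (false,[0,0,0,0,0,1,-1,1]),
  (false,[0,0,0,0,0,0,1,-1]),
  (false,[0,0,0,0,1,0,0,-2]),
  (false,[0,0,0,0,0,-1,0,1]),
  (true,[0,0,0,0,0,1]),
  (true,[1,-2,1]),
  (true,[0,1,0,1]),
  (true,[0,0,0,-1]),
  (true,[0,0,-2,0,1]),
  (true,[0,-2,0,0,1]),
  (true,[-1,0,1]),
  (true,[-1,1])]

noncomputable def t0 : Tr2 :=
  (.R ⟨⟨4,true,false,true,[1,1,-1],[2,0,-1],[0,-1,1],(⟨0,[]⟩,⟨0,[]⟩),(⟨0,[(7,0)]⟩,⟨0,[(10,0)]⟩),⟨0,
  []⟩,.k,.k,.k,.k,.k,.k,⟨true,0,⟨3,[(5,0),(0,0),(7,1)]⟩,⟨0,[(20,0)]⟩⟩,⟨false,0,⟨0,[(4,0)]⟩,⟨1,[(11,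
  0),(5,0)]⟩⟩,⟨true,0,⟨0,[(16,0)]⟩,⟨0,[(15,0)]⟩⟩,⟨false,0,⟨0,[(4,0),(11,0)]⟩,⟨0,[(0,0),(17,0)]⟩⟩,
  ⟨false,1,⟨0,[(18,0)]⟩,⟨0,[(20,0)]⟩⟩,⟨true,0,⟨0,[(4,0)]⟩,⟨0,[(0,0),(15,0)]⟩⟩,[]⟩,⟨0,[]⟩,.k,.k,.k⟩)

theorem ok0 : chk2 M t0 base = true := by decide +kernel

theorem closed : Closed false 1 1 0 1 1 0 0 0 0 :=
  ⟨t0, base, chkQ_of (by decide +kernel) ok0⟩

end Helper55.Q2.T_TA_m1_1_1_1_Q1_0

namespace Helper55.Q2.T_TA_m1_1_1_1_Q2_m1

noncomputable def M : Cx := mQ 1 1 0 1 2 (-1) 0 0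

noncomputable def base : List Con :=
  [(false,[0,-1,0,1,0,0,0,2]),
  (false,[0,1,0,1,-1,0,0,2]),
  (false,[0,1,0,1,1,0,0,-2]),
  (false,[0,0,0,0,0,0,0,2]),
  (false,[0,2,0,0,0,0,0,-2]),
  (false,[0,0,1,0,-1,0,0,2]),
  (false,[0,0,1,0,1,0,0,-2]),
  (false,[0,0,0,0,0,0,1,-1]),
  (false,[0,0,0,0,0,0,-1,2]),
  (false,[0,0,0,0,0,1,-1,1]),
  (false,[0,0,0,0,0,0,1,-1]),
  (false,[0,0,0,0,1,0,0,-2]),
  (false,[0,0,0,0,0,-1,0,1]),
  (true,[0,0,0,0,0,1]),
  (true,[1,-2,1]),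
  (true,[0,1,0,1]),
  (true,[0,0,0,-1]),
  (true,[0,0,-2,0,1]),
  (true,[0,-2,0,0,1]),
  (true,[-1,0,1]),
  (true,[-1,1])]

noncomputable def t0 : Tr2 :=
  (.C [(1,0),(2,0),(9,1),(1,0),(0,0),(2,0)])

theorem ok0 : chk2 M t0 base = true := by decide +kernel

theorem closed : Closed false 1 1 0 1 2 (-1) 0 0 0 :=
  ⟨t0, base, chkQ_of (by decide +kernel) ok0⟩

end Helper55.Q2.T_TA_m1_1_1_1_Q2_m1

namespace Helper55.Q2.T_TA_m1_1_1_1_Q2_0

noncomputable def M : Cx := mQ 1 1 0 1 2 0 0 0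

noncomputable def base : List Con :=
  [(false,[0,-1,0,1,0,0,0,2]),
  (false,[0,1,0,1,0,0,0,2]),
  (false,[0,1,0,1,0,0,0,-2]),
  (false,[0,0,0,0,0,0,0,2]),
  (false,[0,2,0,0,0,0,0,-2]),
  (false,[0,0,1,0,0,0,0,2]),
  (false,[0,0,1,0,0,0,0,-2]),
  (false,[0,0,0,0,0,0,1,-1]),
  (false,[0,0,0,0,0,0,-1,2]),
  (false,[0,0,0,0,0,1,-1,1]),
  (false,[0,0,0,0,0,0,1,-1]),
  (false,[0,0,0,0,1,0,0,-2]),
  (false,[0,0,0,0,0,-1,0,1]),
  (true,[0,0,0,0,0,1]),
  (true,[1,-2,1]),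
  (true,[0,1,0,1]),
  (true,[0,0,0,-1]),
  (true,[0,0,-2,0,1]),
  (true,[0,-2,0,0,1]),
  (true,[-1,0,1]),
  (true,[-1,1])]

noncomputable def t0 : Tr2 :=
  (.C [(0,0),(1,0),(13,1)])

theorem ok0 : chk2 M t0 base = true := by decide +kernel

theorem closed : Closed false 1 1 0 1 2 0 0 0 0 :=
  ⟨t0, base, chkQ_of (by decide +kernel) ok0⟩

end Helper55.Q2.T_TA_m1_1_1_1_Q2_0

namespace Helper55.Q2.T_TA_m1_1_1_1_Q3_m1

noncomputable def M : Cx := mQ 1 1 0 1 3 0 (-1) 0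

noncomputable def base : List Con :=
  [(false,[0,-1,0,2,-1,0,0,1]),
  (false,[0,1,-1,1,0,0,0,1]),
  (false,[0,1,1,1,0,0,0,-1]),
  (false,[0,0,0,1,-1,0,0,1]),
  (false,[0,2,0,-1,1,0,0,-1]),
  (false,[0,0,0,0,0,0,0,1]),
  (false,[0,0,2,0,0,0,0,-1]),
  (true,[0,0,0,0,0,-1,1]),
  (false,[0,0,0,0,0,1,-1,1]),
  (false,[0,0,0,0,0,1,-1,1]),
  (false,[0,0,0,0,0,0,1,-1]),
  (false,[0,0,0,0,1,0,0,-2]),
  (false,[0,0,0,0,0,-1,0,1]),
  (true,[0,0,0,0,0,1]),
  (true,[1,-2,1]),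
  (true,[0,1,0,1]),
  (true,[0,0,0,-1]),
  (true,[0,0,-2,0,1]),
  (true,[0,-2,0,0,1]),
  (true,[-1,0,1]),
  (true,[-1,1])]

noncomputable def t0 : Tr2 :=
  (.C [(0,1),(10,0),(4,3),(1,0),(1,3)])

theorem ok0 : chk2 M t0 base = true := by decide +kernel

theorem closed : Closed false 1 1 0 1 3 0 (-1) 0 0 :=
  ⟨t0, base, chkQ_of (by decide +kernel) ok0⟩

end Helper55.Q2.T_TA_m1_1_1_1_Q3_m1

namespace Helper55.Q2.T_TA_m1_1_1_1_Q3_0

noncomputable def M : Cx := mQ 1 1 0 1 3 0 0 0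

noncomputable def base : List Con :=
  [(false,[0,-1,0,2,0,0,0,1]),
  (false,[0,1,-1,1,0,0,0,1]),
  (false,[0,1,1,1,0,0,0,-1]),
  (false,[0,0,0,1,0,0,0,1]),
  (false,[0,2,0,-1,0,0,0,-1]),
  (false,[0,0,0,0,0,0,0,1]),
  (false,[0,0,2,0,0,0,0,-1]),
  (true,[0,0,0,0,0,-1,1]),
  (false,[0,0,0,0,0,1,-1,1]),
  (false,[0,0,0,0,0,1,-1,1]),
  (false,[0,0,0,0,0,0,1,-1]),
  (false,[0,0,0,0,1,0,0,-2]),
  (false,[0,0,0,0,0,-1,0,1]),
  (true,[0,0,0,0,0,1]),
  (true,[1,-2,1]),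
  (true,[0,1,0,1]),
  (true,[0,0,0,-1]),
  (true,[0,0,-2,0,1]),
  (true,[0,-2,0,0,1]),
  (true,[-1,0,1]),
  (true,[-1,1])]

noncomputable def t0 : Tr2 :=
  (.Q [0,0,-1,0,0,0,0,1] (.pp false [-1,1,0]) (.R ⟨⟨2,true,false,false,[0,1],[1,1,-1],[0,0,1],(⟨0,
  []⟩,⟨0,[]⟩),(⟨0,[(10,0)]⟩,⟨0,[(8,0)]⟩),⟨0,[]⟩,.k,.k,.k,.k,.k,.k,⟨true,0,⟨1,[(5,0),(0,0),(10,0)]⟩,
  ⟨4,[(1,1),(1,0),(3,0),(7,1)]⟩⟩,⟨false,0,⟨0,[(0,0)]⟩,⟨1,[(12,0),(6,0),(1,1)]⟩⟩,⟨true,0,⟨0,[(17,
  0)]⟩,⟨0,[(16,0)]⟩⟩,⟨false,0,⟨0,[(0,0),(14,0)]⟩,⟨1,[(12,0),(6,0),(1,3)]⟩⟩,⟨false,1,⟨0,[(19,0),(1,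
  0)]⟩,⟨0,[]⟩⟩,⟨true,0,⟨3,[(0,0),(0,1),(4,0),(8,0)]⟩,⟨0,[(5,0)]⟩⟩,[]⟩,⟨0,[]⟩,.k,.k,.k⟩) (.R ⟨⟨4,
  true,false,true,[1,1,-1],[0,-1,1],[0,-1,1],(⟨0,[]⟩,⟨0,[]⟩),(⟨0,[(8,0)]⟩,⟨0,[(10,0)]⟩),⟨0,[]⟩,.k,
  .k,.k,(.r 0 ⟨4,[(1,3),(1,1),(3,1),(7,3)]⟩ ⟨0,[(5,0),(0,0),(10,0),(0,0)]⟩),.k,.k,⟨true,0,⟨4,[(1,1),
  (1,0),(3,0),(7,6)]⟩,⟨0,[(2,0),(2,0),(11,0)]⟩⟩,⟨false,0,⟨0,[(0,0)]⟩,⟨0,[(6,0),(11,0)]⟩⟩,⟨true,0,⟨0,
  [(17,0)]⟩,⟨0,[(16,0)]⟩⟩,⟨false,0,⟨0,[(5,0),(11,0)]⟩,⟨0,[(1,0),(17,0)]⟩⟩,⟨false,1,⟨0,[(19,0)]⟩,⟨0,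
  [(21,0)]⟩⟩,⟨true,0,⟨0,[(5,0)]⟩,⟨0,[(1,0),(15,0)]⟩⟩,[]⟩,⟨0,[]⟩,.k,.k,.k⟩))

theorem ok0 : chk2 M t0 base = true := by decide +kernel

theorem closed : Closed false 1 1 0 1 3 0 0 0 0 :=
  ⟨t0, base, chkQ_of (by decide +kernel) ok0⟩

end Helper55.Q2.T_TA_m1_1_1_1_Q3_0
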