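import Pool.Agent.Helper81.PC.Snd2c
import Pool.Agent.Helper55.Q2.Cls

set_option autoImplicit false
set_option linter.all false

open Helper11.CT Helper55.Q2

namespace Helper55.Q2.T_TA_m1_1_1_1_Q3_1

noncomputable def M : Cx := mQ 1 1 0 1 3 0 1 0

noncomputable def base : List Con :=
  [(false,[0,-1,0,2,1,0,0,1]),
  (false,[0,1,-1,1,0,0,0,1]),
  (false,[0,1,1,1,0,0,0,-1]),
  (false,[0,0,0,1,1,0,0,1]),
  (false,[0,2,0,-1,-1,0,0,-1]),
  (false,[0,0,0,0,0,0,0,1]),
  (false,[0,0,2,0,0,0,0,-1]),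
  (true,[0,0,0,0,0,-1,1]),
  (false,[0,0,0,0,0,1,-1,1]),
  (false,[0,0,0,0,0,1,-1,1]),
  (false,[0,0,0,0,0,0,1,-1]),
  (false,[0,0,0,0,1,0,0,-2]),
  (false,[0,0,0,0,0,-1,0,1]),
  (true,[0,0,0,0,0,1]),
  (true,[1,-2,1]),
  (true,[0,1,0,1]),
  (true,[0,0,0,-1]),
  (true,[0,0,-2,0,1]),
  (true,[0,-2,0,0,1]),
  (true,[-1,0,1]),
  (true,[-1,1])]

noncomputable def t0 : Tr2 :=
  (.C [(1,0),(2,0),(9,0),(3,0),(1,0)])

theorem ok0 : chk2 M t0 base = true := by decide +kernel

theorem closed : Closed false 1 1 0 1 3 0 1 0 0 :=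
  ⟨t0, base, chkQ_of (by decide +kernel) ok0⟩

end Helper55.Q2.T_TA_m1_1_1_1_Q3_1

namespace Helper55.Q2.T_TA_1_m1_m1_m1_G

noncomputable def M : Cx := mQ (-1) (-1) 1 1 0 0 0 0

noncomputable def base : List Con :=
  [(false,[0,0,0,-1,0,0,0,-1,-1,0,1]),
  (false,[0,1,0,-1,0,0,0,1,0,0,-1]),
  (false,[0,1,0,-1,0,0,0,-1,0,0,1]),
  (false,[0,1,0,0,0,0,0,1,1,0,-1]),
  (false,[0,1,0,0,0,0,0,-1,-1,0,1]),
  (false,[0,0,1,0,0,0,0,1,0,0,-1]),
  (false,[0,0,1,0,0,0,0,-1,0,0,1]),
  (false,[0,0,0,0,0,0,0,0,0,1,-1]),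
  (false,[0,0,0,0,0,0,0,0,0,0,1]),
  (false,[0,0,0,0,0,1,-1,0,0,1]),
  (false,[0,0,0,0,0,0,1,0,0,-1]),
  (false,[0,0,0,0,1,0,0,0,0,-2]),
  (false,[0,0,0,0,0,-1,0,0,0,1]),
  (true,[0,0,0,0,0,1]),
  (true,[1,-2,1]),
  (true,[0,1,0,-1]),
  (true,[0,0,0,1]),
  (true,[0,0,-2,0,1]),
  (true,[0,-2,0,0,1]),
  (true,[-1,0,1]),
  (true,[-1,1])]

noncomputable def t0 : Tr2 :=
  (.Q [0,0,0,0,0,0,0,1,0,0,-1] (.p false [0,0,0,1] [] (⟨0,[(8,0)]⟩,⟨0,[(7,0)]⟩) .k 0 (⟨0,[]⟩,⟨0,
  []⟩) .k .k .k) (.R ⟨⟨4,true,false,false,[1,1,-1],[1,0,0,-1],[1,2,1],(⟨0,[]⟩,⟨0,[]⟩),(⟨0,[(8,0)]⟩,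
  ⟨0,[(9,0)]⟩),⟨0,[]⟩,.k,.k,.k,.k,.k,.k,⟨false,0,⟨0,[(3,0),(0,0),(12,0)]⟩,⟨0,[(0,0),(0,0),(13,0),(1,
  0),(0,0)]⟩⟩,⟨true,0,⟨0,[(7,0)]⟩,⟨0,[(0,0)]⟩⟩,⟨true,0,⟨0,[(16,0)]⟩,⟨0,[(17,0)]⟩⟩,⟨false,1,⟨0,[(1,
  0),(17,0)]⟩,⟨0,[(4,0),(12,0)]⟩⟩,⟨false,0,⟨0,[(21,0)]⟩,⟨0,[(19,0)]⟩⟩,⟨true,0,⟨0,[(1,0),(15,0)]⟩,⟨0,
  [(4,0)]⟩⟩,[]⟩,⟨0,[]⟩,.k,.k,.k⟩) (.R ⟨⟨4,true,false,true,[1,1,-1],[1,0,0,-1],[1,0,1],(⟨0,[]⟩,⟨0,
  []⟩),(⟨0,[(8,0)]⟩,⟨0,[(9,0)]⟩),⟨0,[]⟩,.k,.k,.k,.k,.k,.k,⟨true,0,⟨0,[(0,0),(3,0),(10,0)]⟩,⟨0,[(1,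
  0),(0,0),(14,1)]⟩⟩,⟨false,0,⟨0,[(0,0)]⟩,⟨0,[(6,0),(11,0)]⟩⟩,⟨false,1,⟨1,[(15,1),(0,1),(1,0),(0,
  0)]⟩,⟨0,[(17,0),(3,0)]⟩⟩,⟨true,0,⟨0,[(1,0)]⟩,⟨0,[(4,0),(12,0)]⟩⟩,⟨true,0,⟨0,[]⟩,⟨0,[(21,0)]⟩⟩,
  ⟨false,0,⟨0,[(1,0),(15,0)]⟩,⟨0,[(4,0),(14,0)]⟩⟩,[]⟩,⟨0,[]⟩,.k,.k,.k⟩))

theorem ok0 : chk2 M t0 base = true := by decide +kernel

theorem closed : Closed true (-1) (-1) 1 1 0 0 0 0 0 :=
  ⟨t0, base, chkQ_of (by decide +kernel) ok0⟩

end Helper55.Q2.T_TA_1_m1_m1_m1_G

namespace Helper55.Q2.T_TA_1_m1_m1_m1_Q1_0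

noncomputable def M : Cx := mQ (-1) (-1) 1 1 1 0 0 0

noncomputable def base : List Con :=
  [(false,[0,1,0,-1,0,0,0,-1]),
  (false,[0,1,0,-1,0,0,0,1]),
  (false,[0,1,0,-1,0,0,0,-1]),
  (false,[0,0,0,0,0,0,0,1]),
  (false,[0,2,0,0,0,0,0,-1]),
  (false,[0,0,1,0,0,0,0,1]),
  (false,[0,0,1,0,0,0,0,-1]),
  (false,[0,0,0,0,0,0,-1,2]),
  (false,[0,0,0,0,0,0,1,-1]),
  (false,[0,0,0,0,0,1,-1,1]),
  (false,[0,0,0,0,0,0,1,-1]),
  (false,[0,0,0,0,1,0,0,-2]),
  (false,[0,0,0,0,0,-1,0,1]),
  (true,[0,0,0,0,0,1]),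
  (true,[1,-2,1]),
  (true,[0,1,0,-1]),
  (true,[0,0,0,1]),
  (true,[0,0,-2,0,1]),
  (true,[0,-2,0,0,1]),
  (true,[-1,0,1]),
  (true,[-1,1])]

noncomputable def t0 : Tr2 :=
  (.R ⟨⟨4,true,false,false,[1,1,-1],[2,0,-1],[1,2,1],(⟨0,[]⟩,⟨0,[]⟩),(⟨0,[(7,0)]⟩,⟨0,[(10,0)]⟩),⟨0,
  []⟩,.k,.k,.k,.k,.k,.k,⟨false,0,⟨0,[(20,0)]⟩,⟨1,[(17,0),(0,0)]⟩⟩,⟨true,0,⟨0,[(6,0)]⟩,⟨0,[(3,0)]⟩⟩,
  ⟨true,0,⟨0,[(15,0)]⟩,⟨0,[(16,0)]⟩⟩,⟨false,1,⟨0,[(0,0),(17,0)]⟩,⟨0,[(3,0),(12,0)]⟩⟩,⟨false,0,⟨0,
  [(20,0)]⟩,⟨0,[(18,0)]⟩⟩,⟨true,0,⟨0,[(0,0),(15,0)]⟩,⟨0,[(3,0)]⟩⟩,[]⟩,⟨0,[]⟩,.k,.k,.k⟩)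

theorem ok0 : chk2 M t0 base = true := by decide +kernel

theorem closed : Closed true (-1) (-1) 1 1 1 0 0 0 0 :=
  ⟨t0, base, chkQ_of (by decide +kernel) ok0⟩

end Helper55.Q2.T_TA_1_m1_m1_m1_Q1_0

namespace Helper55.Q2.T_TA_1_m1_m1_m1_Q2_0

noncomputable def M : Cx := mQ (-1) (-1) 1 1 2 0 0 0

noncomputable def base : List Con :=
  [(false,[0,-1,0,-1,0,0,0,2]),
  (false,[0,1,0,-1,0,0,0,-2]),
  (false,[0,1,0,-1,0,0,0,2]),
  (false,[0,2,0,0,0,0,0,-2]),
  (false,[0,0,0,0,0,0,0,2]),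
  (false,[0,0,1,0,0,0,0,-2]),
  (false,[0,0,1,0,0,0,0,2]),
  (false,[0,0,0,0,0,0,1,-1]),
  (false,[0,0,0,0,0,0,-1,2]),
  (false,[0,0,0,0,0,1,-1,1]),
  (false,[0,0,0,0,0,0,1,-1]),
  (false,[0,0,0,0,1,0,0,-2]),
  (false,[0,0,0,0,0,-1,0,1]),
  (true,[0,0,0,0,0,1]),
  (true,[1,-2,1]),
  (true,[0,1,0,-1]),
  (true,[0,0,0,1]),
  (true,[0,0,-2,0,1]),
  (true,[0,-2,0,0,1]),
  (true,[-1,0,1]),
  (true,[-1,1])]

noncomputable def t0 : Tr2 :=
  (.C [(0,0),(0,0),(14,1)])

theorem ok0 : chk2 M t0 base = true := by decide +kernel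

theorem closed : Closed true (-1) (-1) 1 1 2 0 0 0 0 :=
  ⟨t0, base, chkQ_of (by decide +kernel) ok0⟩

end Helper55.Q2.T_TA_1_m1_m1_m1_Q2_0

namespace Helper55.Q2.T_TA_1_m1_m1_m1_Q2_1

noncomputable def M : Cx := mQ (-1) (-1) 1 1 2 1 0 0

noncomputable def base : List Con :=
  [(false,[0,-1,0,-1,0,0,0,2]),
  (false,[0,1,0,-1,1,0,0,-2]),
  (false,[0,1,0,-1,-1,0,0,2]),
  (false,[0,2,0,0,0,0,0,-2]),
  (false,[0,0,0,0,0,0,0,2]),
  (false,[0,0,1,0,1,0,0,-2]),
  (false,[0,0,1,0,-1,0,0,2]),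
  (false,[0,0,0,0,0,0,1,-1]),
  (false,[0,0,0,0,0,0,-1,2]),
  (false,[0,0,0,0,0,1,-1,1]),
  (false,[0,0,0,0,0,0,1,-1]),
  (false,[0,0,0,0,1,0,0,-2]),
  (false,[0,0,0,0,0,-1,0,1]),
  (true,[0,0,0,0,0,1]),
  (true,[1,-2,1]),
  (true,[0,1,0,-1]),
  (true,[0,0,0,1]),
  (true,[0,0,-2,0,1]),
  (true,[0,-2,0,0,1]),
  (true,[-1,0,1]),
  (true,[-1,1])]

noncomputable def t0 : Tr2 :=
  (.C [(2,0),(0,0),(10,1),(1,0),(0,0),(2,0)])

theorem ok0 : chk2 M t0 base = true := by decide +kernel

theorem closed : Closed true (-1) (-1) 1 1 2 1 0 0 0 :=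
  ⟨t0, base, chkQ_of (by decide +kernel) ok0⟩

end Helper55.Q2.T_TA_1_m1_m1_m1_Q2_1

namespace Helper55.Q2.T_TA_1_m1_m1_m1_Q3_m1

noncomputable def M : Cx := mQ (-1) (-1) 1 1 3 1 (-1) 0

noncomputable def base : List Con :=
  [(false,[0,-1,0,-2,1,0,0,1]),
  (false,[0,1,-1,-1,1,0,0,-1]),
  (false,[0,1,1,-1,-1,0,0,1]),
  (false,[0,2,0,1,-1,0,0,-1]),
  (false,[0,0,0,-1,1,0,0,1]),
  (false,[0,0,0,0,1,0,0,-1]),
  (false,[0,0,2,0,-1,0,0,1]),
  (true,[0,0,0,0,0,-1,1]),
  (false,[0,0,0,0,0,1,-1,1]),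
  (false,[0,0,0,0,0,1,-1,1]),
  (false,[0,0,0,0,0,0,1,-1]),
  (false,[0,0,0,0,1,0,0,-2]),
  (false,[0,0,0,0,0,-1,0,1]),
  (true,[0,0,0,0,0,1]),
  (true,[1,-2,1]),
  (true,[0,1,0,-1]),
  (true,[0,0,0,1]),
  (true,[0,0,-2,0,1]),
  (true,[0,-2,0,0,1]),
  (true,[-1,0,1]),
  (true,[-1,1])]

noncomputable def t0 : Tr2 :=
  (.C [(2,1),(0,1),(13,0),(0,2)])

theorem ok0 : chk2 M t0 base = true := by decide +kernel

theorem closed : Closed true (-1) (-1) 1 1 3 1 (-1) 0 0 :=
  ⟨t0, base, chkQ_of (by decide +kernel) ok0⟩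

end Helper55.Q2.T_TA_1_m1_m1_m1_Q3_m1

namespace Helper55.Q2.T_TA_1_m1_m1_m1_Q3_0

noncomputable def M : Cx := mQ (-1) (-1) 1 1 3 1 0 0

noncomputable def base : List Con :=
  [(false,[0,-1,0,-2,0,0,0,1]),
  (false,[0,1,-1,-1,1,0,0,-1]),
  (false,[0,1,1,-1,-1,0,0,1]),
  (false,[0,2,0,1,0,0,0,-1]),
  (false,[0,0,0,-1,0,0,0,1]),
  (false,[0,0,0,0,1,0,0,-1]),
  (false,[0,0,2,0,-1,0,0,1]),
  (true,[0,0,0,0,0,-1,1]),
  (false,[0,0,0,0,0,1,-1,1]),
  (false,[0,0,0,0,0,1,-1,1]),
  (false,[0,0,0,0,0,0,1,-1]),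
  (false,[0,0,0,0,1,0,0,-2]),
  (false,[0,0,0,0,0,-1,0,1]),
  (true,[0,0,0,0,0,1]),
  (true,[1,-2,1]),
  (true,[0,1,0,-1]),
  (true,[0,0,0,1]),
  (true,[0,0,-2,0,1]),
  (true,[0,-2,0,0,1]),
  (true,[-1,0,1]),
  (true,[-1,1])]

noncomputable def t0 : Tr2 :=
  (.R ⟨⟨4,true,false,false,[1,1,-1],[0,-1,1],[1,2,1],(⟨0,[]⟩,⟨0,[]⟩),(⟨0,[(7,0)]⟩,⟨0,[(9,0)]⟩),⟨0,
  []⟩,.k,.k,.k,(.r 1 ⟨0,[(3,0),(2,0),(9,0)]⟩ ⟨1,[(0,1),(10,0),(5,1),(0,0)]⟩),.k,.k,⟨false,(-1),⟨0,
  [(2,0),(0,0),(12,0)]⟩,⟨3,[(0,1),(10,0),(2,3),(2,5),(0,0)]⟩⟩,⟨true,(-1),⟨0,[(6,0)]⟩,⟨1,[(11,0),(5,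
  0)]⟩⟩,⟨true,0,⟨0,[(15,0)]⟩,⟨0,[(16,0)]⟩⟩,⟨false,1,⟨0,[(0,0),(17,0)]⟩,⟨0,[(3,0),(12,0)]⟩⟩,⟨false,0,
  ⟨0,[(20,0)]⟩,⟨0,[(18,0)]⟩⟩,⟨true,0,⟨0,[(0,0),(15,0)]⟩,⟨0,[(3,0)]⟩⟩,[]⟩,⟨0,[]⟩,.k,.k,.k⟩)

theorem ok0 : chk2 M t0 base = true := by decide +kernel

theorem closed : Closed true (-1) (-1) 1 1 3 1 0 0 0 :=
  ⟨t0, base, chkQ_of (by decide +kernel) ok0⟩

end Helper55.Q2.T_TA_1_m1_m1_m1_Q3_0

namespace Helper55.Q2.T_TA_1_m1_m1_m1_Q3_1

noncomputable def M : Cx := mQ (-1) (-1) 1 1 3 1 1 0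

noncomputable def base : List Con :=
  [(false,[0,-1,0,-2,-1,0,0,1]),
  (false,[0,1,-1,-1,1,0,0,-1]),
  (false,[0,1,1,-1,-1,0,0,1]),
  (false,[0,2,0,1,1,0,0,-1]),
  (false,[0,0,0,-1,-1,0,0,1]),
  (false,[0,0,0,0,1,0,0,-1]),
  (false,[0,0,2,0,-1,0,0,1]),
  (true,[0,0,0,0,0,-1,1]),
  (false,[0,0,0,0,0,1,-1,1]),
  (false,[0,0,0,0,0,1,-1,1]),
  (false,[0,0,0,0,0,0,1,-1]),
  (false,[0,0,0,0,1,0,0,-2]),
  (false,[0,0,0,0,0,-1,0,1]),
  (true,[0,0,0,0,0,1]),
  (true,[1,-2,1]),
  (true,[0,1,0,-1]),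
  (true,[0,0,0,1]),
  (true,[0,0,-2,0,1]),
  (true,[0,-2,0,0,1]),
  (true,[-1,0,1]),
  (true,[-1,1])]

noncomputable def t0 : Tr2 :=
  (.C [(0,1),(10,0),(4,3),(1,0),(1,3)])

theorem ok0 : chk2 M t0 base = true := by decide +kernel

theorem closed : Closed true (-1) (-1) 1 1 3 1 1 0 0 :=
  ⟨t0, base, chkQ_of (by decide +kernel) ok0⟩

end Helper55.Q2.T_TA_1_m1_m1_m1_Q3_1

namespace Helper55.Q2.T_TA_1_m1_m1_1_G

noncomputable def M : Cx := mQ (-1) (-1) 0 1 0 0 0 0

noncomputable def base : List Con :=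
  [(false,[0,0,0,-1,0,0,0,1,1,0,-1]),
  (false,[0,1,0,-1,0,0,0,1,0,0,-1]),
  (false,[0,1,0,-1,0,0,0,-1,0,0,1]),
  (false,[0,1,0,0,0,0,0,1,1,0,-1]),
  (false,[0,1,0,0,0,0,0,-1,-1,0,1]),
  (false,[0,0,1,0,0,0,0,1,0,0,-1]),
  (false,[0,0,1,0,0,0,0,-1,0,0,1]),
  (false,[0,0,0,0,0,0,0,0,0,1,-1]),
  (false,[0,0,0,0,0,0,0,0,0,0,1]),
  (false,[0,0,0,0,0,1,-1,0,0,1]),
  (false,[0,0,0,0,0,0,1,0,0,-1]),
  (false,[0,0,0,0,1,0,0,0,0,-2]),
  (false,[0,0,0,0,0,-1,0,0,0,1]),
  (true,[0,0,0,0,0,1]),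
  (true,[1,-2,1]),
  (true,[0,1,0,-1]),
  (true,[0,0,0,1]),
  (true,[0,0,-2,0,1]),
  (true,[0,-2,0,0,1]),
  (true,[-1,0,1]),
  (true,[-1,1])]

open Helper81.PC in
noncomputable def t0n : Helper81.PC.Ten2 :=
  (nq 94360224761383588135004801252255876276314984770213778517531501395979 (nr
  1526188938068143011433964353675637236524284182341477918012448859396538973563715002780551606022936525162845864164549769915996342133052184964687162457439817100756955269761306241322012234204509842202053922509267261924831292715675654922698752)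
  (nq 49993806243744258886704175598827381923789275146 (nr
  18154277698932001703609996390877467506846166130489196190747239981819996625055415967445905375030714625962694693371876937871785733927789428064931227356219421566611509980537578429138723873850888560393185631662486803882073233981040590862741380522155436138809500263384353235922338185216)
  (nq 13129779428420694466975771877228188879556087694622731 (nr
  3988379055109982259436983802861482662868562513794890115154294690213892212640512616648958636784133776761526413211328208910791519682447988781056457181650254965843276764235219767186303134183806986468889267608177776774616405745234359781940717248219031445438464)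
  (nq 47231475640897405516120741270900484082233376778 (nq
  47231475640897405516120741270900484080086155274 (nr
  427169682455998724552380269669424821210447536305409545124734817356728408751217557110585004835178968562447350465268439584494330425851550219203307050773165518101671190422614693312769039611958923360063957897123258716657902926869964616902104842240)
  (nr
  333469480463474274556073496454004858546654219997448781264291870975755302438209426296834510103542835896168540709068578774825721759971771764634825163670833453273720122933604709152515416029605680056672796225353878708489159997671184986829469832638653030055265208767877200687238892110578113072591346633530189594077408785423444965311234177678096790297696176692741523610517289240985105440659088412820060888327764252297984703334337949216005504863832529866032084733645835719212926731219369984))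
  (nq 13083786371610357195740428858508122206667968935493643 (nr
  115694996582010015982586968956234560666135554546228361748720047690121609629992385465845520120124011782691790144667712906839915402073927491111265404436119552671313923422905789867382552548615291719738802242602227801555952589374564740153516719510373655876976417964734601878300516700071578838404963330900640111347190626846505755339526828972703720943756571593725154208688671814095761014894577102587169128666824757110758253945705346598216613872807093584704344454017843200)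
  (nr
  25880927611691436142268281422073410760050837566050248946349809916643408149178044004871955061158579710290404939328208948694220351852778877490135398535397223214615302755643920100553878748634131158661821647709685825216837976379234123716567053149227914562026530921645013106106425789719492226473718937586138704447534168614092028632756393540213166474775923994365032861125579780224693495405154141514610728058623764559271542041499516508341555161711032830712841750012923269995298817))))))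

noncomputable def t0 : Tr2 := Helper81.PC.toT2 t0n

theorem ok0 : chk2 M t0 base = true :=
  Helper81.PC.chk2N_sound M t0n base (by decide +kernel)

theorem closed : Closed true (-1) (-1) 0 1 0 0 0 0 0 :=
  ⟨t0, base, chkQ_of (by decide +kernel) ok0⟩

end Helper55.Q2.T_TA_1_m1_m1_1_G

namespace Helper55.Q2.T_TA_1_m1_m1_1_Q1_0

noncomputable def M : Cx := mQ (-1) (-1) 0 1 1 0 0 0

noncomputable def base : List Con :=
  [(false,[0,-1,0,-1,0,0,0,1]),
  (false,[0,1,0,-1,0,0,0,1]),
  (false,[0,1,0,-1,0,0,0,-1]),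
  (false,[0,0,0,0,0,0,0,1]),
  (false,[0,2,0,0,0,0,0,-1]),
  (false,[0,0,1,0,0,0,0,1]),
  (false,[0,0,1,0,0,0,0,-1]),
  (false,[0,0,0,0,0,0,-1,2]),
  (false,[0,0,0,0,0,0,1,-1]),
  (false,[0,0,0,0,0,1,-1,1]),
  (false,[0,0,0,0,0,0,1,-1]),
  (false,[0,0,0,0,1,0,0,-2]),
  (false,[0,0,0,0,0,-1,0,1]),
  (true,[0,0,0,0,0,1]),
  (true,[1,-2,1]),
  (true,[0,1,0,-1]),
  (true,[0,0,0,1]),
  (true,[0,0,-2,0,1]),
  (true,[0,-2,0,0,1]),
  (true,[-1,0,1]),
  (true,[-1,1])]

noncomputable def t0 : Tr2 :=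
  (.C [(0,0),(1,0),(13,1)])

theorem ok0 : chk2 M t0 base = true := by decide +kernel

theorem closed : Closed true (-1) (-1) 0 1 1 0 0 0 0 :=
  ⟨t0, base, chkQ_of (by decide +kernel) ok0⟩

end Helper55.Q2.T_TA_1_m1_m1_1_Q1_0

namespace Helper55.Q2.T_TA_1_m1_m1_1_Q2_0

noncomputable def M : Cx := mQ (-1) (-1) 0 1 2 0 0 0

noncomputable def base : List Con :=
  [(false,[0,1,0,-1,0,0,0,-2]),
  (false,[0,1,0,-1,0,0,0,-2]),
  (false,[0,1,0,-1,0,0,0,2]),
  (false,[0,2,0,0,0,0,0,-2]),
  (false,[0,0,0,0,0,0,0,2]),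
  (false,[0,0,1,0,0,0,0,-2]),
  (false,[0,0,1,0,0,0,0,2]),
  (false,[0,0,0,0,0,0,1,-1]),
  (false,[0,0,0,0,0,0,-1,2]),
  (false,[0,0,0,0,0,1,-1,1]),
  (false,[0,0,0,0,0,0,1,-1]),
  (false,[0,0,0,0,1,0,0,-2]),
  (false,[0,0,0,0,0,-1,0,1]),
  (true,[0,0,0,0,0,1]),
  (true,[1,-2,1]),
  (true,[0,1,0,-1]),
  (true,[0,0,0,1]),
  (true,[0,0,-2,0,1]),
  (true,[0,-2,0,0,1]),
  (true,[-1,0,1]),
  (true,[-1,1])]

noncomputable def t0 : Tr2 :=
  (.R ⟨⟨4,true,false,false,[1,1,-1],[2,0,-1],[1,2,1],(⟨0,[]⟩,⟨0,[]⟩),(⟨0,[(8,0)]⟩,⟨0,[(10,0)]⟩),⟨0,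
  []⟩,.k,.k,.k,.k,.k,.k,⟨false,0,⟨0,[(20,0)]⟩,⟨1,[(17,0),(0,0)]⟩⟩,⟨true,0,⟨3,[(5,2),(0,0)]⟩,⟨1,[(4,
  0)]⟩⟩,⟨true,0,⟨0,[(15,0)]⟩,⟨0,[(16,0)]⟩⟩,⟨false,1,⟨1,[(0,0),(14,0),(2,1)]⟩,⟨1,[(4,0),(11,1)]⟩⟩,
  ⟨false,0,⟨0,[(20,0)]⟩,⟨0,[(18,0)]⟩⟩,⟨true,0,⟨1,[(3,0)]⟩,⟨1,[(4,0)]⟩⟩,[]⟩,⟨0,[]⟩,.k,.k,.k⟩)

theorem ok0 : chk2 M t0 base = true := by decide +kernel

theorem closed : Closed true (-1) (-1) 0 1 2 0 0 0 0 :=
  ⟨t0, base, chkQ_of (by decide +kernel) ok0⟩

end Helper55.Q2.T_TA_1_m1_m1_1_Q2_0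

namespace Helper55.Q2.T_TA_1_m1_m1_1_Q2_1

noncomputable def M : Cx := mQ (-1) (-1) 0 1 2 1 0 0

noncomputable def base : List Con :=
  [(false,[0,1,0,-1,0,0,0,-2]),
  (false,[0,1,0,-1,1,0,0,-2]),
  (false,[0,1,0,-1,-1,0,0,2]),
  (false,[0,2,0,0,0,0,0,-2]),
  (false,[0,0,0,0,0,0,0,2]),
  (false,[0,0,1,0,1,0,0,-2]),
  (false,[0,0,1,0,-1,0,0,2]),
  (false,[0,0,0,0,0,0,1,-1]),
  (false,[0,0,0,0,0,0,-1,2]),
  (false,[0,0,0,0,0,1,-1,1]),
  (false,[0,0,0,0,0,0,1,-1]),
  (false,[0,0,0,0,1,0,0,-2]),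
  (false,[0,0,0,0,0,-1,0,1]),
  (true,[0,0,0,0,0,1]),
  (true,[1,-2,1]),
  (true,[0,1,0,-1]),
  (true,[0,0,0,1]),
  (true,[0,0,-2,0,1]),
  (true,[0,-2,0,0,1]),
  (true,[-1,0,1]),
  (true,[-1,1])]

noncomputable def t0 : Tr2 :=
  (.C [(0,1),(5,1),(9,1),(0,0),(0,0)])

theorem ok0 : chk2 M t0 base = true := by decide +kernel

theorem closed : Closed true (-1) (-1) 0 1 2 1 0 0 0 :=
  ⟨t0, base, chkQ_of (by decide +kernel) ok0⟩

end Helper55.Q2.T_TA_1_m1_m1_1_Q2_1

namespace Helper55.Q2.T_TA_1_m1_m1_1_Q3_m1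

noncomputable def M : Cx := mQ (-1) (-1) 0 1 3 1 (-1) 0

noncomputable def base : List Con :=
  [(false,[0,1,0,0,-1,0,0,-1]),
  (false,[0,1,-1,-1,1,0,0,-1]),
  (false,[0,1,1,-1,-1,0,0,1]),
  (false,[0,2,0,1,-1,0,0,-1]),
  (false,[0,0,0,-1,1,0,0,1]),
  (false,[0,0,0,0,1,0,0,-1]),
  (false,[0,0,2,0,-1,0,0,1]),
  (true,[0,0,0,0,0,-1,1]),
  (false,[0,0,0,0,0,1,-1,1]),
  (false,[0,0,0,0,0,1,-1,1]),
  (false,[0,0,0,0,0,0,1,-1]),
  (false,[0,0,0,0,1,0,0,-2]),
  (false,[0,0,0,0,0,-1,0,1]),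
  (true,[0,0,0,0,0,1]),
  (true,[1,-2,1]),
  (true,[0,1,0,-1]),
  (true,[0,0,0,1]),
  (true,[0,0,-2,0,1]),
  (true,[0,-2,0,0,1]),
  (true,[-1,0,1]),
  (true,[-1,1])]

noncomputable def t0 : Tr2 :=
  (.C [(0,0),(11,0),(0,0),(4,0),(1,0)])

theorem ok0 : chk2 M t0 base = true := by decide +kernel

theorem closed : Closed true (-1) (-1) 0 1 3 1 (-1) 0 0 :=
  ⟨t0, base, chkQ_of (by decide +kernel) ok0⟩

end Helper55.Q2.T_TA_1_m1_m1_1_Q3_m1

namespace Helper55.Q2.T_TA_1_m1_m1_1_Q3_0

noncomputable def M : Cx := mQ (-1) (-1) 0 1 3 1 0 0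

noncomputable def base : List Con :=
  [(false,[0,1,0,0,0,0,0,-1]),
  (false,[0,1,-1,-1,1,0,0,-1]),
  (false,[0,1,1,-1,-1,0,0,1]),
  (false,[0,2,0,1,0,0,0,-1]),
  (false,[0,0,0,-1,0,0,0,1]),
  (false,[0,0,0,0,1,0,0,-1]),
  (false,[0,0,2,0,-1,0,0,1]),
  (true,[0,0,0,0,0,-1,1]),
  (false,[0,0,0,0,0,1,-1,1]),
  (false,[0,0,0,0,0,1,-1,1]),
  (false,[0,0,0,0,0,0,1,-1]),
  (false,[0,0,0,0,1,0,0,-2]),
  (false,[0,0,0,0,0,-1,0,1]),
  (true,[0,0,0,0,0,1]),
  (true,[1,-2,1]),
  (true,[0,1,0,-1]),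
  (true,[0,0,0,1]),
  (true,[0,0,-2,0,1]),
  (true,[0,-2,0,0,1]),
  (true,[-1,0,1]),
  (true,[-1,1])]

noncomputable def t0 : Tr2 :=
  (.C [(0,0),(1,0),(11,0),(1,0),(0,0)])

theorem ok0 : chk2 M t0 base = true := by decide +kernel

theorem closed : Closed true (-1) (-1) 0 1 3 1 0 0 0 :=
  ⟨t0, base, chkQ_of (by decide +kernel) ok0⟩

end Helper55.Q2.T_TA_1_m1_m1_1_Q3_0

namespace Helper55.Q2.T_TA_1_m1_m1_1_Q3_1

noncomputable def M : Cx := mQ (-1) (-1) 0 1 3 1 1 0

noncomputable def base : List Con :=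
  [(false,[0,1,0,0,1,0,0,-1]),
  (false,[0,1,-1,-1,1,0,0,-1]),
  (false,[0,1,1,-1,-1,0,0,1]),
  (false,[0,2,0,1,1,0,0,-1]),
  (false,[0,0,0,-1,-1,0,0,1]),
  (false,[0,0,0,0,1,0,0,-1]),
  (false,[0,0,2,0,-1,0,0,1]),
  (true,[0,0,0,0,0,-1,1]),
  (false,[0,0,0,0,0,1,-1,1]),
  (false,[0,0,0,0,0,1,-1,1]),
  (false,[0,0,0,0,0,0,1,-1]),
  (false,[0,0,0,0,1,0,0,-2]),
  (false,[0,0,0,0,0,-1,0,1]),
  (true,[0,0,0,0,0,1]),
  (true,[1,-2,1]),
  (true,[0,1,0,-1]),
  (true,[0,0,0,1]),
  (true,[0,0,-2,0,1]),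
  (true,[0,-2,0,0,1]),
  (true,[-1,0,1]),
  (true,[-1,1])]

noncomputable def t0 : Tr2 :=
  (.C [(4,1),(6,0),(4,1),(1,0),(1,1)])

theorem ok0 : chk2 M t0 base = true := by decide +kernel

theorem closed : Closed true (-1) (-1) 0 1 3 1 1 0 0 :=
  ⟨t0, base, chkQ_of (by decide +kernel) ok0⟩

end Helper55.Q2.T_TA_1_m1_m1_1_Q3_1

namespace Helper55.Q2.T_TA_1_m1_1_m1_G

noncomputable def M : Cx := mQ 1 (-1) 1 1 0 0 0 0

noncomputable def base : List Con :=
  [(false,[0,0,0,-1,0,0,0,-1,-1,0,-1]),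
  (false,[0,1,0,-1,0,0,0,1,0,0,1]),
  (false,[0,1,0,-1,0,0,0,-1,0,0,-1]),
  (false,[0,1,0,0,0,0,0,1,1,0,1]),
  (false,[0,1,0,0,0,0,0,-1,-1,0,-1]),
  (false,[0,0,1,0,0,0,0,1,0,0,1]),
  (false,[0,0,1,0,0,0,0,-1,0,0,-1]),
  (false,[0,0,0,0,0,0,0,0,0,1,-1]),
  (false,[0,0,0,0,0,0,0,0,0,0,1]),
  (false,[0,0,0,0,0,1,-1,0,0,1]),
  (false,[0,0,0,0,0,0,1,0,0,-1]),
  (false,[0,0,0,0,1,0,0,0,0,-2]),
  (false,[0,0,0,0,0,-1,0,0,0,1]),
  (true,[0,0,0,0,0,1]),
  (true,[1,-2,1]),
  (true,[0,1,0,-1]),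
  (true,[0,0,0,1]),
  (true,[0,0,-2,0,1]),
  (true,[0,-2,0,0,1]),
  (true,[-1,0,1]),
  (true,[-1,1])]

noncomputable def t0 : Tr2 :=
  (.Q [0,0,0,0,0,0,0,1,0,0,1] (.p true [0,0,0,1] [] (⟨0,[(8,0)]⟩,⟨0,[(7,0)]⟩) .k 0 (⟨0,[]⟩,⟨0,[]⟩)
  .k .k .k) (.R ⟨⟨4,true,false,false,[1,1,-1],[1,0,0,-1],[1,2,1],(⟨0,[]⟩,⟨0,[]⟩),(⟨0,[(8,0)]⟩,⟨0,
  [(9,0)]⟩),⟨0,[]⟩,.k,.k,.k,.k,.k,.k,⟨false,0,⟨0,[(3,0),(0,0),(12,0)]⟩,⟨0,[(0,0),(0,0),(13,0),(1,0),
  (0,0)]⟩⟩,⟨true,0,⟨0,[(7,0)]⟩,⟨0,[(0,0)]⟩⟩,⟨true,0,⟨0,[(16,0)]⟩,⟨0,[(17,0)]⟩⟩,⟨false,1,⟨0,[(1,0),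
  (17,0)]⟩,⟨0,[(4,0),(12,0)]⟩⟩,⟨false,0,⟨0,[(21,0)]⟩,⟨0,[(19,0)]⟩⟩,⟨true,0,⟨0,[(1,0),(15,0)]⟩,⟨0,
  [(4,0)]⟩⟩,[]⟩,⟨0,[]⟩,.k,.k,.k⟩) (.R ⟨⟨4,true,false,true,[1,1,-1],[1,0,0,-1],[1,0,1],(⟨0,[]⟩,⟨0,
  []⟩),(⟨0,[(8,0)]⟩,⟨0,[(9,0)]⟩),⟨0,[]⟩,.k,.k,.k,.k,.k,.k,⟨true,0,⟨0,[(0,0),(3,0),(10,0)]⟩,⟨0,[(1,
  0),(0,0),(14,1)]⟩⟩,⟨false,0,⟨0,[(0,0)]⟩,⟨0,[(6,0),(11,0)]⟩⟩,⟨false,1,⟨1,[(15,1),(0,1),(1,0),(0,
  0)]⟩,⟨0,[(17,0),(3,0)]⟩⟩,⟨true,0,⟨0,[(1,0)]⟩,⟨0,[(4,0),(12,0)]⟩⟩,⟨true,0,⟨0,[]⟩,⟨0,[(21,0)]⟩⟩,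
  ⟨false,0,⟨0,[(1,0),(15,0)]⟩,⟨0,[(4,0),(14,0)]⟩⟩,[]⟩,⟨0,[]⟩,.k,.k,.k⟩))

theorem ok0 : chk2 M t0 base = true := by decide +kernel

theorem closed : Closed true 1 (-1) 1 1 0 0 0 0 0 :=
  ⟨t0, base, chkQ_of (by decide +kernel) ok0⟩

end Helper55.Q2.T_TA_1_m1_1_m1_G

namespace Helper55.Q2.T_TA_1_m1_1_m1_Q1_0

noncomputable def M : Cx := mQ 1 (-1) 1 1 1 0 1 0

noncomputable def base : List Con :=
  [(false,[0,1,0,-1,-1,0,0,1]),
  (false,[0,1,0,-1,0,0,0,-1]),
  (false,[0,1,0,-1,0,0,0,1]),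
  (false,[0,0,0,0,1,0,0,-1]),
  (false,[0,2,0,0,-1,0,0,1]),
  (false,[0,0,1,0,0,0,0,-1]),
  (false,[0,0,1,0,0,0,0,1]),
  (false,[0,0,0,0,0,0,-1,2]),
  (false,[0,0,0,0,0,0,1,-1]),
  (false,[0,0,0,0,0,1,-1,1]),
  (false,[0,0,0,0,0,0,1,-1]),
  (false,[0,0,0,0,1,0,0,-2]),
  (false,[0,0,0,0,0,-1,0,1]),
  (true,[0,0,0,0,0,1]),
  (true,[1,-2,1]),
  (true,[0,1,0,-1]),
  (true,[0,0,0,1]),
  (true,[0,0,-2,0,1]),
  (true,[0,-2,0,0,1]),
  (true,[-1,0,1]),
  (true,[-1,1])]

noncomputable def t0 : Tr2 :=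
  (.C [(0,1),(4,1),(10,1),(0,0),(0,0)])

theorem ok0 : chk2 M t0 base = true := by decide +kernel

theorem closed : Closed true 1 (-1) 1 1 1 0 1 0 0 :=
  ⟨t0, base, chkQ_of (by decide +kernel) ok0⟩

end Helper55.Q2.T_TA_1_m1_1_m1_Q1_0

namespace Helper55.Q2.T_TA_1_m1_1_m1_Q2_m1

noncomputable def M : Cx := mQ 1 (-1) 1 1 2 (-1) (-1) 0

noncomputable def base : List Con :=
  [(false,[0,-1,0,-1,1,0,0,-2]),
  (false,[0,1,0,-1,-1,0,0,2]),
  (false,[0,1,0,-1,1,0,0,-2]),
  (false,[0,2,0,0,-1,0,0,2]),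
  (false,[0,0,0,0,1,0,0,-2]),
  (false,[0,0,1,0,-1,0,0,2]),
  (false,[0,0,1,0,1,0,0,-2]),
  (false,[0,0,0,0,0,0,1,-1]),
  (false,[0,0,0,0,0,0,-1,2]),
  (false,[0,0,0,0,0,1,-1,1]),
  (false,[0,0,0,0,0,0,1,-1]),
  (false,[0,0,0,0,1,0,0,-2]),
  (false,[0,0,0,0,0,-1,0,1]),
  (true,[0,0,0,0,0,1]),
  (true,[1,-2,1]),
  (true,[0,1,0,-1]),
  (true,[0,0,0,1]),
  (true,[0,0,-2,0,1]),
  (true,[0,-2,0,0,1]),
  (true,[-1,0,1]),
  (true,[-1,1])]

noncomputable def t0 : Tr2 :=
  (.C [(0,0),(0,0),(14,1)])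

theorem ok0 : chk2 M t0 base = true := by decide +kernel

theorem closed : Closed true 1 (-1) 1 1 2 (-1) (-1) 0 0 :=
  ⟨t0, base, chkQ_of (by decide +kernel) ok0⟩

end Helper55.Q2.T_TA_1_m1_1_m1_Q2_m1

namespace Helper55.Q2.T_TA_1_m1_1_m1_Q2_0

noncomputable def M : Cx := mQ 1 (-1) 1 1 2 0 (-1) 0

noncomputable def base : List Con :=
  [(false,[0,-1,0,-1,1,0,0,-2]),
  (false,[0,1,0,-1,0,0,0,2]),
  (false,[0,1,0,-1,0,0,0,-2]),
  (false,[0,2,0,0,-1,0,0,2]),
  (false,[0,0,0,0,1,0,0,-2]),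
  (false,[0,0,1,0,0,0,0,2]),
  (false,[0,0,1,0,0,0,0,-2]),
  (false,[0,0,0,0,0,0,1,-1]),
  (false,[0,0,0,0,0,0,-1,2]),
  (false,[0,0,0,0,0,1,-1,1]),
  (false,[0,0,0,0,0,0,1,-1]),
  (false,[0,0,0,0,1,0,0,-2]),
  (false,[0,0,0,0,0,-1,0,1]),
  (true,[0,0,0,0,0,1]),
  (true,[1,-2,1]),
  (true,[0,1,0,-1]),
  (true,[0,0,0,1]),
  (true,[0,0,-2,0,1]),
  (true,[0,-2,0,0,1]),
  (true,[-1,0,1]),
  (true,[-1,1])]

noncomputable def t0 : Tr2 :=
  (.C [(2,0),(0,0),(10,1),(1,0),(0,0),(2,0)])

theorem ok0 : chk2 M t0 base = true := by decide +kernel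

theorem closed : Closed true 1 (-1) 1 1 2 0 (-1) 0 0 :=
  ⟨t0, base, chkQ_of (by decide +kernel) ok0⟩

end Helper55.Q2.T_TA_1_m1_1_m1_Q2_0

namespace Helper55.Q2.T_TA_1_m1_1_m1_Q3_m1

noncomputable def M : Cx := mQ 1 (-1) 1 1 3 0 (-1) 0

noncomputable def base : List Con :=
  [(false,[0,-1,0,-2,1,0,0,-1]),
  (false,[0,1,-1,-1,0,0,0,1]),
  (false,[0,1,1,-1,0,0,0,-1]),
  (false,[0,2,0,1,-1,0,0,1]),
  (false,[0,0,0,-1,1,0,0,-1]),
  (false,[0,0,0,0,0,0,0,1]),
  (false,[0,0,2,0,0,0,0,-1]),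
  (true,[0,0,0,0,0,-1,1]),
  (false,[0,0,0,0,0,1,-1,1]),
  (false,[0,0,0,0,0,1,-1,1]),
  (false,[0,0,0,0,0,0,1,-1]),
  (false,[0,0,0,0,1,0,0,-2]),
  (false,[0,0,0,0,0,-1,0,1]),
  (true,[0,0,0,0,0,1]),
  (true,[1,-2,1]),
  (true,[0,1,0,-1]),
  (true,[0,0,0,1]),
  (true,[0,0,-2,0,1]),
  (true,[0,-2,0,0,1]),
  (true,[-1,0,1]),
  (true,[-1,1])]

noncomputable def t0 : Tr2 :=
  (.Q [0,0,-1,0,0,0,0,1] (.pp false [-1,1,0]) (.R ⟨⟨4,true,false,false,[1,1,-1],[0,-1,1],[1,1,1,1],
  (⟨0,[]⟩,⟨0,[]⟩),(⟨0,[(8,0)]⟩,⟨0,[(10,0)]⟩),⟨0,[]⟩,.k,.k,.k,(.r 1 ⟨0,[(4,0),(2,0),(9,0)]⟩ ⟨1,[(0,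
  1),(0,1),(16,0),(0,0)]⟩),.k,.k,⟨false,(-1),⟨0,[(4,1),(7,0),(2,0)]⟩,⟨1,[(0,1),(0,1),(16,0),(0,
  0)]⟩⟩,⟨true,0,⟨0,[(7,0)]⟩,⟨0,[(0,0)]⟩⟩,⟨true,0,⟨0,[]⟩,⟨0,[(21,0)]⟩⟩,⟨false,2,⟨0,[(1,0),(17,0)]⟩,
  ⟨0,[(4,0),(12,0)]⟩⟩,⟨false,0,⟨0,[(17,0)]⟩,⟨2,[(1,0),(3,0),(0,1),(12,0)]⟩⟩,⟨true,1,⟨3,[(1,1),(10,
  0),(6,0)]⟩,⟨0,[(4,0)]⟩⟩,[]⟩,⟨0,[]⟩,.k,.k,.k⟩) (.R ⟨⟨2,true,false,true,[0,1],[1,1,-1],[1,1,1],(⟨0,
  []⟩,⟨0,[]⟩),(⟨0,[(10,0)]⟩,⟨0,[(8,0)]⟩),⟨0,[]⟩,.k,.k,.k,.k,.k,.k,⟨false,1,⟨5,[(1,1),(0,1),(12,1),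
  (2,2),(0,0)]⟩,⟨1,[(4,1),(7,0),(6,0)]⟩⟩,⟨true,0,⟨0,[(6,0)]⟩,⟨0,[(0,0)]⟩⟩,⟨true,0,⟨0,[(16,0)]⟩,⟨0,
  [(17,0)]⟩⟩,⟨false,0,⟨0,[(6,0),(14,0)]⟩,⟨1,[(12,0),(2,1),(2,0)]⟩⟩,⟨false,0,⟨0,[]⟩,⟨0,[(19,0),(1,
  0)]⟩⟩,⟨true,(-1),⟨0,[(4,0)]⟩,⟨3,[(1,1),(10,0),(6,0)]⟩⟩,[]⟩,⟨0,[]⟩,.k,.k,.k⟩))

theorem ok0 : chk2 M t0 base = true := by decide +kernel

theorem closed : Closed true 1 (-1) 1 1 3 0 (-1) 0 0 :=
  ⟨t0, base, chkQ_of (by decide +kernel) ok0⟩

end Helper55.Q2.T_TA_1_m1_1_m1_Q3_m1

namespace Helper55.Q2.T_TA_1_m1_1_m1_Q3_0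

noncomputable def M : Cx := mQ 1 (-1) 1 1 3 0 0 0

noncomputable def base : List Con :=
  [(false,[0,-1,0,-2,0,0,0,-1]),
  (false,[0,1,-1,-1,0,0,0,1]),
  (false,[0,1,1,-1,0,0,0,-1]),
  (false,[0,2,0,1,0,0,0,1]),
  (false,[0,0,0,-1,0,0,0,-1]),
  (false,[0,0,0,0,0,0,0,1]),
  (false,[0,0,2,0,0,0,0,-1]),
  (true,[0,0,0,0,0,-1,1]),
  (false,[0,0,0,0,0,1,-1,1]),
  (false,[0,0,0,0,0,1,-1,1]),
  (false,[0,0,0,0,0,0,1,-1]),
  (false,[0,0,0,0,1,0,0,-2]),
  (false,[0,0,0,0,0,-1,0,1]),
  (true,[0,0,0,0,0,1]),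
  (true,[1,-2,1]),
  (true,[0,1,0,-1]),
  (true,[0,0,0,1]),
  (true,[0,0,-2,0,1]),
  (true,[0,-2,0,0,1]),
  (true,[-1,0,1]),
  (true,[-1,1])]

noncomputable def t0 : Tr2 :=
  (.C [(0,0),(4,0),(10,1),(3,0)])

theorem ok0 : chk2 M t0 base = true := by decide +kernel

theorem closed : Closed true 1 (-1) 1 1 3 0 0 0 0 :=
  ⟨t0, base, chkQ_of (by decide +kernel) ok0⟩

end Helper55.Q2.T_TA_1_m1_1_m1_Q3_0

namespace Helper55.Q2.T_TA_1_m1_1_m1_Q3_1

noncomputable def M : Cx := mQ 1 (-1) 1 1 3 0 1 0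

noncomputable def base : List Con :=
  [(false,[0,-1,0,-2,-1,0,0,-1]),
  (false,[0,1,-1,-1,0,0,0,1]),
  (false,[0,1,1,-1,0,0,0,-1]),
  (false,[0,2,0,1,1,0,0,1]),
  (false,[0,0,0,-1,-1,0,0,-1]),
  (false,[0,0,0,0,0,0,0,1]),
  (false,[0,0,2,0,0,0,0,-1]),
  (true,[0,0,0,0,0,-1,1]),
  (false,[0,0,0,0,0,1,-1,1]),
  (false,[0,0,0,0,0,1,-1,1]),
  (false,[0,0,0,0,0,0,1,-1]),
  (false,[0,0,0,0,1,0,0,-2]),
  (false,[0,0,0,0,0,-1,0,1]),
  (true,[0,0,0,0,0,1]),
  (true,[1,-2,1]),
  (true,[0,1,0,-1]),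
  (true,[0,0,0,1]),
  (true,[0,0,-2,0,1]),
  (true,[0,-2,0,0,1]),
  (true,[-1,0,1]),
  (true,[-1,1])]

noncomputable def t0 : Tr2 :=
  (.C [(0,0),(4,0),(10,1),(1,0),(1,2)])

theorem ok0 : chk2 M t0 base = true := by decide +kernel

theorem closed : Closed true 1 (-1) 1 1 3 0 1 0 0 :=
  ⟨t0, base, chkQ_of (by decide +kernel) ok0⟩

end Helper55.Q2.T_TA_1_m1_1_m1_Q3_1

namespace Helper55.Q2.T_TA_1_m1_1_1_G

noncomputable def M : Cx := mQ 1 (-1) 0 1 0 0 0 0

noncomputable def base : List Con :=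
  [(false,[0,0,0,-1,0,0,0,1,1,0,1]),
  (false,[0,1,0,-1,0,0,0,1,0,0,1]),
  (false,[0,1,0,-1,0,0,0,-1,0,0,-1]),
  (false,[0,1,0,0,0,0,0,1,1,0,1]),
  (false,[0,1,0,0,0,0,0,-1,-1,0,-1]),
  (false,[0,0,1,0,0,0,0,1,0,0,1]),
  (false,[0,0,1,0,0,0,0,-1,0,0,-1]),
  (false,[0,0,0,0,0,0,0,0,0,1,-1]),
  (false,[0,0,0,0,0,0,0,0,0,0,1]),
  (false,[0,0,0,0,0,1,-1,0,0,1]),
  (false,[0,0,0,0,0,0,1,0,0,-1]),
  (false,[0,0,0,0,1,0,0,0,0,-2]),
  (false,[0,0,0,0,0,-1,0,0,0,1]),
  (true,[0,0,0,0,0,1]),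
  (true,[1,-2,1]),
  (true,[0,1,0,-1]),
  (true,[0,0,0,1]),
  (true,[0,0,-2,0,1]),
  (true,[0,-2,0,0,1]),
  (true,[-1,0,1]),
  (true,[-1,1])]

open Helper81.PC in
noncomputable def t0n : Helper81.PC.Ten2 :=
  (nq 94360224761383588135006228587060868167956289702807127515200546275339 (nr
  1526188938068143011433964353675637236524284182341477918012448859396538973563715002780551606022936525162845864164549769915996342133052184964687162457439817100756955269761306241322012234204509842202053922509267261924831292715675654922698752)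
  (ni 2659429586849724576622370058261626889 (nr
  598753311061844492977795976882521891125649542034138540330819268706556876250848122986000723745442684959796166619113672755169619912705517240427059360655192710426781149393557919681134232926540630886314561650197040229803279008659374685243895190406263949771657678591065572381190214048610869221261312)
  (nq 47231475640897405516120741270900484082233376778 (nq
  47231301426959365961906775006331917904818339850 (nr
  786413134412579689937726717545521286131645857157335262972521947762271431963916795568705747186405365933829635445228636172179603262885538867717280817293747449373402707344965179753228369492750604332553609535682815701386190467966411927871880683296900492346671380073741837057890072334821833585135437789615847295916944102882508000403774227488399110363548012443987129347493144708611928196763220353936984708315348992)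
  (nr
  40008086614356966797063459603579056515851065374875098236571793302953218948185958293122212385239779177063448298380555450631154545256510677842091280947513930920109544265788693831124947929407141645962483312658589006444247557770672676958728355840))
  (nq 13083786371610357195740428858508122206667968935493643 (nr
  46894297371546443823548334976234961086918864373484739124876577296725410308858140643058824778848384591326847466435987214826242566913188781081752979508577772834550643736969670889113068060509084306566985623489757038587262412221353387290003455169228589881689238099649077504747865593627853073949971044824324838898086745038276785463006541913924847474811181634823975455062972182519120681268680190367121119372722919109993053438523778293417938076645667678733788099562683861809270902027209482575779589835751646324288089227264)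
  (nq 148280118120793274665885554481638295316261482954675816564815586000907 (nr
  30422419887470072320012427444448440562151466628076930869725290091205143448185345902198794783972096881828342621617207670350271324046598566177139151070380465192867397646810091771379511188691831462496907753279436729588557630625143949053413584908917758377864555136638029044711984156163190133994885053372486243382476954949457024219824748941796653247323020695545110159360137116032837078327191223875424997357319742122658661153558462499684353)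
  (nr
  5772234568330140113247932947406314776672476741688309216752442097623006494540178604135344801216915882133299953025606479393103402364182658502245663449806746433393048999861337946895148853839186644430700933586108935503482118185047191728089354004573958748198286693683072396273831990969371960217806753736812918206817730688829718161138254063609781929153542829393330452556775285302741168127397562819962896821782124167200769))))))

noncomputable def t0 : Tr2 := Helper81.PC.toT2 t0n

theorem ok0 : chk2 M t0 base = true :=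
  Helper81.PC.chk2N_sound M t0n base (by decide +kernel)

theorem closed : Closed true 1 (-1) 0 1 0 0 0 0 0 :=
  ⟨t0, base, chkQ_of (by decide +kernel) ok0⟩

end Helper55.Q2.T_TA_1_m1_1_1_G

namespace Helper55.Q2.T_TA_1_m1_1_1_Q1_0

noncomputable def M : Cx := mQ 1 (-1) 0 1 1 0 1 0

noncomputable def base : List Con :=
  [(false,[0,-1,0,-1,1,0,0,-1]),
  (false,[0,1,0,-1,0,0,0,-1]),
  (false,[0,1,0,-1,0,0,0,1]),
  (false,[0,0,0,0,1,0,0,-1]),
  (false,[0,2,0,0,-1,0,0,1]),
  (false,[0,0,1,0,0,0,0,-1]),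
  (false,[0,0,1,0,0,0,0,1]),
  (false,[0,0,0,0,0,0,-1,2]),
  (false,[0,0,0,0,0,0,1,-1]),
  (false,[0,0,0,0,0,1,-1,1]),
  (false,[0,0,0,0,0,0,1,-1]),
  (false,[0,0,0,0,1,0,0,-2]),
  (false,[0,0,0,0,0,-1,0,1]),
  (true,[0,0,0,0,0,1]),
  (true,[1,-2,1]),
  (true,[0,1,0,-1]),
  (true,[0,0,0,1]),
  (true,[0,0,-2,0,1]),
  (true,[0,-2,0,0,1]),
  (true,[-1,0,1]),
  (true,[-1,1])]

noncomputable def t0 : Tr2 :=
  (.C [(1,0),(2,0),(9,1),(1,0),(0,0),(2,0)])

theorem ok0 : chk2 M t0 base = true := by decide +kernel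

theorem closed : Closed true 1 (-1) 0 1 1 0 1 0 0 :=
  ⟨t0, base, chkQ_of (by decide +kernel) ok0⟩

end Helper55.Q2.T_TA_1_m1_1_1_Q1_0

namespace Helper55.Q2.T_TA_1_m1_1_1_Q2_m1

noncomputable def M : Cx := mQ 1 (-1) 0 1 2 (-1) (-1) 0

noncomputable def base : List Con :=
  [(false,[0,1,0,-1,-1,0,0,2]),
  (false,[0,1,0,-1,-1,0,0,2]),
  (false,[0,1,0,-1,1,0,0,-2]),
  (false,[0,2,0,0,-1,0,0,2]),
  (false,[0,0,0,0,1,0,0,-2]),
  (false,[0,0,1,0,-1,0,0,2]),
  (false,[0,0,1,0,1,0,0,-2]),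
  (false,[0,0,0,0,0,0,1,-1]),
  (false,[0,0,0,0,0,0,-1,2]),
  (false,[0,0,0,0,0,1,-1,1]),
  (false,[0,0,0,0,0,0,1,-1]),
  (false,[0,0,0,0,1,0,0,-2]),
  (false,[0,0,0,0,0,-1,0,1]),
  (true,[0,0,0,0,0,1]),
  (true,[1,-2,1]),
  (true,[0,1,0,-1]),
  (true,[0,0,0,1]),
  (true,[0,0,-2,0,1]),
  (true,[0,-2,0,0,1]),
  (true,[-1,0,1]),
  (true,[-1,1])]

open Helper81.PC in
noncomputable def t0n : Helper81.PC.Ten2 :=
  (nq 786214669533542607826318747991999119368 (nr
  9187372209407236161001859301856264234401173537325877858511202562839251131672092077140890661826406258131170460333388381477214253499485522406735274944876284397343860356993465205692940837614930103116047011029675660753976619224962431643111965051654145163464581793362380168111968423684932827901139740632385857658773423145033547128769928416152366307158472595940266422632552074526523837536047616298420058975323548423471207597569586161961692932603905)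
  (nr
  204885246686052104548127789265023510583293882587942012291593537336479366399439609141656816325747835719975031251868527403985891218013941559079468473428461662098393215941540197409826351842141802461515580777588801108251686790502668458527395984501232959371611014198240820581478852570457509421028973462522637783352375406599487306557642959844572734435672556551497254009225141339021497466566880504026224093107905626253168233558728823414471222612262597989280518766792681487933282123283729219584))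

noncomputable def t0 : Tr2 := Helper81.PC.toT2 t0n

theorem ok0 : chk2 M t0 base = true :=
  Helper81.PC.chk2N_sound M t0n base (by decide +kernel)

theorem closed : Closed true 1 (-1) 0 1 2 (-1) (-1) 0 0 :=
  ⟨t0, base, chkQ_of (by decide +kernel) ok0⟩

end Helper55.Q2.T_TA_1_m1_1_1_Q2_m1

namespace Helper55.Q2.T_TA_1_m1_1_1_Q2_0

noncomputable def M : Cx := mQ 1 (-1) 0 1 2 0 (-1) 0

noncomputable def base : List Con :=
  [(false,[0,1,0,-1,-1,0,0,2]),
  (false,[0,1,0,-1,0,0,0,2]),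
  (false,[0,1,0,-1,0,0,0,-2]),
  (false,[0,2,0,0,-1,0,0,2]),
  (false,[0,0,0,0,1,0,0,-2]),
  (false,[0,0,1,0,0,0,0,2]),
  (false,[0,0,1,0,0,0,0,-2]),
  (false,[0,0,0,0,0,0,1,-1]),
  (false,[0,0,0,0,0,0,-1,2]),
  (false,[0,0,0,0,0,1,-1,1]),
  (false,[0,0,0,0,0,0,1,-1]),
  (false,[0,0,0,0,1,0,0,-2]),
  (false,[0,0,0,0,0,-1,0,1]),
  (true,[0,0,0,0,0,1]),
  (true,[1,-2,1]),
  (true,[0,1,0,-1]),
  (true,[0,0,0,1]),
  (true,[0,0,-2,0,1]),
  (true,[0,-2,0,0,1]),
  (true,[-1,0,1]),
  (true,[-1,1])]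

noncomputable def t0 : Tr2 :=
  (.C [(0,1),(5,1),(9,1),(0,0),(0,0)])

theorem ok0 : chk2 M t0 base = true := by decide +kernel

theorem closed : Closed true 1 (-1) 0 1 2 0 (-1) 0 0 :=
  ⟨t0, base, chkQ_of (by decide +kernel) ok0⟩

end Helper55.Q2.T_TA_1_m1_1_1_Q2_0

namespace Helper55.Q2.T_TA_1_m1_1_1_Q3_m1

noncomputable def M : Cx := mQ 1 (-1) 0 1 3 0 (-1) 0

noncomputable def base : List Con :=
  [(false,[0,1,0,0,-1,0,0,1]),
  (false,[0,1,-1,-1,0,0,0,1]),
  (false,[0,1,1,-1,0,0,0,-1]),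
  (false,[0,2,0,1,-1,0,0,1]),
  (false,[0,0,0,-1,1,0,0,-1]),
  (false,[0,0,0,0,0,0,0,1]),
  (false,[0,0,2,0,0,0,0,-1]),
  (true,[0,0,0,0,0,-1,1]),
  (false,[0,0,0,0,0,1,-1,1]),
  (false,[0,0,0,0,0,1,-1,1]),
  (false,[0,0,0,0,0,0,1,-1]),
  (false,[0,0,0,0,1,0,0,-2]),
  (false,[0,0,0,0,0,-1,0,1]),
  (true,[0,0,0,0,0,1]),
  (true,[1,-2,1]),
  (true,[0,1,0,-1]),
  (true,[0,0,0,1]),
  (true,[0,0,-2,0,1]),
  (true,[0,-2,0,0,1]),
  (true,[-1,0,1]),
  (true,[-1,1])]

noncomputable def t0 : Tr2 :=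
  (.C [(0,1),(10,0),(6,0)])

theorem ok0 : chk2 M t0 base = true := by decide +kernel

theorem closed : Closed true 1 (-1) 0 1 3 0 (-1) 0 0 :=
  ⟨t0, base, chkQ_of (by decide +kernel) ok0⟩

end Helper55.Q2.T_TA_1_m1_1_1_Q3_m1

namespace Helper55.Q2.T_TA_1_m1_1_1_Q3_0

noncomputable def M : Cx := mQ 1 (-1) 0 1 3 0 0 0

noncomputable def base : List Con :=
  [(false,[0,1,0,0,0,0,0,1]),
  (false,[0,1,-1,-1,0,0,0,1]),
  (false,[0,1,1,-1,0,0,0,-1]),
  (false,[0,2,0,1,0,0,0,1]),
  (false,[0,0,0,-1,0,0,0,-1]),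
  (false,[0,0,0,0,0,0,0,1]),
  (false,[0,0,2,0,0,0,0,-1]),
  (true,[0,0,0,0,0,-1,1]),
  (false,[0,0,0,0,0,1,-1,1]),
  (false,[0,0,0,0,0,1,-1,1]),
  (false,[0,0,0,0,0,0,1,-1]),
  (false,[0,0,0,0,1,0,0,-2]),
  (false,[0,0,0,0,0,-1,0,1]),
  (true,[0,0,0,0,0,1]),
  (true,[1,-2,1]),
  (true,[0,1,0,-1]),
  (true,[0,0,0,1]),
  (true,[0,0,-2,0,1]),
  (true,[0,-2,0,0,1]),
  (true,[-1,0,1]),
  (true,[-1,1])]

noncomputable def t0 : Tr2 :=
  (.C [(4,0),(0,0),(10,0)])

theorem ok0 : chk2 M t0 base = true := by decide +kernel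

theorem closed : Closed true 1 (-1) 0 1 3 0 0 0 0 :=
  ⟨t0, base, chkQ_of (by decide +kernel) ok0⟩

end Helper55.Q2.T_TA_1_m1_1_1_Q3_0

namespace Helper55.Q2.T_TA_1_m1_1_1_Q3_1

noncomputable def M : Cx := mQ 1 (-1) 0 1 3 0 1 0

noncomputable def base : List Con :=
  [(false,[0,1,0,0,1,0,0,1]),
  (false,[0,1,-1,-1,0,0,0,1]),
  (false,[0,1,1,-1,0,0,0,-1]),
  (false,[0,2,0,1,1,0,0,1]),
  (false,[0,0,0,-1,-1,0,0,-1]),
  (false,[0,0,0,0,0,0,0,1]),
  (false,[0,0,2,0,0,0,0,-1]),
  (true,[0,0,0,0,0,-1,1]),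
  (false,[0,0,0,0,0,1,-1,1]),
  (false,[0,0,0,0,0,1,-1,1]),
  (false,[0,0,0,0,0,0,1,-1]),
  (false,[0,0,0,0,1,0,0,-2]),
  (false,[0,0,0,0,0,-1,0,1]),
  (true,[0,0,0,0,0,1]),
  (true,[1,-2,1]),
  (true,[0,1,0,-1]),
  (true,[0,0,0,1]),
  (true,[0,0,-2,0,1]),
  (true,[0,-2,0,0,1]),
  (true,[-1,0,1]),
  (true,[-1,1])]

noncomputable def t0 : Tr2 :=
  (.C [(4,0),(0,0),(10,0),(1,0),(1,1)])

theorem ok0 : chk2 M t0 base = true := by decide +kernel

theorem closed : Closed true 1 (-1) 0 1 3 0 1 0 0 :=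
  ⟨t0, base, chkQ_of (by decide +kernel) ok0⟩

end Helper55.Q2.T_TA_1_m1_1_1_Q3_1

namespace Helper55.Q2.T_TA_1_1_m1_m1_G

noncomputable def M : Cx := mQ (-1) 1 1 1 0 0 0 0

noncomputable def base : List Con :=
  [(false,[0,0,0,-1,0,0,0,-1,-1,0,1]),
  (false,[0,1,0,-1,0,0,0,1,0,0,-1]),
  (false,[0,1,0,-1,0,0,0,-1,0,0,1]),
  (false,[0,1,0,0,0,0,0,1,1,0,-1]),
  (false,[0,1,0,0,0,0,0,-1,-1,0,1]),
  (false,[0,0,1,0,0,0,0,1,0,0,-1]),
  (false,[0,0,1,0,0,0,0,-1,0,0,1]),
  (false,[0,0,0,0,0,0,0,0,0,1,-1]),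
  (false,[0,0,0,0,0,0,0,0,0,0,1]),
  (false,[0,0,0,0,0,1,-1,0,0,1]),
  (false,[0,0,0,0,0,0,1,0,0,-1]),
  (false,[0,0,0,0,1,0,0,0,0,-2]),
  (false,[0,0,0,0,0,-1,0,0,0,1]),
  (true,[0,0,0,0,0,1]),
  (true,[1,-2,1]),
  (true,[0,1,0,-1]),
  (true,[0,0,0,1]),
  (true,[0,0,-2,0,1]),
  (true,[0,-2,0,0,1]),
  (true,[-1,0,1]),
  (true,[-1,1])]

open Helper81.PC in
noncomputable def t0n : Helper81.PC.Ten2 :=
  (nq 113081231673008961371025537635036784008239249615529684556117142078719393803 (nr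
  1895546823411196919504932996332078092639477240332069537515825937256212057437256005175625286017171102360322896055744328544063232034591823198123047959799014667191559438102993936895458627024565057423331215422766671541595496912613830088576163083231917518180576143140258064027209676184251002882630439087976813199119671127406911858909765102269656498135592330124403785291263387830295987708361772640527535197309488622048316780540252385366951763552166263162197198691779087433728)
  (nq 107840198101236009767724989559601481036341223397586420202547341033483 (nq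
  113082094391302711926010031727088454126943891294801836405329098276237082635 (nr
  822062393723767492176396938792292791227451232635413583580214579510868282789160055279699917801022755244314326300234673328825964761810607873786222085828499354181291807412090942622329214723508991400587915538470625867507793987024701642918492164412474980845357359111555460238147694707950883405748687347901363299017077599536235142729184256850146763488799639187999718445583554268336796605047958032404631170531434657368551709473197056648977487264258822504448)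
  (nq 47231301426959365961906775006331953089190166538 (nr
  1905749304553545020430492870324707007998227321045330010628858515467213378669475678819469499156611506290607771710082955832824056851967504462209231004023161637660458311954110578535859689062083996268984885306677609668875732277330638805015453036949353517441446360494637191806654540068521486110171615585606469962661761112537731778423584209526760869605859648455450696251785236761544753152)
  (nr
  3032585779537836968513659175957795236049745501559841632812864562942570868898510392571985160999042843378636021712015122838614178989484084707936917975391752417560213801151938339993769225295351123180131533518761418339073205532098560)))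
  (nr
  121291216428749259429555798095225246718948410619377670147266655849947541020899515775781560393830915599762303689510059263648389027580174274504201780741325639574803170523014413192942188756618911063687076616582774103326619178822008832)))

noncomputable def t0 : Tr2 := Helper81.PC.toT2 t0n

theorem ok0 : chk2 M t0 base = true :=
  Helper81.PC.chk2N_sound M t0n base (by decide +kernel)

theorem closed : Closed true (-1) 1 1 1 0 0 0 0 0 :=
  ⟨t0, base, chkQ_of (by decide +kernel) ok0⟩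

end Helper55.Q2.T_TA_1_1_m1_m1_G

namespace Helper55.Q2.T_TA_1_1_m1_m1_Q1_0

noncomputable def M : Cx := mQ (-1) 1 1 1 1 0 (-1) 0

noncomputable def base : List Con :=
  [(false,[0,-1,0,-1,1,0,0,-1]),
  (false,[0,1,0,-1,0,0,0,1]),
  (false,[0,1,0,-1,0,0,0,-1]),
  (false,[0,2,0,0,-1,0,0,1]),
  (false,[0,0,0,0,1,0,0,-1]),
  (false,[0,0,1,0,0,0,0,1]),
  (false,[0,0,1,0,0,0,0,-1]),
  (false,[0,0,0,0,0,0,-1,2]),
  (false,[0,0,0,0,0,0,1,-1]),
  (false,[0,0,0,0,0,1,-1,1]),
  (false,[0,0,0,0,0,0,1,-1]),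
  (false,[0,0,0,0,1,0,0,-2]),
  (false,[0,0,0,0,0,-1,0,1]),
  (true,[0,0,0,0,0,1]),
  (true,[1,-2,1]),
  (true,[0,1,0,-1]),
  (true,[0,0,0,1]),
  (true,[0,0,-2,0,1]),
  (true,[0,-2,0,0,1]),
  (true,[-1,0,1]),
  (true,[-1,1])]

noncomputable def t0 : Tr2 :=
  (.C [(2,0),(0,0),(10,1),(1,0),(0,0),(2,0)])

theorem ok0 : chk2 M t0 base = true := by decide +kernel

theorem closed : Closed true (-1) 1 1 1 1 0 (-1) 0 0 :=
  ⟨t0, base, chkQ_of (by decide +kernel) ok0⟩

end Helper55.Q2.T_TA_1_1_m1_m1_Q1_0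

namespace Helper55.Q2.T_TA_1_1_m1_m1_Q2_0

noncomputable def M : Cx := mQ (-1) 1 1 1 2 0 1 0

noncomputable def base : List Con :=
  [(false,[0,1,0,-1,-1,0,0,2]),
  (false,[0,1,0,-1,0,0,0,-2]),
  (false,[0,1,0,-1,0,0,0,2]),
  (false,[0,0,0,0,1,0,0,-2]),
  (false,[0,2,0,0,-1,0,0,2]),
  (false,[0,0,1,0,0,0,0,-2]),
  (false,[0,0,1,0,0,0,0,2]),
  (false,[0,0,0,0,0,0,1,-1]),
  (false,[0,0,0,0,0,0,-1,2]),
  (false,[0,0,0,0,0,1,-1,1]),
  (false,[0,0,0,0,0,0,1,-1]),
  (false,[0,0,0,0,1,0,0,-2]),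
  (false,[0,0,0,0,0,-1,0,1]),
  (true,[0,0,0,0,0,1]),
  (true,[1,-2,1]),
  (true,[0,1,0,-1]),
  (true,[0,0,0,1]),
  (true,[0,0,-2,0,1]),
  (true,[0,-2,0,0,1]),
  (true,[-1,0,1]),
  (true,[-1,1])]

noncomputable def t0 : Tr2 :=
  (.C [(0,1),(4,1),(10,1),(0,0),(0,0)])

theorem ok0 : chk2 M t0 base = true := by decide +kernel

theorem closed : Closed true (-1) 1 1 1 2 0 1 0 0 :=
  ⟨t0, base, chkQ_of (by decide +kernel) ok0⟩

end Helper55.Q2.T_TA_1_1_m1_m1_Q2_0

namespace Helper55.Q2.T_TA_1_1_m1_m1_Q2_1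

noncomputable def M : Cx := mQ (-1) 1 1 1 2 1 1 0

noncomputable def base : List Con :=
  [(false,[0,1,0,-1,-1,0,0,2]),
  (false,[0,1,0,-1,1,0,0,-2]),
  (false,[0,1,0,-1,-1,0,0,2]),
  (false,[0,0,0,0,1,0,0,-2]),
  (false,[0,2,0,0,-1,0,0,2]),
  (false,[0,0,1,0,1,0,0,-2]),
  (false,[0,0,1,0,-1,0,0,2]),
  (false,[0,0,0,0,0,0,1,-1]),
  (false,[0,0,0,0,0,0,-1,2]),
  (false,[0,0,0,0,0,1,-1,1]),
  (false,[0,0,0,0,0,0,1,-1]),
  (false,[0,0,0,0,1,0,0,-2]),
  (false,[0,0,0,0,0,-1,0,1]),
  (true,[0,0,0,0,0,1]),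
  (true,[1,-2,1]),
  (true,[0,1,0,-1]),
  (true,[0,0,0,1]),
  (true,[0,0,-2,0,1]),
  (true,[0,-2,0,0,1]),
  (true,[-1,0,1]),
  (true,[-1,1])]

open Helper81.PC in
noncomputable def t0n : Helper81.PC.Ten2 :=
  (nq 703803831948301278294931967127154720776 (nr
  124226556619076201352591194807108050024951209790507315338723887288527589555659201496995160384719711695530516756995267895097739370461466118732908289352193199992543297248028424257054871043891664180230580349328177491043664350449647573486496616353778592606116057096394221452802888347322814467067821847124879345327653124595983918490656147871946006473564355054838940545111562964219989107207109530439461321425797136573726833865557399614812568672783240777701386401350707965954359296)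
  (nr
  4831648498478708373024269243436580037469923462939582936800551913521352738371982559009201812152979192205547553870839220871512693087306474024304793413556587834158729219605414170344064781420389626417000152037204851159455253021258696000196666770879869015125695213588636083449582547302807209940603929854135522014785692703531618933214924826634337921451530872659513730573790206302811397549689673791942505184814952349696))

noncomputable def t0 : Tr2 := Helper81.PC.toT2 t0n

theorem ok0 : chk2 M t0 base = true :=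
  Helper81.PC.chk2N_sound M t0n base (by decide +kernel)

theorem closed : Closed true (-1) 1 1 1 2 1 1 0 0 :=
  ⟨t0, base, chkQ_of (by decide +kernel) ok0⟩

end Helper55.Q2.T_TA_1_1_m1_m1_Q2_1

namespace Helper55.Q2.T_TA_1_1_m1_m1_Q3_m1

noncomputable def M : Cx := mQ (-1) 1 1 1 3 1 (-1) 0

noncomputable def base : List Con :=
  [(false,[0,1,0,-2,1,0,0,1]),
  (false,[0,1,-1,-1,1,0,0,-1]),
  (false,[0,1,1,-1,-1,0,0,1]),
  (false,[0,0,0,1,-1,0,0,-1]),
  (false,[0,2,0,-1,1,0,0,1]),
  (false,[0,0,0,0,1,0,0,-1]),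
  (false,[0,0,2,0,-1,0,0,1]),
  (true,[0,0,0,0,0,-1,1]),
  (false,[0,0,0,0,0,1,-1,1]),
  (false,[0,0,0,0,0,1,-1,1]),
  (false,[0,0,0,0,0,0,1,-1]),
  (false,[0,0,0,0,1,0,0,-2]),
  (false,[0,0,0,0,0,-1,0,1]),
  (true,[0,0,0,0,0,1]),
  (true,[1,-2,1]),
  (true,[0,1,0,-1]),
  (true,[0,0,0,1]),
  (true,[0,0,-2,0,1]),
  (true,[0,-2,0,0,1]),
  (true,[-1,0,1]),
  (true,[-1,1])]

noncomputable def t0 : Tr2 :=
  (.C [(2,1),(0,1),(13,0),(0,2),(1,3)])

theorem ok0 : chk2 M t0 base = true := by decide +kernel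

theorem closed : Closed true (-1) 1 1 1 3 1 (-1) 0 0 :=
  ⟨t0, base, chkQ_of (by decide +kernel) ok0⟩

end Helper55.Q2.T_TA_1_1_m1_m1_Q3_m1

namespace Helper55.Q2.T_TA_1_1_m1_m1_Q3_0

noncomputable def M : Cx := mQ (-1) 1 1 1 3 1 0 0

noncomputable def base : List Con :=
  [(false,[0,1,0,-2,0,0,0,1]),
  (false,[0,1,-1,-1,1,0,0,-1]),
  (false,[0,1,1,-1,-1,0,0,1]),
  (false,[0,0,0,1,0,0,0,-1]),
  (false,[0,2,0,-1,0,0,0,1]),
  (false,[0,0,0,0,1,0,0,-1]),
  (false,[0,0,2,0,-1,0,0,1]),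
  (true,[0,0,0,0,0,-1,1]),
  (false,[0,0,0,0,0,1,-1,1]),
  (false,[0,0,0,0,0,1,-1,1]),
  (false,[0,0,0,0,0,0,1,-1]),
  (false,[0,0,0,0,1,0,0,-2]),
  (false,[0,0,0,0,0,-1,0,1]),
  (true,[0,0,0,0,0,1]),
  (true,[1,-2,1]),
  (true,[0,1,0,-1]),
  (true,[0,0,0,1]),
  (true,[0,0,-2,0,1]),
  (true,[0,-2,0,0,1]),
  (true,[-1,0,1]),
  (true,[-1,1])]

noncomputable def t0 : Tr2 :=
  (.C [(2,0),(0,0),(10,0),(2,0),(2,0)])

theorem ok0 : chk2 M t0 base = true := by decide +kernel

theorem closed : Closed true (-1) 1 1 1 3 1 0 0 0 :=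
  ⟨t0, base, chkQ_of (by decide +kernel) ok0⟩

end Helper55.Q2.T_TA_1_1_m1_m1_Q3_0

namespace Helper55.Q2.T_TA_1_1_m1_m1_Q3_1

noncomputable def M : Cx := mQ (-1) 1 1 1 3 1 1 0

noncomputable def base : List Con :=
  [(false,[0,1,0,-2,-1,0,0,1]),
  (false,[0,1,-1,-1,1,0,0,-1]),
  (false,[0,1,1,-1,-1,0,0,1]),
  (false,[0,0,0,1,1,0,0,-1]),
  (false,[0,2,0,-1,-1,0,0,1]),
  (false,[0,0,0,0,1,0,0,-1]),
  (false,[0,0,2,0,-1,0,0,1]),
  (true,[0,0,0,0,0,-1,1]),
  (false,[0,0,0,0,0,1,-1,1]),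
  (false,[0,0,0,0,0,1,-1,1]),
  (false,[0,0,0,0,0,0,1,-1]),
  (false,[0,0,0,0,1,0,0,-2]),
  (false,[0,0,0,0,0,-1,0,1]),
  (true,[0,0,0,0,0,1]),
  (true,[1,-2,1]),
  (true,[0,1,0,-1]),
  (true,[0,0,0,1]),
  (true,[0,0,-2,0,1]),
  (true,[0,-2,0,0,1]),
  (true,[-1,0,1]),
  (true,[-1,1])]

noncomputable def t0 : Tr2 :=
  (.C [(0,1),(10,0),(4,3),(1,0)])

theorem ok0 : chk2 M t0 base = true := by decide +kernel

theorem closed : Closed true (-1) 1 1 1 3 1 1 0 0 :=
  ⟨t0, base, chkQ_of (by decide +kernel) ok0⟩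

end Helper55.Q2.T_TA_1_1_m1_m1_Q3_1

namespace Helper55.Q2.T_TA_1_1_m1_1_G

noncomputable def M : Cx := mQ (-1) 1 0 1 0 0 0 0

noncomputable def base : List Con :=
  [(false,[0,0,0,-1,0,0,0,1,1,0,-1]),
  (false,[0,1,0,-1,0,0,0,1,0,0,-1]),
  (false,[0,1,0,-1,0,0,0,-1,0,0,1]),
  (false,[0,1,0,0,0,0,0,1,1,0,-1]),
  (false,[0,1,0,0,0,0,0,-1,-1,0,1]),
  (false,[0,0,1,0,0,0,0,1,0,0,-1]),
  (false,[0,0,1,0,0,0,0,-1,0,0,1]),
  (false,[0,0,0,0,0,0,0,0,0,1,-1]),
  (false,[0,0,0,0,0,0,0,0,0,0,1]),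
  (false,[0,0,0,0,0,1,-1,0,0,1]),
  (false,[0,0,0,0,0,0,1,0,0,-1]),
  (false,[0,0,0,0,1,0,0,0,0,-2]),
  (false,[0,0,0,0,0,-1,0,0,0,1]),
  (true,[0,0,0,0,0,1]),
  (true,[1,-2,1]),
  (true,[0,1,0,-1]),
  (true,[0,0,0,1]),
  (true,[0,0,-2,0,1]),
  (true,[0,-2,0,0,1]),
  (true,[-1,0,1]),
  (true,[-1,1])]

open Helper81.PC in
noncomputable def t0n : Helper81.PC.Ten2 :=
  (ni 2658131512635090869859335027921387561 (nr
  23287795075502758713316735891744899459231356566362102146048771252929995226457860187153775922850033670346851468800304117923622274509161174035101470151825856951537656820228213469886238185717409288631279062571468855540625304801574387712)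
  (nq 113081663032155836648517784682489953861948339897520407355622026330928971787 (nq
  113082094391302711926010031727088454126943242257694519551875531964195930123 (nq
  113082525750449587203502278773114289186296212134437912329863018783105220619 (nr
  1951487287862830100920824699212500015338532862623907572618787091543316375736809634792494358838761740070203254544363707882254007665124110583821055622321120174048650035466149605636503602230965911628618276772325373185559859699454219340736670153286987142295006749745749201627529391955107043099804004481442254293728160489015593846222767859491132674554394582417024549249003798997222434013184)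
  (nr
  203494756477605875060070690289511448093389489343619849398585205511345821913462099664373952828275566831781204312734549406296991374801799451837889940116347364517123946793392797550635677965587933415134966528019865048253403044144781885177856))
  (nr
  69402967070759820512492283227767829319762113670397980669488740463700173696261699384967127464375500113550368019427917909624739047691419996701846762434418578364055392910699488314612209279281905904081156990529694068282715275264))
  (nr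
  42272106724057971963055113029616838177703876862616408097525365674480818757977947161416196532201564266628036240943705323936496438107676402591656581264931024990706952647669818060038302493926786609341997389209112573388028511597836340026291721768204806474672533542742103628459102124189126670272566726964721579648137350381741765582676461171017209089641340173215705824230966975390304192679775153938194531495127005702159308052176483422631528489615733874901450321294145575137952795115022805387360245590096120123096039424)))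

noncomputable def t0 : Tr2 := Helper81.PC.toT2 t0n

theorem ok0 : chk2 M t0 base = true :=
  Helper81.PC.chk2N_sound M t0n base (by decide +kernel)

theorem closed : Closed true (-1) 1 0 1 0 0 0 0 0 :=
  ⟨t0, base, chkQ_of (by decide +kernel) ok0⟩

end Helper55.Q2.T_TA_1_1_m1_1_G

namespace Helper55.Q2.T_TA_1_1_m1_1_Q1_0

noncomputable def M : Cx := mQ (-1) 1 0 1 1 0 (-1) 0

noncomputable def base : List Con :=
  [(false,[0,1,0,-1,-1,0,0,1]),
  (false,[0,1,0,-1,0,0,0,1]),
  (false,[0,1,0,-1,0,0,0,-1]),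
  (false,[0,2,0,0,-1,0,0,1]),
  (false,[0,0,0,0,1,0,0,-1]),
  (false,[0,0,1,0,0,0,0,1]),
  (false,[0,0,1,0,0,0,0,-1]),
  (false,[0,0,0,0,0,0,-1,2]),
  (false,[0,0,0,0,0,0,1,-1]),
  (false,[0,0,0,0,0,1,-1,1]),
  (false,[0,0,0,0,0,0,1,-1]),
  (false,[0,0,0,0,1,0,0,-2]),
  (false,[0,0,0,0,0,-1,0,1]),
  (true,[0,0,0,0,0,1]),
  (true,[1,-2,1]),
  (true,[0,1,0,-1]),
  (true,[0,0,0,1]),
  (true,[0,0,-2,0,1]),
  (true,[0,-2,0,0,1]),
  (true,[-1,0,1]),
  (true,[-1,1])]

noncomputable def t0 : Tr2 :=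
  (.C [(0,1),(10,0),(4,1),(1,0)])

theorem ok0 : chk2 M t0 base = true := by decide +kernel

theorem closed : Closed true (-1) 1 0 1 1 0 (-1) 0 0 :=
  ⟨t0, base, chkQ_of (by decide +kernel) ok0⟩

end Helper55.Q2.T_TA_1_1_m1_1_Q1_0

namespace Helper55.Q2.T_TA_1_1_m1_1_Q2_0

noncomputable def M : Cx := mQ (-1) 1 0 1 2 0 1 0

noncomputable def base : List Con :=
  [(false,[0,-1,0,-1,1,0,0,-2]),
  (false,[0,1,0,-1,0,0,0,-2]),
  (false,[0,1,0,-1,0,0,0,2]),
  (false,[0,0,0,0,1,0,0,-2]),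
  (false,[0,2,0,0,-1,0,0,2]),
  (false,[0,0,1,0,0,0,0,-2]),
  (false,[0,0,1,0,0,0,0,2]),
  (false,[0,0,0,0,0,0,1,-1]),
  (false,[0,0,0,0,0,0,-1,2]),
  (false,[0,0,0,0,0,1,-1,1]),
  (false,[0,0,0,0,0,0,1,-1]),
  (false,[0,0,0,0,1,0,0,-2]),
  (false,[0,0,0,0,0,-1,0,1]),
  (true,[0,0,0,0,0,1]),
  (true,[1,-2,1]),
  (true,[0,1,0,-1]),
  (true,[0,0,0,1]),
  (true,[0,0,-2,0,1]),
  (true,[0,-2,0,0,1]),
  (true,[-1,0,1]),
  (true,[-1,1])]

noncomputable def t0 : Tr2 :=
  (.C [(1,0),(2,0),(9,1),(1,0),(0,0),(2,0)])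

theorem ok0 : chk2 M t0 base = true := by decide +kernel

theorem closed : Closed true (-1) 1 0 1 2 0 1 0 0 :=
  ⟨t0, base, chkQ_of (by decide +kernel) ok0⟩

end Helper55.Q2.T_TA_1_1_m1_1_Q2_0

namespace Helper55.Q2.T_TA_1_1_m1_1_Q2_1

noncomputable def M : Cx := mQ (-1) 1 0 1 2 1 1 0

noncomputable def base : List Con :=
  [(false,[0,-1,0,-1,1,0,0,-2]),
  (false,[0,1,0,-1,1,0,0,-2]),
  (false,[0,1,0,-1,-1,0,0,2]),
  (false,[0,0,0,0,1,0,0,-2]),
  (false,[0,2,0,0,-1,0,0,2]),
  (false,[0,0,1,0,1,0,0,-2]),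
  (false,[0,0,1,0,-1,0,0,2]),
  (false,[0,0,0,0,0,0,1,-1]),
  (false,[0,0,0,0,0,0,-1,2]),
  (false,[0,0,0,0,0,1,-1,1]),
  (false,[0,0,0,0,0,0,1,-1]),
  (false,[0,0,0,0,1,0,0,-2]),
  (false,[0,0,0,0,0,-1,0,1]),
  (true,[0,0,0,0,0,1]),
  (true,[1,-2,1]),
  (true,[0,1,0,-1]),
  (true,[0,0,0,1]),
  (true,[0,0,-2,0,1]),
  (true,[0,-2,0,0,1]),
  (true,[-1,0,1]),
  (true,[-1,1])]

noncomputable def t0 : Tr2 :=
  (.C [(0,0),(1,0),(13,1)])

theorem ok0 : chk2 M t0 base = true := by decide +kernel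

theorem closed : Closed true (-1) 1 0 1 2 1 1 0 0 :=
  ⟨t0, base, chkQ_of (by decide +kernel) ok0⟩

end Helper55.Q2.T_TA_1_1_m1_1_Q2_1

namespace Helper55.Q2.T_TA_1_1_m1_1_Q3_m1

noncomputable def M : Cx := mQ (-1) 1 0 1 3 1 (-1) 0

noncomputable def base : List Con :=
  [(false,[0,-1,0,0,-1,0,0,-1]),
  (false,[0,1,-1,-1,1,0,0,-1]),
  (false,[0,1,1,-1,-1,0,0,1]),
  (false,[0,0,0,1,-1,0,0,-1]),
  (false,[0,2,0,-1,1,0,0,1]),
  (false,[0,0,0,0,1,0,0,-1]),
  (false,[0,0,2,0,-1,0,0,1]),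
  (true,[0,0,0,0,0,-1,1]),
  (false,[0,0,0,0,0,1,-1,1]),
  (false,[0,0,0,0,0,1,-1,1]),
  (false,[0,0,0,0,0,0,1,-1]),
  (false,[0,0,0,0,1,0,0,-2]),
  (false,[0,0,0,0,0,-1,0,1]),
  (true,[0,0,0,0,0,1]),
  (true,[1,-2,1]),
  (true,[0,1,0,-1]),
  (true,[0,0,0,1]),
  (true,[0,0,-2,0,1]),
  (true,[0,-2,0,0,1]),
  (true,[-1,0,1]),
  (true,[-1,1])]

noncomputable def t0 : Tr2 :=
  (.C [(0,0),(11,0),(0,0),(4,0),(1,2)])

theorem ok0 : chk2 M t0 base = true := by decide +kernel

theorem closed : Closed true (-1) 1 0 1 3 1 (-1) 0 0 :=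
  ⟨t0, base, chkQ_of (by decide +kernel) ok0⟩

end Helper55.Q2.T_TA_1_1_m1_1_Q3_m1

namespace Helper55.Q2.T_TA_1_1_m1_1_Q3_0

noncomputable def M : Cx := mQ (-1) 1 0 1 3 1 0 0

noncomputable def base : List Con :=
  [(false,[0,-1,0,0,0,0,0,-1]),
  (false,[0,1,-1,-1,1,0,0,-1]),
  (false,[0,1,1,-1,-1,0,0,1]),
  (false,[0,0,0,1,0,0,0,-1]),
  (false,[0,2,0,-1,0,0,0,1]),
  (false,[0,0,0,0,1,0,0,-1]),
  (false,[0,0,2,0,-1,0,0,1]),
  (true,[0,0,0,0,0,-1,1]),
  (false,[0,0,0,0,0,1,-1,1]),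
  (false,[0,0,0,0,0,1,-1,1]),
  (false,[0,0,0,0,0,0,1,-1]),
  (false,[0,0,0,0,1,0,0,-2]),
  (false,[0,0,0,0,0,-1,0,1]),
  (true,[0,0,0,0,0,1]),
  (true,[1,-2,1]),
  (true,[0,1,0,-1]),
  (true,[0,0,0,1]),
  (true,[0,0,-2,0,1]),
  (true,[0,-2,0,0,1]),
  (true,[-1,0,1]),
  (true,[-1,1])]

noncomputable def t0 : Tr2 :=
  (.C [(0,0),(11,0),(0,0),(6,0)])

theorem ok0 : chk2 M t0 base = true := by decide +kernel

theorem closed : Closed true (-1) 1 0 1 3 1 0 0 0 :=
  ⟨t0, base, chkQ_of (by decide +kernel) ok0⟩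

end Helper55.Q2.T_TA_1_1_m1_1_Q3_0

namespace Helper55.Q2.T_TA_1_1_m1_1_Q3_1

noncomputable def M : Cx := mQ (-1) 1 0 1 3 1 1 0

noncomputable def base : List Con :=
  [(false,[0,-1,0,0,1,0,0,-1]),
  (false,[0,1,-1,-1,1,0,0,-1]),
  (false,[0,1,1,-1,-1,0,0,1]),
  (false,[0,0,0,1,1,0,0,-1]),
  (false,[0,2,0,-1,-1,0,0,1]),
  (false,[0,0,0,0,1,0,0,-1]),
  (false,[0,0,2,0,-1,0,0,1]),
  (true,[0,0,0,0,0,-1,1]),
  (false,[0,0,0,0,0,1,-1,1]),
  (false,[0,0,0,0,0,1,-1,1]),
  (false,[0,0,0,0,0,0,1,-1]),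
  (false,[0,0,0,0,1,0,0,-2]),
  (false,[0,0,0,0,0,-1,0,1]),
  (true,[0,0,0,0,0,1]),
  (true,[1,-2,1]),
  (true,[0,1,0,-1]),
  (true,[0,0,0,1]),
  (true,[0,0,-2,0,1]),
  (true,[0,-2,0,0,1]),
  (true,[-1,0,1]),
  (true,[-1,1])]

noncomputable def t0 : Tr2 :=
  (.C [(4,1),(6,0),(2,1),(1,1),(0,0)])

theorem ok0 : chk2 M t0 base = true := by decide +kernel

theorem closed : Closed true (-1) 1 0 1 3 1 1 0 0 :=
  ⟨t0, base, chkQ_of (by decide +kernel) ok0⟩

end Helper55.Q2.T_TA_1_1_m1_1_Q3_1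

namespace Helper55.Q2.T_TA_1_1_1_m1_G

noncomputable def M : Cx := mQ 1 1 1 1 0 0 0 0

noncomputable def base : List Con :=
  [(false,[0,0,0,-1,0,0,0,-1,-1,0,-1]),
  (false,[0,1,0,-1,0,0,0,1,0,0,1]),
  (false,[0,1,0,-1,0,0,0,-1,0,0,-1]),
  (false,[0,1,0,0,0,0,0,1,1,0,1]),
  (false,[0,1,0,0,0,0,0,-1,-1,0,-1]),
  (false,[0,0,1,0,0,0,0,1,0,0,1]),
  (false,[0,0,1,0,0,0,0,-1,0,0,-1]),
  (false,[0,0,0,0,0,0,0,0,0,1,-1]),
  (false,[0,0,0,0,0,0,0,0,0,0,1]),
  (false,[0,0,0,0,0,1,-1,0,0,1]),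
  (false,[0,0,0,0,0,0,1,0,0,-1]),
  (false,[0,0,0,0,1,0,0,0,0,-2]),
  (false,[0,0,0,0,0,-1,0,0,0,1]),
  (true,[0,0,0,0,0,1]),
  (true,[1,-2,1]),
  (true,[0,1,0,-1]),
  (true,[0,0,0,1]),
  (true,[0,0,-2,0,1]),
  (true,[0,-2,0,0,1]),
  (true,[-1,0,1]),
  (true,[-1,1])]

open Helper81.PC in
noncomputable def t0n : Helper81.PC.Ten2 :=
  (nq 94360224761383588135004801252255876276156528445185249842344413495307 (nr
  97033121236550509953719769142667303963725934634911180626971953870663202117250156676256637281168421373766575958923709139896873780903023869459359185762951447089560547804763909423492465969648285897609281913914001613710239964921331712)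
  (nq 47231475640897405516120741270900466490047594506 (nq
  47231301426959365961906775006331935494856900618 (nr
  1041913373521991367883382133275806359664918540410830342014375382070111690569755131481226108484860549944011918151209762422213821873801416701622128375030681177824830553678874001890547032519544796326754776137731589972673226125361940005890977023611859790907524217955295614034887675132813847271827709891018038539372529608066002228144044361316109621473589275767967433991088351700039553537377095370292547908916890112333023985375214997876193611533906712113537743954313666137616275000597673942091223040703387352676973607808287808675451415117553591002598776250474338715319664640)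
  (nq 13084495713626514454957571459666455613233326761050123 (nq
  23495922592217056815094942097279957444913740377595268385431394372921608120802855521522167893065739
  (nr
  140907883218172454287288440481797561726174249124161342388417240114066757282128382666268951978117427072700079081546470691043880396149449348080813927001206199230791326899179404193751866760358705134469221500342337334645112923135041042224672705916769662830910585766361578664883087865929337359099173225599282625029270266889878681755285630480388111621061806514640869930820900738387642367033982353990488492605036299178415948818898507288167640241749020604957934075114676887363441493753870488004049224407450024908035194880)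
  (nq
  25631909629132613370309537529472040456094238641127963912073908192164543142116537800169229973061643
  (nr
  50174961842142786327861750123366883895810340870614617490521662778079765533917956086580861608796789042606165432821813644477834628042068786850230087400045473409979091921912160559357458020220250597653635896792081216030948738158363611111031628106980548544653669913813790884149267455108296560829699006619188439499589731848943790119556957320615145057464714919394723122271792197675289547114441559776128099998321066231521762754688716327717424286469718016)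
  (nq 47231301426959365961906775006331917904818339850 (nr
  46269351435515637722463480263266972118319488234896685374411537865770867679760942303700735083213821088832816977946604385891677916195139395802747559882292656887749125347583765014442662417581494860699817196944606502559749767168)
  (nq 113084251187037088313471266958644964218062914130900504784663675685340053515 (nq
  113084682546183963590963514003243464483056518099947333217096813506277015563 (nr
  20265402636345658396878363313001842488802277932055909055926175772700312231404017423261821128968920738873217222536826742702527979060745407236573981444381538839214412811287872971937290393341464554791220473942813608394801645904387543352575917481522009609826363275481325262528903630708601553354392463635768031878139395417902598049875318135317122590476774519660560368570276163982951553355233838535482615675877552349624926208)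
  (nq 13130487343276281939988759926731346852751257247023115 (nr
  123006909538834536684827801649684125441393519535703175369489845208318226987524548973605331994526469688742913394510478270431981303190812019554920795484270900332335816117535820649252492273397832540599360793161077973561725723088289416719357253930570118726806405120)
  (nq 115792972890009365414934410509044141644925381140553783945360105219708554444811 (nr
  160905748999520488219414573117074235101868068426967255998127697725531082248445665713026198405845621105710684028644861898287801710425637826783545162192440899866984974028088073124381400576888241440413040239899603241949181931852643664148947893216117556606606293813660798359222121608407782084026502596583451047910114274469203139098556911976005578140559804175861227754451024747779722422284227140243047266660233919909807132400452189491711197725329223665740859604993)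
  (nq 485670928431565179388705629887381717064027703948638722912175131246505561340942352395 (nq
  485670928431565610747852505164873964110053539007990394714703890317585915535769337867 (nr
  114168368489539188156289664917829928033649396040517263726003425760536147710155459925580906861240471377871398300966000264188668004081705129625850358440619254121204990821707253818702542686443581768220695253092496663071968706920794640727650029901857440195450093014824354803946609475312497556198818366621018087464771963217131137156338730139648)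
  (nr
  2230670583781924401804787569100723768353271280046506321459517024646737268999249971389711310496571830250140191684571072968011220724977000786017292664474859554778318059136523753168551876173696363751899893879868859352084756136725794896633905569254162741537756692449906352253814317017726976))
  (nq 115792972916969312094639253774485945594400315553510571120614258915943922401291 (nr
  246010065605687410637199775244951687397344901263131440738627569680715662523508040673936428409080901056704347960687520070232793691431851918450144749118969877585851788384231898447799524661661230697452149690279205266409931008209507668973035272574969508013008748544)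
  (nr
  3670817562253411997947801207448260621842349094526703666340867476622525344252419861537339801492811175974752350705996084751232694203121765033441837336853881414369277429580492302548524882820461192147848618280753725891332400671653842968304019214164047512753449786918452906081479717326054985343336287354560838218681865424091692181523921016577262201339904))))))
  (nq 113084682546183963590963514003243464483056518099947333217096813506277015563 (nr
  351921117148330186408117257419013118542437771681369532121745125517883548527605210384809226054861583591669800944125125795830597605326892793914733779129749955718133524691958498708502335522173382332426774234837144005382818585677293563293299260032833107787776)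
  (nq 13130487343276281939988759926731346852751257247023115 (nr
  123006909882495265856630098263145976212824720395593991213276887410752520017891726767877366920643987801061300633231121272359932942372747977339626051296461760867535580246725219468820090149758019680682140945233690925242082786641772465458728026967269586401178419200)
  (nr
  207051211977535296207338206500614920493942807446719605978434918613200765762227063177038455261109159279713535106016692305502108655557976551681175595897821224151697463505596416295131894860624744315130325635695423643124342902667578896168897321971159267750323947840667763957308136570889497477685508112613985558757103709988882380015034085810875245007104266143300898682593691524807104048056901197870914757869768795059312431098605914136367268099362581605158336841899017374676484097)))))))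
  (nq 113082957109596462480994525820567459040006600649099593864659630849223426059 (nq
  113083388468743337758486772865165959305000204618146422296948635889899012107 (ni
  2659429586849724576766485244189999145 (nr
  25742844707213045298712247259846066965206842288280147563570201159291898862383166803791961989183661476892702011260167075997298657262605747337697441518222639837247844703735168640702442288420245770345591367014164437973815733004979540963270492173635911748951242271378952579831359909283287467398560181707851907472983327287853346493298135006527800740873352871990161067091828622011985208698055179887423754245233045335212173699983320414156987509885226963187068646798978039153742121022228477614887509964863437730263622468599658286220004087423177977950769597920405618688)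
  (nr
  2039558284042544702568097915985781299197240786597035107598055345977961871595859858624485126642074662442322996323233111156954387384900696281345583828253704593312858213977910379318095942281810092594261600643934631548461207276857614669435435165219849205531342607565342563887959080804452336170651844552789700160813429709606429327160860851227582593196656059786869270261124936496684625805688630015194309184465090467003290178155718793705122266961331192166264484230852355939391412726924409227559062920531609293316436410737557026645662342807573797260698871531023400993089533045287696516652294209536))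
  (ni 2659429586849724576766485246336958505 (nq 47231475640897405516120741270900484080086155274
  (nq 47231301426959365961906775006331917904818339850 (nr
  706068127213468677228267506972092773775207962548052828196495261968231642997373082457591348142685916720670879435951297997840975654771417646888753459450058160007189080532517727235268959650438289952415360339610103269294080)
  (nq 113085113905330838868455761049269299542409487976690725995084300325186830347 (nq
  113085545264477714145948008095295134601761159779219485066164654520013815819 (nr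
  81938020227393688057827097486199174555025516413744572193529556508331972515438441747919183929071188959691516624825228704005282423995456802476208964867144325303330402551314426153954093212306827270200521786342466980447490486803633004370045020667904)
  (nr
  123003390354516942157747496279526421002785381884022092848354781092896991373726140603228774199301077266406368117542032085432672900042423858984935105095350379088336218547297171007226215605896031150230673891771495684087762273312607151007472289282642561814048538624))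
  (nq 113085545264477714145948008096722469396120525686916049411719003517986668555 (nq
  13130487343276281939988759926731346852751257247023115 (nr
  123006909538834536684827801655894197810596358034125224914465156874614824014925090102749428425335050950616088004503316189940056925332579904313789408565282753886539842656037947892399431984757466197483072388890421844534410580431876229809256442497809979793186226176)
  (nq 115792972916969312082085050303711156731945011814190928367900677700812164694027 (nr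
  1054516284294511869059419339001793252134183901798269581480404754167677315432860074609829496054117859599799677074941887679350451007223877051168069129962316847307844124744697330532193295811661390702811870016967517543145904641783223404657493775702746083703608753852228677556863045809038753582653021318391427561471675763317165497166736110725516513207225866516981878288320644430128143509846941805140858197743376207974920213091736566531526223760845713163856444294987777)
  (nq 115792972930449285421937471936432772374074341467121476915782189712031693013003 (nr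
  167426014057814823032156979873325593867557630594515529808298423150397996739923443301388412943814517844811209587930694823675891649763395567179167516284313624533107542337840683460424969007756154387115531848417285369896154160147271774162273245147815638910920133202455304357699224317846119970561081737216)
  (nq 485670928431566473466145853985347393455963658409263020041356005141545180572743237643 (nr
  256606903067434824090736645070616468300836536980627066593130104905215291821027862581568046631559482712990072536286481400299807803048906773921599777127306405670228789612348520633107029595225218663860556508390778934259602132083153625676790945929615475170907563166456768562556299050655493997232188969066527450756749633331072546041731554882091810842231177216)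
  (nr
  12613243610798672969913922260877308321058157395212335031160845022731266259130145988286691788915109210319957086545995853533700861477775635298117592594974997990989611392490588307561652557041796861142364730942171627756688702074077106192825277495205536892324781585509342468244013461923880431789104104532815466650043406760582184943245739023504657770203759335440384)))))
  (nr
  20265402639491262886610421880231974523342116796986186738790415008757416064929243034055035602505942429361850801905407564746695557467348584363382089482719004798324679348629036543012644216265892955920300729017717072284993912741660045172777349638406169748888823701282703081817226990198939076703210596564073805912506552305303370142064239519337294013213508075681150984993052038735523150133016110688191623102829763889482170368))))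
  (nr
  150914374454012810948525855784441436782283512792889969500617098744818650707213012103831125012316461861347490845075151446677810476227021928363532265505684276151451865229819951624508551934584736400084153271294244625283333198969638006339580898206217059446841334524367592855663025234700255922344086741222682484093794928519619614417652093063681327267245529818515309376488448481853509952140975421805223046435187236615194513650261987471381075217282323652338283014990012122721599174891091343485215589979691941888))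
  (nr
  242581692389743006808735942858014960495060790541710117736867702638908015407661374148873845167248670076511639863801116176985470476522210627601325450902220282504250734605217371166888527079212304966027572343454811838355343203421388800)))
  (nr
  449423283736506879574796887576650470287556677564985942810698909926976592412856137138713833073810393414074574192630766436801921311499145716182278685586046518780667316415761643713883257134828306308410635532587144114845195932955053482462458350632709285722714684381655746301322139628972722637771423847388844916736))))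
  (nr
  2699911594149271494475652143094759661255670016778200732592039922266619116920826239756619554515825802755582826943942737881674257355483226540787368569668309196503999659726644657429914175144994310320889470404792117003853699108674247558172082500776960039355355591779628366129688434204140611267750125374319763519780136364645450089746081874593235661657744694133890925202642905931122615602394306137181502495628788894389909546470945979583268834552094637483476096660336457836820825676512565406956701483067105590779728243513112046574080228157523023453219793751329125584338944)))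

noncomputable def t0 : Tr2 := Helper81.PC.toT2 t0n

theorem ok0 : chk2 M t0 base = true :=
  Helper81.PC.chk2N_sound M t0n base (by decide +kernel)

theorem closed : Closed true 1 1 1 1 0 0 0 0 0 :=
  ⟨t0, base, chkQ_of (by decide +kernel) ok0⟩

end Helper55.Q2.T_TA_1_1_1_m1_G
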